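import Pool.Agent.Helper77.MT.Grp
import Pool.Agent.Helper98.MT.Proj

/-!
The data of `Grp.lean` from one element with a separable characteristic polynomial over a
subfield.
-/

open Matrix

namespace H77MT

/-- Homomorphisms from the multiplicative group of a field to `(ℚ, +)`. -/
def IsChar {L : Type*} [Field L] (χ : L → ℚ) : Prop :=
  ∀ x y : L, x ≠ 0 → y ≠ 0 → χ (x * y) = χ x + χ y

namespace IsChar

variable {L : Type*} [Field L] {χ χ' : L → ℚ}

lemma one (h : IsChar χ) : χ 1 = 0 := by
  have := h 1 1 one_ne_zero one_ne_zero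
  rw [mul_one] at this
  linarith

lemma inv (h : IsChar χ) {x : L} (hx : x ≠ 0) : χ x⁻¹ = - χ x := by
  have := h x x⁻¹ hx (inv_ne_zero hx)
  rw [mul_inv_cancel₀ hx, h.one] at this
  linarith

lemma div (h : IsChar χ) {x y : L} (hx : x ≠ 0) (hy : y ≠ 0) : χ (x / y) = χ x - χ y := by
  rw [div_eq_mul_inv, h _ _ hx (inv_ne_zero hy), h.inv hy]; ring

lemma sq (h : IsChar χ) {x : L} (hx : x ≠ 0) : χ (x ^ 2) = 2 * χ x := by
  rw [pow_two, h _ _ hx hx]; ring

lemma add (h : IsChar χ) (h' : IsChar χ') : IsChar (χ + χ') := by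
  intro x y hx hy
  simp only [Pi.add_apply]
  rw [h x y hx hy, h' x y hx hy]; ring

lemma smul (c : ℚ) (h : IsChar χ) : IsChar (c • χ) := by
  intro x y hx hy
  simp only [Pi.smul_apply, smul_eq_mul]
  rw [h x y hx hy]; ring

lemma zero : IsChar (0 : L → ℚ) := by
  intro x y _ _; simp

/-- The homomorphism attached to `χ`. -/
noncomputable def toHom (h : IsChar χ) : Additive Lˣ →+ ℚ where
  toFun u := χ ((Additive.toMul u : Lˣ) : L)
  map_zero' := h.one
  map_add' := by
    intro u v
    rw [toMul_add, Units.val_mul]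
    exact h _ _ (Units.ne_zero _) (Units.ne_zero _)

end IsChar

/-- An element which is not a root of unity is detected by a character. -/
lemma exists_isChar {L : Type*} [Field L] {x : L} (hx : x ≠ 0) (ht : ∀ m : ℕ, 0 < m → x ^ m ≠ 1) :
    ∃ χ : L → ℚ, IsChar χ ∧ χ x ≠ 0 := by
  classical
  let u : Lˣ := Units.mk0 x hx
  let f : ℤ →+ Additive Lˣ := zmultiplesHom (Additive Lˣ) (Additive.ofMul u)
  have hf : Function.Injective f := by
    rw [injective_iff_map_eq_zero]
    intro k hk
    have h1 : u ^ k = 1 := by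
      have : k • (Additive.ofMul u) = 0 := by simpa [f] using hk
      rw [← ofMul_zpow] at this
      exact this
    by_contra hk0
    have h2 : u ^ k.natAbs = 1 := by
      rcases Int.natAbs_eq k with h | h
      · rw [h, zpow_natCast] at h1; exact h1
      · rw [h, _root_.zpow_neg, zpow_natCast, inv_eq_one] at h1; exact h1
    refine ht k.natAbs (Int.natAbs_pos.mpr hk0) ?_
    have := congrArg (fun v : Lˣ => (v : L)) h2
    simpa [u] using this
  obtain ⟨h, hh⟩ := (Module.Baer.of_divisible ℚ).extension_property_addMonoidHom f hf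
    (Int.castAddHom ℚ)
  refine ⟨fun y => if hy : y = 0 then 0 else h (Additive.ofMul (Units.mk0 y hy)), ?_, ?_⟩
  · intro y z hy hz
    simp only
    rw [dif_neg hy, dif_neg hz, dif_neg (mul_ne_zero hy hz), ← map_add, ← ofMul_mul]
    congr 2
    ext; simp
  · simp only
    rw [dif_neg hx]
    have h1 := congrArg (fun φ : ℤ →+ ℚ => φ 1) hh
    simp only [AddMonoidHom.comp_apply] at h1
    have h2 : f 1 = Additive.ofMul (Units.mk0 x hx) := by simp [f, u]
    rw [h2] at h1
    rw [h1]; norm_num

open Polynomial in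
/-- The rational space spanned by the cocharacters: all functions `a ↦ χ (a ^ 2 / q)` on the
roots of `P`. -/
noncomputable def frobSpace {F : Type*} [Field F] (P : F[X]) (q : F) :
    Submodule ℚ (P.rootSet P.SplittingField → ℚ) where
  carrier := {h | ∃ χ : P.SplittingField → ℚ, IsChar χ ∧
    ∀ a : P.rootSet P.SplittingField,
      h a = χ ((a : P.SplittingField) ^ 2 / algebraMap F P.SplittingField q)}
  add_mem' := by
    rintro h h' ⟨χ, h1, h2⟩ ⟨χ', h1', h2'⟩
    exact ⟨χ + χ', h1.add h1', fun a => by simp [h2 a, h2' a]⟩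
  zero_mem' := ⟨0, IsChar.zero, fun a => by simp⟩
  smul_mem' := by
    rintro c h ⟨χ, h1, h2⟩
    exact ⟨c • χ, h1.smul c, fun a => by simp [h2 a]⟩

variable {K : Type*} [Field K]

/-- Transfer of the Zariski closure through a change of basis. -/
lemma zcl_transfer {N X : Type*} [Fintype N] [DecidableEq N] [Fintype X] [DecidableEq X]
    (S0 : Set (Matrix N N K)) (Q : Matrix N X K) (Q' : Matrix X N K) (hQ : Q * Q' = 1)
    {x : Matrix N N K}
    (hx : Q' * x * Q ∈ zcl {y : Matrix X X K | ∃ s ∈ S0, y = Q' * s * Q}) : x ∈ zcl S0 := by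
  intro f hf
  let Φ : MvPolynomial (N × N) K →ₐ[K] MvPolynomial (X × X) K :=
    MvPolynomial.aeval fun p => ∑ a, ∑ b, MvPolynomial.C (Q p.1 a * Q' b p.2) *
      MvPolynomial.X (a, b)
  have hΦ : ∀ (y : Matrix X X K) (f : MvPolynomial (N × N) K), ev y (Φ f) = ev (Q * y * Q') f := by
    intro y f
    have h : (ev y).comp Φ = ev (Q * y * Q') := by
      apply MvPolynomial.algHom_ext
      intro p
      rw [AlgHom.comp_apply, ev_X]
      simp only [Φ, MvPolynomial.aeval_X, map_sum, map_mul, ev_X, ev_C]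
      rw [mul_apply, Finset.sum_comm]
      refine Finset.sum_congr rfl fun b _ => ?_
      rw [mul_apply, Finset.sum_mul]
      refine Finset.sum_congr rfl fun a _ => ?_
      ring
    rw [← h]; rfl
  have h1 := hx (Φ f) (by
    rintro _ ⟨s, hs, rfl⟩
    rw [hΦ]
    have e : Q * (Q' * s * Q) * Q' = s := by
      calc Q * (Q' * s * Q) * Q' = (Q * Q') * s * (Q * Q') := by simp only [Matrix.mul_assoc]
        _ = s := by rw [hQ, Matrix.one_mul, Matrix.mul_one]
    rw [e]
    exact hf s hs)
  rw [hΦ] at h1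
  have e : Q * (Q' * x * Q) * Q' = x := by
    calc Q * (Q' * x * Q) * Q' = (Q * Q') * x * (Q * Q') := by simp only [Matrix.mul_assoc]
      _ = x := by rw [hQ, Matrix.one_mul, Matrix.mul_one]
  rwa [e] at h1

open Polynomial in
/-- The main reduction. -/
theorem exists_GD [CharZero K] [IsAlgClosed K] {F : Type*} [Field F] [Algebra F K]
    {N : Type*} [Fintype N] [DecidableEq N] [Nonempty N] (S0 : Set (Matrix N N K)) (h1 : 1 ∈ S0)
    (hmul : ∀ s ∈ S0, ∀ t ∈ S0, s * t ∈ S0) (hinv : ∀ s ∈ S0, ∃ t ∈ S0, s * t = 1)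
    (J : Matrix N N K) (hJ : Jᵀ = -J) (hJd : IsUnit J.det)
    (hsim : ∀ s ∈ S0, ∃ c : K, sᵀ * J * s = c • J)
    (hirr : ∀ W : Submodule K (N → K), W ≠ ⊥ → W ≠ ⊤ →
      {U : Submodule K (N → K) | ∃ s ∈ S0, U = W.map (toLin' s)}.Infinite)
    (g0 : Matrix N N K) (hg0 : g0 ∈ S0) (P : F[X]) (hP : g0.charpoly = P.map (algebraMap F K))
    (hsep : P.Separable) (q : F) (hq : g0ᵀ * J * g0 = algebraMap F K q • J)
    (htor : ∀ a ∈ P.rootSet P.SplittingField, ∀ b ∈ P.rootSet P.SplittingField,
      ∀ m : ℕ, 0 < m → a ^ m = b ^ m → a = b) [DecidableEq (P.rootSet P.SplittingField)] :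
    ∃ G : GD K (P.rootSet P.SplittingField), G.E = frobSpace P q ∧
      (∀ a : P.rootSet P.SplittingField, (a : P.SplittingField) * (G.ng a : P.SplittingField) =
        algebraMap F P.SplittingField q) ∧
      (∀ a : P.rootSet P.SplittingField, (a : P.SplittingField) ≠ 0) ∧
      Fintype.card (P.rootSet P.SplittingField) = Fintype.card N ∧
      ((∀ Y ∈ G.sp, Y ∈ G.L0) → ∀ x : Matrix N N K, xᵀ * J * x = J → x ∈ zcl S0) := by
  classical
  have hcharF : CharZero F := (RingHom.charZero_iff (algebraMap F K).injective).mpr inferInstance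
  let L := P.SplittingField
  let ψ : L →ₐ[F] K := IsAlgClosed.lift
  let X := P.rootSet P.SplittingField
  have hψinj : Function.Injective ψ := ψ.toRingHom.injective
  have hPne : P ≠ 0 := hsep.ne_zero
  -- roots are eigenvalues
  have hroot : ∀ a : X, (g0.charpoly).IsRoot (ψ a) := by
    intro a
    have h2 : aeval (a : L) P = 0 := (mem_rootSet.mp a.2).2
    have h3 : aeval (ψ a) P = 0 := by rw [aeval_algHom_apply, h2, map_zero]
    rw [hP, IsRoot.def, eval_map_algebraMap]
    exact h3
  have hev : ∀ a : X, ∃ v : N → K, v ≠ 0 ∧ g0 *ᵥ v = ψ a • v := by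
    intro a
    have h2 : Module.End.HasEigenvalue (toLin' g0 : Module.End K (N → K)) (ψ a) := by
      rw [Module.End.hasEigenvalue_iff_isRoot_charpoly, charpoly_toLin']
      exact hroot a
    obtain ⟨v, hv⟩ := h2.exists_hasEigenvector
    refine ⟨v, hv.2, ?_⟩
    have := hv.apply_eq_smul
    rwa [toLin'_apply] at this
  choose v hv0 hv using hev
  have hli : LinearIndependent K v := by
    apply Module.End.eigenvectors_linearIndependent' (toLin' g0) (fun a : X => ψ a)
      (fun a b hab => Subtype.ext (hψinj hab)) v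
    intro a
    refine ⟨?_, hv0 a⟩
    rw [Module.End.mem_genEigenspace_one]
    rw [toLin'_apply]
    exact hv a
  have hcardX : Fintype.card X = Fintype.card N := by
    have e1 : Fintype.card X = P.natDegree :=
      card_rootSet_eq_natDegree hsep (SplittingField.splits P)
    rw [e1, ← natDegree_map (algebraMap F K), ← hP, charpoly_natDegree_eq_dim]
  have hXne : Nonempty X := Fintype.card_pos_iff.mp (by rw [hcardX]; exact Fintype.card_pos)
  let b : Module.Basis X K (N → K) :=
    basisOfLinearIndependentOfCardEqFinrank hli (by rw [hcardX, Module.finrank_pi])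
  have hb : ∀ a, b a = v a := fun a => by
    simp [b, coe_basisOfLinearIndependentOfCardEqFinrank]
  let e : (X → K) ≃ₗ[K] (N → K) := b.equivFun.symm
  let Q : Matrix N X K := LinearMap.toMatrix' (e : (X → K) →ₗ[K] (N → K))
  let Q' : Matrix X N K := LinearMap.toMatrix' (e.symm : (N → K) →ₗ[K] (X → K))
  have hQ : Q * Q' = 1 := by
    rw [← LinearMap.toMatrix'_comp, LinearEquiv.comp_symm, LinearMap.toMatrix'_id]
  have hQ' : Q' * Q = 1 := by
    rw [← LinearMap.toMatrix'_comp, LinearEquiv.symm_comp, LinearMap.toMatrix'_id]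
  have hQcol : ∀ i a, Q i a = v a i := by
    intro i a
    simp only [Q, LinearMap.toMatrix'_apply]
    have : (e : (X → K) →ₗ[K] (N → K)) (Pi.single a 1) = v a := by
      rw [← hb a]
      show b.equivFun.symm (Pi.single a 1) = b a
      rw [Module.Basis.equivFun_symm_apply, Finset.sum_eq_single a]
      · simp
      · intro c _ hc; rw [Pi.single_eq_of_ne hc, zero_smul]
      · intro h; exact absurd (Finset.mem_univ _) h
    rw [← this]
  have hD : g0 * Q = Q * diagonal (fun a : X => ψ a) := by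
    ext i a
    rw [mul_diagonal, hQcol, mul_apply]
    have h2 := congrFun (hv a) i
    rw [Pi.smul_apply, smul_eq_mul, mulVec, dotProduct] at h2
    rw [mul_comm (v a i), ← h2]
    exact Finset.sum_congr rfl fun k _ => by rw [hQcol]
  have hD' : ∀ m : ℕ, Q' * g0 ^ m * Q = diagonal (fun a : X => ψ a ^ m) := by
    intro m
    induction m with
    | zero => simp [hQ']
    | succ m ih =>
      rw [pow_succ, Matrix.mul_assoc, Matrix.mul_assoc, hD, ← Matrix.mul_assoc (g0 ^ m),
        ← Matrix.mul_assoc, ← Matrix.mul_assoc, ih, diagonal_mul_diagonal]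
      congr 1
      funext a
      rw [pow_succ]
  set J' : Matrix X X K := Qᵀ * J * Q with hJ'
  have hrel : ∀ a c : X, ψ a * J' a c * ψ c = algebraMap F K q * J' a c := by
    have h2 : diagonal (fun a : X => ψ a) * J' * diagonal (fun a : X => ψ a) = algebraMap F K q • J' := by
      calc diagonal (fun a : X => ψ a) * J' * diagonal (fun a : X => ψ a)
          = (Q * diagonal (fun a : X => ψ a))ᵀ * J * (Q * diagonal (fun a : X => ψ a)) := by
            rw [transpose_mul, diagonal_transpose, hJ']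
            simp only [Matrix.mul_assoc]
        _ = Qᵀ * (g0ᵀ * J * g0) * Q := by
            rw [← hD, transpose_mul]
            simp only [Matrix.mul_assoc]
        _ = algebraMap F K q • J' := by
            rw [hq, Matrix.mul_smul, Matrix.smul_mul]
    intro a c
    have h3 := congrFun (congrFun h2 a) c
    rwa [mul_diagonal, diagonal_mul, Matrix.smul_apply, smul_eq_mul] at h3
  have hJ'inv : J' * (Q' * J⁻¹ * Q'ᵀ) = 1 := by
    calc J' * (Q' * J⁻¹ * Q'ᵀ) = Qᵀ * (J * (Q * Q') * J⁻¹) * Q'ᵀ := by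
          rw [hJ']; simp only [Matrix.mul_assoc]
      _ = (Q' * Q)ᵀ := by
          rw [hQ, Matrix.mul_one, Matrix.mul_nonsing_inv _ hJd, Matrix.mul_one, transpose_mul]
      _ = 1 := by rw [hQ', transpose_one]
  have hJ'skew : J'ᵀ = -J' := by
    rw [hJ', transpose_mul, transpose_mul, transpose_transpose, hJ]
    simp only [Matrix.mul_assoc, Matrix.neg_mul, Matrix.mul_neg]
  have hskew : ∀ a c, J' c a = - J' a c := by
    intro a c
    have := congrFun (congrFun hJ'skew a) c
    rwa [transpose_apply, Matrix.neg_apply] at this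
  have hex : ∀ a, ∃ c, J' a c ≠ 0 := by
    intro a
    by_contra hcon
    push Not at hcon
    have h2 := congrFun (congrFun hJ'inv a) a
    rw [mul_apply, one_apply_eq, Finset.sum_eq_zero] at h2
    · exact zero_ne_one h2
    · intro c _; rw [hcon c, zero_mul]
  have ha0 : ∀ a : X, (a : L) ≠ 0 := by
    intro a h0
    have h2 := hv a
    rw [h0, map_zero, zero_smul] at h2
    obtain ⟨t, _, ht⟩ := hinv g0 hg0
    have ht' : t * g0 = 1 := mul_eq_one_comm.mp ht
    apply hv0 a
    calc v a = (t * g0) *ᵥ v a := by rw [ht', one_mulVec]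
      _ = 0 := by rw [← mulVec_mulVec, h2, mulVec_zero]
  have hmulq : ∀ a c : X, J' a c ≠ 0 → (a : L) * c = algebraMap F L q := by
    intro a c hne
    apply hψinj
    rw [map_mul, AlgHom.commutes]
    have h2 := hrel a c
    apply mul_right_cancel₀ hne
    linear_combination h2
  choose ng hng using hex
  have hngq : ∀ a : X, (a : L) * (ng a : L) = algebraMap F L q := fun a => hmulq a _ (hng a)
  have huniq : ∀ a c : X, (a : L) * c = algebraMap F L q → c = ng a := by
    intro a c h
    apply Subtype.ext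
    exact mul_left_cancel₀ (ha0 a) (h.trans (hngq a).symm)
  have hngng : ∀ a, ng (ng a) = a := by
    intro a
    exact (huniq (ng a) a (by rw [mul_comm]; exact hngq a)).symm
  have hngne : ∀ a, ng a ≠ a := by
    intro a h
    have h2 := hng a
    rw [h] at h2
    exact h2 (self_eq_neg.mp (hskew a a))
  have hJm : Jm ng (fun a => J' a (ng a)) = J' := by
    ext a c
    simp only [Jm, of_apply]
    split_ifs with h
    · rw [h]
    · by_contra hne
      exact h (huniq a c (hmulq a c (Ne.symm hne)))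
  have hq0 : algebraMap F L q ≠ 0 := by
    obtain ⟨a⟩ := hXne
    rw [← hngq a]
    exact mul_ne_zero (ha0 a) (ha0 _)
  set S' : Set (Matrix X X K) := {y | ∃ s ∈ S0, y = Q' * s * Q} with hS'
  have hcancel : ∀ s t : Matrix N N K, Q' * s * Q * (Q' * t * Q) = Q' * (s * t) * Q := by
    intro s t
    calc Q' * s * Q * (Q' * t * Q) = Q' * s * (Q * Q') * t * Q := by simp only [Matrix.mul_assoc]
      _ = Q' * (s * t) * Q := by rw [hQ, Matrix.mul_one]; simp only [Matrix.mul_assoc]
  have hchar : ∀ χ : L → ℚ, IsChar χ → ∀ a : X,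
      χ ((a : L) ^ 2 / algebraMap F L q) = 2 * χ a - χ (algebraMap F L q) := by
    intro χ hχ a
    rw [hχ.div (pow_ne_zero 2 (ha0 a)) hq0, hχ.sq (ha0 a)]
  have hpowmem : ∀ m : ℕ, g0 ^ m ∈ S0 := by
    intro m
    induction m with
    | zero => rw [pow_zero]; exact h1
    | succ m ih => rw [pow_succ]; exact hmul _ ih _ hg0
  refine ⟨{ ng := ng, ng_ng := hngng, ng_ne := hngne, j := fun a => J' a (ng a),
            j_ne := hng, j_ng := ?_, S := S', one := ?_, mul := ?_, inv := ?_, sim := ?_,
            irr := ?_, E := frobSpace P q, anti := ?_, sepE := ?_, tor := ?_ }, rfl, hngq, ha0,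
            hcardX, ?_⟩
  · intro a
    rw [hngng, hskew]
  · exact ⟨1, h1, by rw [Matrix.mul_one, hQ']⟩
  · rintro _ ⟨s, hs, rfl⟩ _ ⟨t, ht, rfl⟩
    exact ⟨s * t, hmul s hs t ht, hcancel s t⟩
  · rintro _ ⟨s, hs, rfl⟩
    obtain ⟨t, ht, hst⟩ := hinv s hs
    exact ⟨Q' * t * Q, ⟨t, ht, rfl⟩, by rw [hcancel, hst, Matrix.mul_one, hQ']⟩
  · rintro _ ⟨s, hs, rfl⟩
    obtain ⟨c, hc⟩ := hsim s hs
    refine ⟨c, ?_⟩
    rw [hJm]
    calc (Q' * s * Q)ᵀ * J' * (Q' * s * Q)
        = Qᵀ * sᵀ * (Q * Q')ᵀ * J * (Q * Q') * s * Q := by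
          rw [hJ', transpose_mul, transpose_mul, transpose_mul]
          simp only [Matrix.mul_assoc]
      _ = Qᵀ * (sᵀ * J * s) * Q := by
          rw [hQ, transpose_one]; simp only [Matrix.mul_assoc, Matrix.mul_one, Matrix.one_mul]
      _ = c • J' := by rw [hc, Matrix.mul_smul, Matrix.smul_mul]
  · intro W hW1 hW2
    have hinj1 : Function.Injective (fun U : Submodule K (X → K) => U.map (toLin' Q)) := by
      refine Submodule.map_injective_of_injective ?_
      intro x y hxy
      have := congrArg (toLin' Q') hxy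
      rwa [← toLin'_mul_apply, ← toLin'_mul_apply, hQ', toLin'_one] at this
    have hinj2 : Function.Injective (fun U : Submodule K (N → K) => U.map (toLin' Q')) := by
      refine Submodule.map_injective_of_injective ?_
      intro x y hxy
      have := congrArg (toLin' Q) hxy
      rwa [← toLin'_mul_apply, ← toLin'_mul_apply, hQ, toLin'_one] at this
    have hback : (W.map (toLin' Q)).map (toLin' Q') = W := by
      rw [← Submodule.map_comp, ← toLin'_mul, hQ', toLin'_one, Submodule.map_id]
    have h2 : W.map (toLin' Q) ≠ ⊥ := by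
      intro h
      apply hW1
      rw [← hback, h, Submodule.map_bot]
    have h3 : W.map (toLin' Q) ≠ ⊤ := by
      intro h
      apply hW2
      rw [← hback, h, eq_top_iff]
      intro x _
      refine Submodule.mem_map.mpr ⟨toLin' Q x, trivial, ?_⟩
      rw [← toLin'_mul_apply, hQ', toLin'_one]; rfl
    have h4 := (hirr _ h2 h3).image (hinj2.injOn)
    refine h4.mono ?_
    rintro _ ⟨_, ⟨s, hs, rfl⟩, rfl⟩
    refine ⟨Q' * s * Q, ⟨s, hs, rfl⟩, ?_⟩
    simp only
    rw [← Submodule.map_comp, ← Submodule.map_comp, ← toLin'_mul, ← toLin'_mul,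
      Matrix.mul_assoc]
  · rintro h ⟨χ, hχ, hh⟩ a
    rw [hh, hh, hchar χ hχ, hchar χ hχ]
    have h2 := hχ _ _ (ha0 a) (ha0 (ng a))
    rw [hngq a] at h2
    linarith
  · intro a c hac
    have hac' : (a : L) / (c : L) ≠ 0 := div_ne_zero (ha0 a) (ha0 c)
    obtain ⟨χ, hχ, hne⟩ := exists_isChar hac' (by
      intro m hm h
      rw [div_pow, div_eq_one_iff_eq (pow_ne_zero m (ha0 c))] at h
      exact hac (Subtype.ext (htor a a.2 c c.2 m hm h)))
    refine ⟨fun a => χ ((a : L) ^ 2 / algebraMap F L q), ⟨χ, hχ, fun _ => rfl⟩, ?_⟩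
    simp only
    rw [hchar χ hχ, hchar χ hχ]
    intro h
    apply hne
    rw [hχ.div (ha0 a) (ha0 c)]
    linarith
  · rintro h ⟨χ, hχ, hh⟩
    refine ⟨((χ (algebraMap F L q) : ℚ) : K), ?_⟩
    have h2 := torus_mem_LL (K := K) (n := X) ψ.toRingHom (S := S')
      (fun a => Units.mk0 (a : L) (ha0 a)) (by
        rintro _ ⟨s, hs, rfl⟩ m
        refine ⟨s * g0 ^ m, hmul s hs _ (hpowmem m), ?_⟩
        rw [← hcancel, hD' m]
        rfl) (hχ.smul 2).toHom
    convert h2 using 1
    ext a c
    by_cases hac : a = c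
    · subst hac
      rw [Matrix.add_apply, diagonal_apply_eq, diagonal_apply_eq, Matrix.smul_apply,
        one_apply_eq, hh, hchar χ hχ]
      simp [IsChar.toHom]
    · rw [Matrix.add_apply, diagonal_apply_ne _ hac, diagonal_apply_ne _ hac, Matrix.smul_apply,
        one_apply_ne hac]
      simp
  · intro hfull x hx
    refine zcl_transfer S0 Q Q' hQ ?_
    refine GD.mem_zcl _ hfull ?_
    show (Q' * x * Q)ᵀ * Jm ng (fun a => J' a (ng a)) * (Q' * x * Q) =
      Jm ng (fun a => J' a (ng a))
    rw [hJm]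
    calc (Q' * x * Q)ᵀ * J' * (Q' * x * Q)
        = Qᵀ * xᵀ * (Q * Q')ᵀ * J * (Q * Q') * x * Q := by
          rw [hJ', transpose_mul, transpose_mul, transpose_mul]
          simp only [Matrix.mul_assoc]
      _ = Qᵀ * (xᵀ * J * x) * Q := by
          rw [hQ, transpose_one]; simp only [Matrix.mul_assoc, Matrix.mul_one, Matrix.one_mul]
      _ = J' := by rw [hx]

end H77MT
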