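import Pool.Agent.Helper77.MT.Refl

/-!
A shortest chain from a weight to its negative consists of an odd number of pairwise orthogonal
roots.
-/

open Matrix

namespace H77MT

namespace Sy

variable {K : Type*} [Field K] {X : Type*} [Fintype X] [DecidableEq X] {C : Sy K X}
variable [CharZero K] [IsAlgClosed K]

/-- The graph of the edges. -/
def gr (C : Sy K X) (hm : C.NoMid) : SimpleGraph X where
  Adj := C.Edge
  symm := ⟨fun _ _ h => h.symm hm⟩
  loopless := ⟨fun _ h => h.1 rfl⟩

lemma gr_adj (hm : C.NoMid) {a b : X} : (gr C hm).Adj a b ↔ C.Edge a b := Iff.rfl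

lemma gr_connected [Nonempty X] (hm : C.NoMid) : (gr C hm).Connected := by
  constructor
  intro u v
  have hA : ∀ a b, C.Edge a b → b ∈ {w | (gr C hm).Reachable v w} →
      a ∈ {w | (gr C hm).Reachable v w} := by
    intro a b hab hb
    have h1 : (gr C hm).Adj b a := hab.symm hm
    exact SimpleGraph.Reachable.trans hb h1.reachable
  exact (C.closed_univ hA (c := v) (SimpleGraph.Reachable.refl v) u).symm

/-- The distance in the graph. -/
noncomputable def ds (C : Sy K X) (hm : C.NoMid) (u v : X) : ℕ := (gr C hm).dist u v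

/-- A nonzero entry of a word of length `m` shows that the distance is at most `m`. -/
lemma ds_le_of_word (hm : C.NoMid) (l : List (Matrix X X K)) (hl : ∀ y ∈ l, y ∈ C.L) {u v : X}
    (h : l.prod u v ≠ 0) : ds C hm u v ≤ l.length := by
  have hne : Nonempty X := ⟨u⟩
  induction l generalizing u with
  | nil =>
    rw [List.prod_nil] at h
    have : u = v := by
      by_contra huv; exact h (one_apply_ne huv)
    subst this
    simp [ds]
  | cons y l ih =>
    rw [List.prod_cons, mul_apply] at h
    obtain ⟨w, _, hw⟩ := Finset.exists_ne_zero_of_sum_ne_zero h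
    have h1 := left_ne_zero_of_mul hw
    have h2 := ih (fun z hz => hl z (List.mem_cons_of_mem _ hz)) (right_ne_zero_of_mul hw)
    rw [List.length_cons]
    by_cases huw : u = w
    · subst huw; omega
    · have h3 : (gr C hm).dist u w = 1 := SimpleGraph.dist_eq_one_iff_adj.mpr
        ⟨huw, y, hl y List.mem_cons_self, h1⟩
      have h4 := (gr_connected hm).dist_triangle (u := u) (v := w) (w := v)
      unfold ds at h2 ⊢
      omega

/-- The effect of reversing a word. -/
lemma word_reverse (l : List (Matrix X X K)) (hl : ∀ y ∈ l, y ∈ C.L) (a b : X) :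
    C.j a * l.prod (C.ng a) b = (-1) ^ (l.length + 1) * (C.j b * l.reverse.prod (C.ng b) a) := by
  induction l generalizing a with
  | nil =>
    rw [List.reverse_nil, List.prod_nil, List.length_nil, zero_add, pow_one]
    by_cases h : C.ng a = b
    · subst h
      rw [one_apply_eq, C.ng_ng, one_apply_eq, C.j_ng]; ring
    · rw [one_apply_ne h, one_apply_ne, mul_zero, mul_zero, mul_zero]
      intro h'; apply h; rw [← h', C.ng_ng]
  | cons y l ih =>
    have hy := hl y List.mem_cons_self
    have ih' := ih (fun z hz => hl z (List.mem_cons_of_mem _ hz))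
    rw [List.prod_cons, List.reverse_cons, List.prod_append, List.prod_cons, List.prod_nil,
      mul_one, mul_apply, mul_apply, List.length_cons, Finset.mul_sum, Finset.mul_sum,
      Finset.mul_sum]
    let e : X ≃ X := ⟨C.ng, C.ng, C.ng_ng, C.ng_ng⟩
    rw [← Equiv.sum_comp e]
    refine Finset.sum_congr rfl fun c _ => ?_
    show C.j a * (y (C.ng a) (C.ng c) * l.prod (C.ng c) b) = _
    have h1 := C.sy y hy a (C.ng c)
    rw [C.ng_ng, C.j_ng] at h1
    have h2 := ih' c
    calc C.j a * (y (C.ng a) (C.ng c) * l.prod (C.ng c) b)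
        = (C.j a * y (C.ng a) (C.ng c)) * l.prod (C.ng c) b := by ring
      _ = - y c a * (C.j c * l.prod (C.ng c) b) := by rw [h1]; ring
      _ = _ := by rw [h2]; ring

/-- At the length equal to the distance the order of the letters does not matter. -/
lemma word_perm (hm : C.NoMid) {u v : X} {l l' : List (Matrix X X K)} (hp : l.Perm l') :
    ∀ pre : List (Matrix X X K), (∀ y ∈ pre ++ l, y ∈ C.L) →
      (pre ++ l).length = ds C hm u v → (pre ++ l).prod u v = (pre ++ l').prod u v := by
  induction hp with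
  | nil => intro pre _ _; rfl
  | cons x _ ih =>
    intro pre h1 h2
    rename_i l1 l2 _
    have e : ∀ l3 : List (Matrix X X K), pre ++ x :: l3 = (pre ++ [x]) ++ l3 := by
      intro l3; simp
    rw [e l1, e l2]
    rw [e l1] at h1 h2
    exact ih _ h1 h2
  | swap x y l =>
    intro pre h1 h2
    have hx : x ∈ C.L := h1 x (by simp)
    have hy : y ∈ C.L := h1 y (by simp)
    have h3 : (pre ++ (y * x - x * y) :: l).prod u v = 0 := by
      by_contra hne
      have := ds_le_of_word hm (pre ++ (y * x - x * y) :: l) (by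
        intro z hz
        rw [List.mem_append, List.mem_cons] at hz
        rcases hz with hz | hz | hz
        · exact h1 z (by simp [hz])
        · rw [hz]; exact C.br y hy x hx
        · exact h1 z (by simp [hz])) hne
      rw [← h2] at this
      simp at this
    have h4 : (pre ++ (y * x - x * y) :: l).prod =
        (pre ++ y :: x :: l).prod - (pre ++ x :: y :: l).prod := by
      simp only [List.prod_append, List.prod_cons]
      noncomm_ring
    rw [h4, Matrix.sub_apply, sub_eq_zero] at h3
    exact h3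
  | trans p1 _ ih1 ih2 =>
    intro pre h1 h2
    rename_i l1 l2 l3 _
    rw [ih1 pre h1 h2]
    refine ih2 pre ?_ ?_
    · intro y hy
      refine h1 y ?_
      rw [List.mem_append] at hy ⊢
      rcases hy with hy | hy
      · exact Or.inl hy
      · exact Or.inr (p1.mem_iff.mpr hy)
    · rw [← h2, List.length_append, List.length_append, p1.length_eq]

open Classical in
/-- A chosen root vector for each edge. -/
noncomputable def rv (C : Sy K X) (hm : C.NoMid) (c : X × X) : Matrix X X K :=
  if h : C.Edge c.1 c.2 then (h.exists_root hm).choose else 0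

lemma rv_root (hm : C.NoMid) {c : X × X} (h : C.Edge c.1 c.2) :
    ∃ f, Root C c.1 c.2 (rv C hm c) f := by
  unfold rv
  rw [dif_pos h]
  exact (h.exists_root hm).choose_spec

lemma rv_mem (hm : C.NoMid) {c : X × X} (h : C.Edge c.1 c.2) : rv C hm c ∈ C.L := by
  obtain ⟨f, hr⟩ := rv_root hm h
  exact hr.emem

lemma exists_word (hm : C.NoMid) {u v : X} (p : (gr C hm).Walk u v) :
    ∃ l : List (X × X), (∀ c ∈ l, C.Edge c.1 c.2) ∧ l.length = p.length ∧
      (l.map (rv C hm)).prod u v ≠ 0 := by
  induction p with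
  | nil => exact ⟨[], by simp, rfl, by rw [List.map_nil, List.prod_nil, one_apply_eq]; exact one_ne_zero⟩
  | cons h p ih =>
    rename_i a b c
    obtain ⟨l, h1, h2, h3⟩ := ih
    obtain ⟨f, hr⟩ := rv_root hm (c := (a, b)) h
    refine ⟨(a, b) :: l, ?_, by simp [h2], ?_⟩
    · intro d hd
      rcases List.mem_cons.mp hd with hd | hd
      · rw [hd]; exact h
      · exact h1 d hd
    · rw [List.map_cons, List.prod_cons, mul_apply, Finset.sum_eq_single b]
      · exact mul_ne_zero (hr.e_ne (C.par_refl a b)) h3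
      · intro k _ hk
        by_contra hne
        exact hk ((hr.e_par (left_ne_zero_of_mul hne)).right_unique (C.par_refl a b))
      · intro hh; exact absurd (Finset.mem_univ _) hh

lemma word_weight (hm : C.NoMid) (l : List (X × X)) (hl : ∀ c ∈ l, C.Edge c.1 c.2) {u v : X}
    (h : (l.map (rv C hm)).prod u v ≠ 0) {t : X → K} (ht : diagonal t ∈ C.L) :
    t u - t v = (l.map fun c => t c.1 - t c.2).sum := by
  induction l generalizing u with
  | nil =>
    rw [List.map_nil, List.prod_nil] at h
    have : u = v := by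
      by_contra huv; exact h (one_apply_ne huv)
    subst this
    simp
  | cons c l ih =>
    rw [List.map_cons, List.prod_cons, mul_apply] at h
    obtain ⟨w, _, hw⟩ := Finset.exists_ne_zero_of_sum_ne_zero h
    obtain ⟨f, hr⟩ := rv_root hm (hl c List.mem_cons_self)
    have h1 := hr.e_par (left_ne_zero_of_mul hw) t ht
    have h2 := ih (fun z hz => hl z (List.mem_cons_of_mem _ hz)) (right_ne_zero_of_mul hw)
    rw [List.map_cons, List.sum_cons, ← h2, h1]
    ring

/-- The data of a shortest chain of roots from `v0` to `ng v0`. -/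
structure Chain (C : Sy K X) (hm : C.NoMid) (v0 : X) (I : Finset (X × X)) : Prop where
  card : I.card = ds C hm (C.ng v0) v0
  odd : Odd I.card
  edge : ∀ c ∈ I, C.Edge c.1 c.2
  bot : ∀ c ∈ I, ∃ v, C.Par c.1 c.2 v v0
  orth : ∀ c ∈ I, ∀ d ∈ I, c ≠ d → co C d.1 d.2 c.1 - co C d.1 d.2 c.2 = 0
  sum : ∀ t : X → K, diagonal t ∈ C.L → ∑ c ∈ I, (t c.1 - t c.2) = -2 * t v0
  two : ∀ c ∈ I, ∀ d ∈ I, c ≠ d → ∃ v, (∀ t : X → K, diagonal t ∈ C.L →
    t v = t v0 + (t c.1 - t c.2) + (t d.1 - t d.2)) ∧
    ds C hm (C.ng v0) v + 2 ≤ ds C hm (C.ng v0) v0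

theorem exists_chain (hm : C.NoMid) (v0 : X) : ∃ I, Chain C hm v0 I := by
  classical
  have hne : Nonempty X := ⟨v0⟩
  obtain ⟨p, hp⟩ := (gr_connected hm).exists_walk_length_eq_dist (C.ng v0) v0
  obtain ⟨l, hl, hlen, hl0⟩ := exists_word hm p
  have hlk : l.length = ds C hm (C.ng v0) v0 := hlen.trans hp
  have hmem : ∀ l' : List (X × X), (∀ c ∈ l', C.Edge c.1 c.2) →
      ∀ y ∈ l'.map (rv C hm), y ∈ C.L := by
    intro l' hl' y hy
    obtain ⟨c, hc, rfl⟩ := List.mem_map.mp hy
    exact rv_mem hm (hl' c hc)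
  -- permutation invariance
  have hperm : ∀ l' : List (X × X), l.Perm l' → (l'.map (rv C hm)).prod (C.ng v0) v0 ≠ 0 := by
    intro l' hp'
    have h1 := word_perm hm (u := C.ng v0) (v := v0) (hp'.map (rv C hm)) []
      (by simpa using hmem l hl) (by simpa using hlk)
    rw [List.nil_append, List.nil_append] at h1
    rwa [← h1]
  have hEp : ∀ l' : List (X × X), l.Perm l' → ∀ c ∈ l', C.Edge c.1 c.2 :=
    fun l' hp' c hc => hl c (hp'.mem_iff.mpr hc)
  -- oddness
  have hodd : Odd l.length := by
    have h1 := word_reverse (C := C) (l.map (rv C hm)) (hmem l hl) v0 v0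
    have h2 := word_perm hm (u := C.ng v0) (v := v0)
      (List.reverse_perm (l.map (rv C hm))).symm [] (by simpa using hmem l hl)
      (by simpa using hlk)
    rw [List.nil_append, List.nil_append] at h2
    rw [← h2, List.length_map] at h1
    rcases Nat.even_or_odd l.length with h3 | h3
    · exfalso
      have h4 : Odd (l.length + 1) := h3.add_one
      rw [h4.neg_one_pow] at h1
      have h5 : C.j v0 * (l.map (rv C hm)).prod (C.ng v0) v0 ≠ 0 := mul_ne_zero (C.j_ne v0) hl0
      apply h5
      have h6 : (2 : K) * (C.j v0 * (l.map (rv C hm)).prod (C.ng v0) v0) = 0 := by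
        linear_combination h1
      exact (mul_eq_zero.mp h6).resolve_left two_ne_zero
    · exact h3
  -- one letter applied first
  have hone : ∀ c ∈ l, ∃ v, C.Par c.1 c.2 v v0 := by
    intro c hc
    have h1 : l.Perm (l.erase c ++ [c]) :=
      (List.perm_cons_erase hc).trans (List.perm_append_comm (l₁ := [c]))
    have h2 := hperm _ h1
    rw [List.map_append, List.prod_append, mul_apply] at h2
    obtain ⟨w, _, hw⟩ := Finset.exists_ne_zero_of_sum_ne_zero h2
    obtain ⟨f, hr⟩ := rv_root hm (hl c hc)
    refine ⟨w, ?_⟩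
    have h3 := right_ne_zero_of_mul hw
    simp only [List.map_cons, List.map_nil, List.prod_cons, List.prod_nil, mul_one] at h3
    exact hr.e_par h3
  -- two letters applied first
  have htwo : ∀ c d : X × X, List.Sublist [c, d] l → ∃ v w, C.Par d.1 d.2 v v0 ∧
      C.Par c.1 c.2 w v ∧ ds C hm (C.ng v0) w + 2 ≤ ds C hm (C.ng v0) v0 := by
    intro c d hs
    obtain ⟨l', hl'⟩ := hs.exists_perm_append
    have h1 : l.Perm (l' ++ [c, d]) := hl'.trans List.perm_append_comm
    have h2 := hperm _ h1
    have hc : C.Edge c.1 c.2 := hEp _ h1 c (by simp)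
    have hd : C.Edge d.1 d.2 := hEp _ h1 d (by simp)
    rw [List.map_append, List.prod_append, mul_apply] at h2
    obtain ⟨w, _, hw⟩ := Finset.exists_ne_zero_of_sum_ne_zero h2
    have h3 := right_ne_zero_of_mul hw
    simp only [List.map_cons, List.map_nil, List.prod_cons, List.prod_nil, mul_one] at h3
    rw [mul_apply] at h3
    obtain ⟨v, _, hv⟩ := Finset.exists_ne_zero_of_sum_ne_zero h3
    obtain ⟨f, hr⟩ := rv_root hm hc
    obtain ⟨f', hr'⟩ := rv_root hm hd
    refine ⟨v, w, hr'.e_par (right_ne_zero_of_mul hv), hr.e_par (left_ne_zero_of_mul hv), ?_⟩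
    have h4 := ds_le_of_word hm (l'.map (rv C hm))
      (hmem l' fun z hz => hEp _ h1 z (List.mem_append_left _ hz)) (left_ne_zero_of_mul hw)
    rw [List.length_map] at h4
    have h5 := h1.length_eq
    rw [List.length_append, hlk] at h5
    simp only [List.length_cons, List.length_nil] at h5
    omega
  -- pairwise relation
  let R : X × X → X × X → Prop := fun c d =>
    co C d.1 d.2 c.1 - co C d.1 d.2 c.2 = 0 ∧ co C c.1 c.2 d.1 - co C c.1 c.2 d.2 = 0 ∧
    ∃ v, (∀ t : X → K, diagonal t ∈ C.L → t v = t v0 + (t c.1 - t c.2) + (t d.1 - t d.2)) ∧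
      ds C hm (C.ng v0) v + 2 ≤ ds C hm (C.ng v0) v0
  have hRsymm : Std.Symm R := by
    constructor
    rintro c d ⟨h1, h2, v, h3, h4⟩
    refine ⟨h2, h1, v, fun t ht => ?_, h4⟩
    rw [h3 t ht]; ring
  have hpw : l.Pairwise R := by
    rw [List.pairwise_iff_forall_sublist]
    intro c d hs
    have hc : c ∈ l := hs.subset (by simp)
    have hd : d ∈ l := hs.subset (by simp)
    have hEc := hl c hc
    have hEd := hl d hd
    obtain ⟨v, w, h1, h2, h3⟩ := htwo c d hs
    -- values of the coroots
    have a1 : co C d.1 d.2 v0 = -1 := co_bot hm hEd.1 h1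
    have a2 : co C c.1 c.2 v = -1 := co_bot hm hEc.1 h2
    obtain ⟨w', hw'⟩ := hone c hc
    have a3 : co C c.1 c.2 v0 = -1 := co_bot hm hEc.1 hw'
    have a4 := co_par hm hEc h1
    have a5 : co C c.1 c.2 d.1 - co C c.1 c.2 d.2 = 0 := by rw [a4, a2, a3]; norm_num
    have a6 : co C d.1 d.2 c.1 - co C d.1 d.2 c.2 = 0 := by
      have h5 := rr_co_symm hm hEc hEd
      rw [a5, mul_zero] at h5
      rcases mul_eq_zero.mp h5 with h6 | h6
      · exact absurd h6 (rr_pos (C := C) c.1 c.2).ne'
      · exact h6
    refine ⟨a6, a5, w, fun t ht => ?_, h3⟩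
    have b1 := h1 t ht
    have b2 := h2 t ht
    linear_combination -b1 - b2
  have hnd : l.Nodup := by
    refine List.Pairwise.imp_of_mem ?_ hpw
    intro c d hc _ hR hcd
    subst hcd
    have := hR.1
    rw [co_self hm (hl c hc).1] at this
    norm_num at this
  have hR' : ∀ c ∈ l, ∀ d ∈ l, c ≠ d → R c d := fun c hc d hd hcd =>
    hpw.forall hc hd hcd
  refine ⟨l.toFinset, ?_, ?_, ?_, ?_, ?_, ?_, ?_⟩
  · rw [List.toFinset_card_of_nodup hnd, hlk]
  · rwa [List.toFinset_card_of_nodup hnd]
  · intro c hc; exact hl c (List.mem_toFinset.mp hc)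
  · intro c hc; exact hone c (List.mem_toFinset.mp hc)
  · intro c hc d hd hcd
    exact (hR' c (List.mem_toFinset.mp hc) d (List.mem_toFinset.mp hd) hcd).1
  · intro t ht
    rw [List.sum_toFinset _ hnd, ← word_weight hm l hl hl0 ht, C.diag_ng ht]
    ring
  · intro c hc d hd hcd
    exact (hR' c (List.mem_toFinset.mp hc) d (List.mem_toFinset.mp hd) hcd).2.2

end Sy

end H77MT
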