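import Mathlib

/-!
Lie algebras of infinitesimally symplectic matrices containing a separating diagonal torus:
homogeneous components, the graph of nonzero entries, and a criterion for being everything.
-/

open Matrix

namespace H77MT

/-- A Lie algebra of matrices, infinitesimally symplectic for the form
`ω (e_a) (e_b) = j a` if `b = ng a` and `0` otherwise, irreducible, and whose diagonal elements
separate the coordinates. -/
structure Sy (K : Type*) [Field K] (X : Type*) [Fintype X] [DecidableEq X] where
  ng : X → X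
  ng_ng : ∀ a, ng (ng a) = a
  ng_ne : ∀ a, ng a ≠ a
  j : X → K
  j_ne : ∀ a, j a ≠ 0
  j_ng : ∀ a, j (ng a) = - j a
  L : Submodule K (Matrix X X K)
  br : ∀ x ∈ L, ∀ y ∈ L, x * y - y * x ∈ L
  sy : ∀ x ∈ L, ∀ a b, j a * x (ng a) b = j b * x (ng b) a
  irr : ∀ W : Submodule K (X → K), (∀ x ∈ L, ∀ v ∈ W, x *ᵥ v ∈ W) → W = ⊥ ∨ W = ⊤
  sep : ∀ a b, a ≠ b → ∃ h : X → K, diagonal h ∈ L ∧ h a ≠ h b

namespace Sy

variable {K : Type*} [Field K] {X : Type*} [Fintype X] [DecidableEq X] (C : Sy K X)

/-- The differences of weights `a - b` and `u - v` agree. -/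
def Par (a b u v : X) : Prop := ∀ h : X → K, diagonal h ∈ C.L → h a - h b = h u - h v

lemma par_refl (a b : X) : C.Par a b a b := fun _ _ => rfl

variable {C} in
lemma Par.symm {a b u v : X} (h : C.Par a b u v) : C.Par u v a b := fun t ht => (h t ht).symm

variable {C} in
lemma Par.trans {a b u v w z : X} (h : C.Par a b u v) (h' : C.Par u v w z) : C.Par a b w z :=
  fun t ht => (h t ht).trans (h' t ht)

variable {C} in
lemma Par.swap {a b u v : X} (h : C.Par a b u v) : C.Par b a v u := fun t ht => by
  have := h t ht
  linear_combination -this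

lemma eq_of_forall {a b : X} (h : ∀ t : X → K, diagonal t ∈ C.L → t a = t b) : a = b := by
  by_contra hab
  obtain ⟨t, ht, hne⟩ := C.sep a b hab
  exact hne (h t ht)

variable {C} in
lemma Par.left_unique {a b u u' v : X} (h : C.Par a b u v) (h' : C.Par a b u' v) : u = u' :=
  C.eq_of_forall fun t ht => by linear_combination h' t ht - h t ht

variable {C} in
lemma Par.right_unique {a b u v v' : X} (h : C.Par a b u v) (h' : C.Par a b u v') : v = v' :=
  C.eq_of_forall fun t ht => by linear_combination h t ht - h' t ht

variable {C} in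
lemma Par.eq_of_eq {a b u : X} (h : C.Par a b u u) : a = b :=
  C.eq_of_forall fun t ht => by linear_combination h t ht

/-- Diagonal elements are odd. -/
lemma diag_ng {h : X → K} (hh : diagonal h ∈ C.L) (a : X) : h (C.ng a) = - h a := by
  have := C.sy _ hh a (C.ng a)
  rw [diagonal_apply_eq, C.ng_ng, diagonal_apply_eq, C.j_ng] at this
  have h2 := C.j_ne a
  apply mul_left_cancel₀ h2
  linear_combination this

variable {C} in
lemma Par.ng {a b u v : X} (h : C.Par a b u v) : C.Par a b (C.ng v) (C.ng u) := fun t ht => by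
  rw [C.diag_ng ht, C.diag_ng ht]
  linear_combination h t ht

lemma poly_mem {x : Matrix X X K} (hx : x ∈ C.L) {h : X → K} (hh : diagonal h ∈ C.L)
    (p : Polynomial K) : (Matrix.of fun u v => p.eval (h u - h v) * x u v) ∈ C.L := by
  induction p using Polynomial.induction_on with
  | C a =>
    have : (Matrix.of fun u v => (Polynomial.C a).eval (h u - h v) * x u v) = a • x := by
      ext u v; simp
    rw [this]
    exact C.L.smul_mem a hx
  | add p q hp hq =>
    have : (Matrix.of fun u v => (p + q).eval (h u - h v) * x u v) =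
        (Matrix.of fun u v => p.eval (h u - h v) * x u v) +
        (Matrix.of fun u v => q.eval (h u - h v) * x u v) := by
      ext u v; simp [add_mul]
    rw [this]
    exact C.L.add_mem hp hq
  | monomial n a hp =>
    have := C.br _ hh _ hp
    convert this using 1
    ext u v
    rw [Matrix.sub_apply, diagonal_mul, mul_diagonal]
    simp only [of_apply, Polynomial.eval_mul, Polynomial.eval_C, Polynomial.eval_pow,
      Polynomial.eval_X]
    ring

open Classical in
/-- The homogeneous component of `x` of weight `a - b`. -/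
noncomputable def cmp (x : Matrix X X K) (a b : X) : Matrix X X K :=
  Matrix.of fun u v => if C.Par a b u v then x u v else 0

lemma cmp_apply_of {x : Matrix X X K} {a b u v : X} (h : C.Par a b u v) :
    C.cmp x a b u v = x u v := by
  simp [cmp, h]

lemma cmp_apply_not {x : Matrix X X K} {a b u v : X} (h : ¬ C.Par a b u v) :
    C.cmp x a b u v = 0 := by
  simp [cmp, h]

lemma par_of_cmp {x : Matrix X X K} {a b u v : X} (h : C.cmp x a b u v ≠ 0) : C.Par a b u v := by
  by_contra hc
  exact h (C.cmp_apply_not hc)

lemma exists_generic [CharZero K] : ∃ h : X → K, diagonal h ∈ C.L ∧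
    ∀ a b u v, h a - h b = h u - h v → C.Par a b u v := by
  classical
  let T : Submodule K (X → K) := C.L.comap (diagonalLinearMap X K K)
  let ι := {p : (X × X) × (X × X) // ¬ C.Par p.1.1 p.1.2 p.2.1 p.2.2}
  let pr : X → Module.Dual K (X → K) := fun u => LinearMap.proj u
  let f : ι → Module.Dual K (X → K) := fun p =>
    pr p.1.1.1 - pr p.1.1.2 - (pr p.1.2.1 - pr p.1.2.2)
  obtain ⟨h, hh, hne⟩ := Module.Dual.exists_forall_mem_ne_zero_of_forall_exists T f (by
    rintro ⟨p, hp⟩
    unfold Par at hp
    push Not at hp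
    obtain ⟨h, hh, hne⟩ := hp
    exact ⟨h, hh, fun h0 => hne (sub_eq_zero.mp h0)⟩)
  refine ⟨h, hh, fun a b u v he => ?_⟩
  by_contra hc
  exact hne ⟨((a, b), (u, v)), hc⟩ (sub_eq_zero.mpr he)

lemma cmp_mem [CharZero K] {x : Matrix X X K} (hx : x ∈ C.L) (a b : X) : C.cmp x a b ∈ C.L := by
  classical
  obtain ⟨h, hh, hgen⟩ := C.exists_generic
  let s : Finset K := (Finset.univ : Finset (X × X)).image fun p => h p.1 - h p.2
  let p : Polynomial K := Lagrange.interpolate s id fun y => if y = h a - h b then 1 else 0
  have hp : ∀ u v, p.eval (h u - h v) = if h u - h v = h a - h b then 1 else 0 := by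
    intro u v
    have := Lagrange.eval_interpolate_at_node (s := s) (v := id)
      (fun y => if y = h a - h b then (1 : K) else 0) (Set.injOn_id _)
      (i := h u - h v) (Finset.mem_image.mpr ⟨(u, v), Finset.mem_univ _, rfl⟩)
    exact this
  have := C.poly_mem hx hh p
  convert this using 1
  ext u v
  rw [of_apply, hp]
  by_cases hP : C.Par a b u v
  · rw [cmp_apply_of C hP, if_pos (hP h hh).symm, one_mul]
  · rw [cmp_apply_not C hP, if_neg, zero_mul]
    exact fun he => hP (hgen a b u v he.symm)

/-- There is an element of `L` with nonzero entry at `(a, b)`. -/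
def Edge (a b : X) : Prop := a ≠ b ∧ ∃ x ∈ C.L, x a b ≠ 0

variable {C} in
lemma Edge.exists_hom [CharZero K] {a b : X} (h : C.Edge a b) : ∃ x ∈ C.L, x a b ≠ 0 ∧
    ∀ u v, x u v ≠ 0 → C.Par a b u v := by
  obtain ⟨_, x, hx, hne⟩ := h
  refine ⟨C.cmp x a b, C.cmp_mem hx a b, ?_, fun u v => C.par_of_cmp⟩
  rwa [C.cmp_apply_of (C.par_refl a b)]

variable {C} in
lemma Edge.ng' {a b : X} (h : C.Edge a b) : C.Edge (C.ng b) (C.ng a) := by
  obtain ⟨hab, x, hx, hne⟩ := h
  refine ⟨fun he => hab ?_, x, hx, fun h0 => hne ?_⟩
  · rw [← C.ng_ng a, ← he, C.ng_ng]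
  · have := C.sy x hx b (C.ng a)
    rw [h0, C.ng_ng, mul_zero] at this
    have h3 := C.j_ne (C.ng a)
    rcases mul_eq_zero.mp this.symm with h4 | h4
    · exact absurd h4 h3
    · exact h4

/-- Sets of coordinates closed under the edges. -/
lemma closed_univ {A : Set X} (hA : ∀ a b, C.Edge a b → b ∈ A → a ∈ A) {c : X} (hc : c ∈ A)
    (a : X) : a ∈ A := by
  let W : Submodule K (X → K) :=
    { carrier := {v | ∀ u, u ∉ A → v u = 0}
      add_mem' := by
        intro v w hv hw u hu
        rw [Pi.add_apply, hv u hu, hw u hu, add_zero]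
      zero_mem' := fun u _ => rfl
      smul_mem' := by
        intro t v hv u hu
        rw [Pi.smul_apply, hv u hu, smul_zero] }
  have hW : ∀ x ∈ C.L, ∀ v ∈ W, x *ᵥ v ∈ W := by
    intro x hx v hv u hu
    rw [Matrix.mulVec, dotProduct]
    refine Finset.sum_eq_zero fun w _ => ?_
    by_cases h1 : x u w = 0
    · rw [h1, zero_mul]
    · by_cases h2 : w ∈ A
      · by_cases h3 : u = w
        · exact absurd (h3 ▸ h2) hu
        · exact absurd (hA u w ⟨h3, x, hx, h1⟩ h2) hu
      · rw [hv w h2, mul_zero]
  rcases C.irr W hW with h | h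
  · have : (Pi.single c (1 : K) : X → K) ∈ W := by
      intro u hu
      rw [Pi.single_eq_of_ne]
      rintro rfl
      exact hu hc
    rw [h, Submodule.mem_bot] at this
    have h1 := congrFun this c
    rw [Pi.single_eq_same] at h1
    exact absurd h1 one_ne_zero
  · by_contra ha
    have : (Pi.single a (1 : K) : X → K) ∈ W := by rw [h]; trivial
    have h1 := this a ha
    rw [Pi.single_eq_same] at h1
    exact one_ne_zero h1

section Full

variable [CharZero K]

/-- In the situation where all classes have at most two elements every pair is an edge. -/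
lemma edge_of_small (hcl : ∀ a b, a ≠ b → ∀ u v, C.Par a b u v →
    (u = a ∧ v = b) ∨ (u = C.ng b ∧ v = C.ng a)) {a b : X} (hab : a ≠ b) : C.Edge a b := by
  let A : Set X := {a | a = b ∨ C.Edge a b}
  have hA : ∀ c a, C.Edge c a → a ∈ A → c ∈ A := by
    intro c a hca ha
    by_cases hcb : c = b
    · exact Or.inl hcb
    right
    rcases ha with ha | ha
    · rwa [ha] at hca
    have hca' := hca.1
    have hab' := ha.1
    obtain ⟨x, hx, hxne, hxp⟩ := ha.exists_hom
    obtain ⟨y, hy, hyne, hyp⟩ := hca.exists_hom
    refine ⟨hcb, y * x - x * y, C.br y hy x hx, ?_⟩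
    have e1 : (y * x) c b = y c a * x a b := by
      rw [mul_apply, Finset.sum_eq_single a]
      · intro k _ hk
        by_cases h : x k b = 0
        · rw [h, mul_zero]
        · exact absurd ((hxp k b h).left_unique (C.par_refl a b)) hk
      · intro h; exact absurd (Finset.mem_univ _) h
    rw [Matrix.sub_apply, e1]
    by_cases hc : c = C.ng b
    · have e2 : (x * y) c b = x c (C.ng a) * y (C.ng a) b := by
        rw [mul_apply, Finset.sum_eq_single (C.ng a)]
        · intro k _ hk
          by_cases h : x c k = 0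
          · rw [h, zero_mul]
          · rcases hcl a b hab' c k (hxp c k h) with h1 | h1
            · exact absurd h1.1 hca'
            · exact absurd h1.2 hk
        · intro h; exact absurd (Finset.mem_univ _) h
      have s1 := C.sy x hx b (C.ng a)
      rw [C.ng_ng, C.j_ng, ← hc] at s1
      have s2 := C.sy y hy a b
      rw [← hc] at s2
      have e3 : x c (C.ng a) * y (C.ng a) b = - (y c a * x a b) := by
        have ja := C.j_ne a
        have jb := C.j_ne b
        have h1 : x c (C.ng a) = - (C.j a * x a b) / C.j b := by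
          rw [eq_div_iff jb]; linear_combination s1
        have h2 : y (C.ng a) b = C.j b * y c a / C.j a := by
          rw [eq_div_iff ja]; linear_combination s2
        rw [h1, h2]
        field_simp
      rw [e2, e3, sub_neg_eq_add, ← two_mul]
      exact mul_ne_zero two_ne_zero (mul_ne_zero hyne hxne)
    · have e2 : (x * y) c b = 0 := by
        rw [mul_apply]
        refine Finset.sum_eq_zero fun k _ => ?_
        by_cases h : x c k = 0
        · rw [h, zero_mul]
        · rcases hcl a b hab' c k (hxp c k h) with h1 | h1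
          · exact absurd h1.1 hca'
          · exact absurd h1.1 hc
      rw [e2, sub_zero]
      exact mul_ne_zero hyne hxne
  rcases C.closed_univ hA (c := b) (Or.inl rfl) a with h | h
  · exact absurd h hab
  · exact h

/-- If all classes have at most two elements, then `L` consists of all infinitesimally symplectic
matrices. -/
theorem full_of_small (hcl : ∀ a b, a ≠ b → ∀ u v, C.Par a b u v →
    (u = a ∧ v = b) ∨ (u = C.ng b ∧ v = C.ng a)) {Y : Matrix X X K}
    (hY : ∀ a b, C.j a * Y (C.ng a) b = C.j b * Y (C.ng b) a) : Y ∈ C.L := by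
  have hE : ∀ {a b : X}, a ≠ b → C.Edge a b := fun h => C.edge_of_small hcl h
  -- elementary diagonal elements
  have hdiag : ∀ u, diagonal (Pi.single u (1 : K) - Pi.single (C.ng u) 1 : X → K) ∈ C.L := by
    intro u
    obtain ⟨x, hx, hxne, hxp⟩ := (hE (C.ng_ne u).symm).exists_hom
    obtain ⟨y, hy, hyne, hyp⟩ := (hE (C.ng_ne u)).exists_hom
    have hx0 : x = single u (C.ng u) (x u (C.ng u)) := by
      ext p q
      rw [single_apply]
      split_ifs with h
      · rw [← h.1, ← h.2]
      · by_contra hne
        rcases hcl _ _ (C.ng_ne u).symm p q (hxp p q hne) with h1 | h1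
        · exact h ⟨h1.1.symm, h1.2.symm⟩
        · rw [C.ng_ng] at h1; exact h ⟨h1.1.symm, h1.2.symm⟩
    have hy0 : y = single (C.ng u) u (y (C.ng u) u) := by
      ext p q
      rw [single_apply]
      split_ifs with h
      · rw [← h.1, ← h.2]
      · by_contra hne
        rcases hcl _ _ (C.ng_ne u) p q (hyp p q hne) with h1 | h1
        · exact h ⟨h1.1.symm, h1.2.symm⟩
        · rw [C.ng_ng] at h1; exact h ⟨h1.1.symm, h1.2.symm⟩
    have hbr := C.br x hx y hy
    have hbr' := C.L.smul_mem (x u (C.ng u) * y (C.ng u) u)⁻¹ hbr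
    convert hbr' using 1
    rw [hx0, hy0, single_mul_single_same, single_mul_single_same]
    ext p q
    simp only [Matrix.smul_apply, Matrix.sub_apply, single_apply, smul_eq_mul, true_and, and_self, if_true]
    by_cases hpq : p = q
    · subst hpq
      rw [diagonal_apply_eq, Pi.sub_apply, Pi.single_apply, Pi.single_apply]
      have h1 : u = p ∧ u = p ↔ p = u := ⟨fun h => h.1.symm, fun h => ⟨h.symm, h.symm⟩⟩
      have h2 : C.ng u = p ∧ C.ng u = p ↔ p = C.ng u := ⟨fun h => h.1.symm, fun h => ⟨h.symm, h.symm⟩⟩
      simp only [h1, h2]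
      split_ifs with h3 h4 <;> field_simp <;> simp
    · rw [diagonal_apply_ne _ hpq, if_neg, if_neg, sub_zero, mul_zero]
      · rintro ⟨h1, h2⟩; exact hpq (h1.symm.trans h2)
      · rintro ⟨h1, h2⟩; exact hpq (h1.symm.trans h2)
  -- the two-term pieces
  have hpiece : ∀ a b, single a b (Y a b) + single (C.ng b) (C.ng a) (Y (C.ng b) (C.ng a)) ∈ C.L := by
    intro a b
    have hYn : Y (C.ng b) (C.ng a) = - (C.j a / C.j b) * Y a b := by
      have := hY b (C.ng a)
      rw [C.ng_ng, C.j_ng] at this
      have jb := C.j_ne b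
      field_simp
      linear_combination this
    by_cases hab : a = b
    · subst hab
      have h1 := C.L.smul_mem (Y a a) (hdiag a)
      convert h1 using 1
      rw [hYn, div_self (C.j_ne a)]
      ext p q
      simp only [Matrix.add_apply, single_apply, Matrix.smul_apply, smul_eq_mul]
      by_cases hpq : p = q
      · subst hpq
        rw [diagonal_apply_eq, Pi.sub_apply, Pi.single_apply, Pi.single_apply]
        have h1 : a = p ∧ a = p ↔ p = a := ⟨fun h => h.1.symm, fun h => ⟨h.symm, h.symm⟩⟩
        have h2 : C.ng a = p ∧ C.ng a = p ↔ p = C.ng a :=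
          ⟨fun h => h.1.symm, fun h => ⟨h.symm, h.symm⟩⟩
        simp only [h1, h2]
        split_ifs <;> ring
      · rw [diagonal_apply_ne _ hpq, if_neg, if_neg, add_zero, mul_zero]
        · rintro ⟨h1, h2⟩; exact hpq (h1.symm.trans h2)
        · rintro ⟨h1, h2⟩; exact hpq (h1.symm.trans h2)
    · obtain ⟨x, hx, hxne, hxp⟩ := (hE hab).exists_hom
      have hxn : x (C.ng b) (C.ng a) = - (C.j a / C.j b) * x a b := by
        have := C.sy x hx b (C.ng a)
        rw [C.ng_ng, C.j_ng] at this
        have jb := C.j_ne b
        field_simp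
        linear_combination this
      by_cases hb : b = C.ng a
      · -- self paired
        have hna : C.ng b = a := by rw [hb, C.ng_ng]
        have h1 := C.L.smul_mem (2 * (Y a b / x a b)) hx
        convert h1 using 1
        rw [hna, ← hb]
        ext p q
        simp only [Matrix.add_apply, single_apply, Matrix.smul_apply, smul_eq_mul]
        split_ifs with h
        · rw [← h.1, ← h.2]; field_simp; ring
        · by_contra hne
          rw [add_zero] at hne
          have hne' : x p q ≠ 0 := fun h0 => hne (by rw [h0, mul_zero])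
          rcases hcl _ _ hab p q (hxp p q hne') with h1 | h1
          · exact h ⟨h1.1.symm, h1.2.symm⟩
          · rw [hna, ← hb] at h1; exact h ⟨h1.1.symm, h1.2.symm⟩
      · have hne2 : ¬ (C.ng b = a ∧ C.ng a = b) := fun h => hb h.2.symm
        have h1 := C.L.smul_mem (Y a b / x a b) hx
        convert h1 using 1
        ext p q
        simp only [Matrix.add_apply, single_apply, Matrix.smul_apply, smul_eq_mul]
        by_cases h : a = p ∧ b = q
        · rw [if_pos h, if_neg, ← h.1, ← h.2, add_zero]
          · field_simp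
          · rintro ⟨h2, h3⟩; exact hne2 ⟨h2.trans h.1.symm, h3.trans h.2.symm⟩
        · rw [if_neg h, zero_add]
          split_ifs with h2
          · rw [← h2.1, ← h2.2, hxn, hYn]; field_simp
          · by_contra hne
            have hne' : x p q ≠ 0 := fun h0 => hne (by rw [h0, mul_zero])
            rcases hcl _ _ hab p q (hxp p q hne') with h1 | h1
            · exact h ⟨h1.1.symm, h1.2.symm⟩
            · exact h2 ⟨h1.1.symm, h1.2.symm⟩
  have hsum : (2 : K) • Y = ∑ a, ∑ b,
      (single a b (Y a b) + single (C.ng b) (C.ng a) (Y (C.ng b) (C.ng a))) := by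
    simp_rw [Finset.sum_add_distrib]
    have e1 : ∑ a, ∑ b, single a b (Y a b) = Y := (matrix_eq_sum_single Y).symm
    have e2 : ∑ a, ∑ b, single (C.ng b) (C.ng a) (Y (C.ng b) (C.ng a)) = Y := by
      let e : X ≃ X := ⟨C.ng, C.ng, C.ng_ng, C.ng_ng⟩
      rw [Finset.sum_comm]
      conv_rhs => rw [← e1]
      rw [← Equiv.sum_comp e (fun p => ∑ q, single p q (Y p q))]
      refine Finset.sum_congr rfl fun p _ => ?_
      exact Equiv.sum_comp e (fun q => single (e p) q (Y (e p) q))
    rw [e1, e2, two_smul]
  have h2 : (2 : K) • Y ∈ C.L := by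
    rw [hsum]
    exact C.L.sum_mem fun a _ => C.L.sum_mem fun b _ => hpiece a b
  have h3 := C.L.smul_mem (2 : K)⁻¹ h2
  rwa [smul_smul, inv_mul_cancel₀ two_ne_zero, one_smul] at h3

end Full

end Sy

end H77MT
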