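import Pool.Agent.Helper77.MT.Zar
import Pool.Agent.Helper77.MT.Lie
import Pool.Agent.Helper21.MT.Transv

/-!
From a group of symplectic similitudes to the Lie algebra of `Lie.lean` and back.
-/

open Matrix

namespace H77MT

variable {K : Type*} [Field K] {X : Type*} [Fintype X] [DecidableEq X]

/-- The matrix of the form. -/
def Jm (ng : X → X) (j : X → K) : Matrix X X K := Matrix.of fun a b => if b = ng a then j a else 0

lemma Jm_mul (ng : X → X) (j : X → K) (Y : Matrix X X K) (a b : X) :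
    (Jm ng j * Y) a b = j a * Y (ng a) b := by
  rw [mul_apply, Finset.sum_eq_single (ng a)]
  · simp [Jm]
  · intro c _ hc; simp [Jm, hc]
  · intro h; exact absurd (Finset.mem_univ _) h

/-- The data of a strongly irreducible group of symplectic similitudes in a basis of eigenvectors
of a semisimple element. -/
structure GD (K : Type*) [Field K] (X : Type*) [Fintype X] [DecidableEq X] [CharZero K] where
  ng : X → X
  ng_ng : ∀ a, ng (ng a) = a
  ng_ne : ∀ a, ng a ≠ a
  j : X → K
  j_ne : ∀ a, j a ≠ 0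
  j_ng : ∀ a, j (ng a) = - j a
  S : Set (Matrix X X K)
  one : 1 ∈ S
  mul : ∀ s ∈ S, ∀ t ∈ S, s * t ∈ S
  inv : ∀ s ∈ S, ∃ t ∈ S, s * t = 1
  sim : ∀ s ∈ S, ∃ c : K, sᵀ * Jm ng j * s = c • Jm ng j
  irr : ∀ W : Submodule K (X → K), W ≠ ⊥ → W ≠ ⊤ →
    {U : Submodule K (X → K) | ∃ s ∈ S, U = W.map (toLin' s)}.Infinite
  E : Submodule ℚ (X → ℚ)
  anti : ∀ h ∈ E, ∀ a, h (ng a) = - h a
  sepE : ∀ a b, a ≠ b → ∃ h ∈ E, h a ≠ h b
  tor : ∀ h ∈ E, ∃ c : K, diagonal (fun a => ((h a : ℚ) : K)) + c • 1 ∈ LL S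

namespace GD

variable [CharZero K] (G : GD K X)

/-- The symplectic Lie algebra. -/
def sp : Submodule K (Matrix X X K) where
  carrier := {Y | ∀ a b, G.j a * Y (G.ng a) b = G.j b * Y (G.ng b) a}
  add_mem' := by
    intro Y Z hY hZ a b
    rw [Matrix.add_apply, Matrix.add_apply, mul_add, mul_add, hY a b, hZ a b]
  zero_mem' := by intro a b; simp
  smul_mem' := by
    intro c Y hY a b
    rw [Matrix.smul_apply, Matrix.smul_apply, smul_eq_mul, smul_eq_mul, mul_left_comm, hY a b,
      mul_left_comm]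

lemma mem_sp {Y : Matrix X X K} : Y ∈ G.sp ↔ (Jm G.ng G.j * Y)ᵀ = Jm G.ng G.j * Y := by
  constructor
  · intro h
    ext a b
    rw [transpose_apply, Jm_mul, Jm_mul]
    exact h b a
  · intro h a b
    rw [← Jm_mul, ← Jm_mul, ← transpose_apply (Jm G.ng G.j * Y), h]

lemma Jm_transpose : (Jm G.ng G.j)ᵀ = - Jm G.ng G.j := by
  ext a b
  rw [transpose_apply, Matrix.neg_apply]
  simp only [Jm, of_apply]
  by_cases h : a = G.ng b
  · have h' : b = G.ng a := by rw [h, G.ng_ng]
    rw [if_pos h, if_pos h', h, G.j_ng, neg_neg]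
  · have h' : ¬ b = G.ng a := fun h' => h (by rw [h', G.ng_ng])
    rw [if_neg h, if_neg h', neg_zero]

lemma sp_bracket {Y Z : Matrix X X K} (hY : Y ∈ G.sp) (hZ : Z ∈ G.sp) :
    Y * Z - Z * Y ∈ G.sp := by
  rw [mem_sp] at *
  have hJ := G.Jm_transpose
  have e1 : Yᵀ * Jm G.ng G.j = - (Jm G.ng G.j * Y) := by
    rw [transpose_mul, hJ, mul_neg] at hY
    rw [← hY, neg_neg]
  have e2 : Zᵀ * Jm G.ng G.j = - (Jm G.ng G.j * Z) := by
    rw [transpose_mul, hJ, mul_neg] at hZ
    rw [← hZ, neg_neg]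
  rw [transpose_mul, transpose_sub, transpose_mul, transpose_mul, hJ, mul_neg, sub_mul,
    Matrix.mul_assoc, Matrix.mul_assoc, e1, e2, mul_neg, mul_neg, ← Matrix.mul_assoc,
    ← Matrix.mul_assoc, e1, e2, mul_sub]
  simp only [neg_mul, neg_neg, neg_sub, Matrix.mul_assoc]

lemma Jm_inv : ∃ J' : Matrix X X K, Jm G.ng G.j * J' = 1 := by
  refine ⟨Matrix.of fun a b => if a = G.ng b then (G.j b)⁻¹ else 0, ?_⟩
  ext a b
  rw [Jm_mul, of_apply]
  by_cases h : a = b
  · subst h
    rw [if_pos rfl, one_apply_eq, mul_inv_cancel₀ (G.j_ne a)]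
  · rw [if_neg, mul_zero, one_apply_ne h]
    intro h'
    exact h (by rw [← G.ng_ng a, h', G.ng_ng])

lemma sp_conj {Y s t : Matrix X X K} (hY : Y ∈ G.sp) (hs : s ∈ G.S) (hst : s * t = 1) :
    t * Y * s ∈ G.sp := by
  obtain ⟨c, hc⟩ := G.sim s hs
  have hts : t * s = 1 := mul_eq_one_comm.mp hst
  rcases isEmpty_or_nonempty X with hX | ⟨⟨x0⟩⟩
  · rw [mem_sp]; ext a; exact hX.elim a
  have hc0 : c ≠ 0 := by
    rintro rfl
    rw [zero_smul] at hc
    obtain ⟨J', hJ'⟩ := G.Jm_inv
    have h1 : tᵀ * (sᵀ * Jm G.ng G.j * s) * t * J' = 1 := by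
      rw [← Matrix.mul_assoc, ← Matrix.mul_assoc, ← transpose_mul, hst, transpose_one,
        Matrix.one_mul, Matrix.mul_assoc _ s t, hst, Matrix.mul_one, hJ']
    rw [hc] at h1
    simp only [mul_zero, zero_mul] at h1
    have h2 := congrFun (congrFun h1 x0) x0
    rw [one_apply_eq] at h2
    exact one_ne_zero h2.symm
  rw [mem_sp] at *
  have e1 : Jm G.ng G.j * t = c⁻¹ • (sᵀ * Jm G.ng G.j) := by
    rw [eq_inv_smul_iff₀ hc0, ← smul_mul_assoc, ← hc, Matrix.mul_assoc _ s t, hst,
      Matrix.mul_one]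
  have e2 : Jm G.ng G.j * (t * Y * s) = c⁻¹ • (sᵀ * (Jm G.ng G.j * Y) * s) := by
    rw [← Matrix.mul_assoc, ← Matrix.mul_assoc, e1, smul_mul_assoc, smul_mul_assoc,
      Matrix.mul_assoc sᵀ]
  rw [e2, transpose_smul, transpose_mul, transpose_mul, hY, transpose_transpose]
  simp only [Matrix.mul_assoc]

/-- The Lie algebra `L₀`. -/
noncomputable def L0 : Submodule K (Matrix X X K) where
  carrier := {Y | Y ∈ G.sp ∧ ∃ c : K, Y + c • 1 ∈ LL G.S}
  add_mem' := by
    rintro Y Z ⟨h1, c, hc⟩ ⟨h2, d, hd⟩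
    refine ⟨G.sp.add_mem h1 h2, c + d, ?_⟩
    have := (LL G.S).add_mem hc hd
    convert this using 1
    rw [add_smul]; abel
  zero_mem' := ⟨G.sp.zero_mem, 0, by simpa using (LL G.S).zero_mem⟩
  smul_mem' := by
    rintro r Y ⟨h1, c, hc⟩
    refine ⟨G.sp.smul_mem r h1, r * c, ?_⟩
    have := (LL G.S).smul_mem r hc
    convert this using 1
    rw [smul_add, smul_smul]

lemma L0_bracket {Y Z : Matrix X X K} (hY : Y ∈ G.L0) (hZ : Z ∈ G.L0) :
    Y * Z - Z * Y ∈ LL G.S := by
  obtain ⟨_, c, hc⟩ := hY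
  obtain ⟨_, d, hd⟩ := hZ
  have := LL_bracket hc hd
  convert this using 1
  simp only [add_mul, mul_add, smul_mul_assoc, mul_smul_comm, one_mul, mul_one]
  module

lemma L0_conj {Y s t : Matrix X X K} (hY : Y ∈ G.L0) (hs : s ∈ G.S) (ht : t ∈ G.S)
    (hst : s * t = 1) : t * Y * s ∈ G.L0 := by
  obtain ⟨h1, c, hc⟩ := hY
  refine ⟨G.sp_conj h1 hs hst, c, ?_⟩
  have h2 := LL_conj G.mul hc hs ht hst
  have hts : t * s = 1 := mul_eq_one_comm.mp hst
  convert h2 using 1
  rw [mul_add, add_mul, mul_smul_comm, Matrix.mul_one, smul_mul_assoc, hts]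

lemma diag_mem_L0 {h : X → ℚ} (hh : h ∈ G.E) : diagonal (fun a => ((h a : ℚ) : K)) ∈ G.L0 := by
  refine ⟨fun a b => ?_, G.tor h hh⟩
  by_cases hab : b = G.ng a
  · subst hab
    rw [G.ng_ng, diagonal_apply_eq, diagonal_apply_eq, G.j_ng, G.anti h hh]
    push_cast; ring
  · rw [diagonal_apply_ne, diagonal_apply_ne, mul_zero, mul_zero]
    · intro h'; exact hab (by rw [← h', G.ng_ng])
    · intro h'; exact hab h'.symm

lemma exists_sep : ∃ h ∈ G.E, Function.Injective h := by
  classical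
  let ι := {p : X × X // p.1 ≠ p.2}
  let pr : X → Module.Dual ℚ (X → ℚ) := fun u => LinearMap.proj u
  obtain ⟨h, hh, hne⟩ := Module.Dual.exists_forall_mem_ne_zero_of_forall_exists G.E
    (fun p : ι => pr p.1.1 - pr p.1.2) (by
      rintro ⟨p, hp⟩
      obtain ⟨h, hh, hne⟩ := G.sepE p.1 p.2 hp
      exact ⟨h, hh, sub_ne_zero.mpr hne⟩)
  refine ⟨h, hh, fun a b hab => ?_⟩
  by_contra hne'
  exact hne ⟨(a, b), hne'⟩ (sub_eq_zero.mpr hab)

/-- Stable subspaces are spanned by coordinate vectors. -/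
lemma coord {W : Submodule K (X → K)} (hW : ∀ x ∈ G.L0, ∀ v ∈ W, x *ᵥ v ∈ W) {v : X → K}
    (hv : v ∈ W) (a : X) : Pi.single a (v a) ∈ W := by
  classical
  obtain ⟨h, hh, hinj⟩ := G.exists_sep
  have hD := G.diag_mem_L0 hh
  have hpoly : ∀ p : Polynomial K, (fun b => p.eval ((h b : ℚ) : K) * v b) ∈ W := by
    intro p
    induction p using Polynomial.induction_on with
    | C c =>
      have : (fun b => (Polynomial.C c).eval ((h b : ℚ) : K) * v b) = c • v := by
        ext b; simp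
      rw [this]; exact W.smul_mem c hv
    | add p q hp hq =>
      have : (fun b => (p + q).eval ((h b : ℚ) : K) * v b) =
          (fun b => p.eval ((h b : ℚ) : K) * v b) + fun b => q.eval ((h b : ℚ) : K) * v b := by
        ext b; simp [add_mul]
      rw [this]; exact W.add_mem hp hq
    | monomial n c hp =>
      have := hW _ hD _ hp
      convert this using 1
      ext b
      rw [mulVec_diagonal]
      simp only [Polynomial.eval_mul, Polynomial.eval_C, Polynomial.eval_pow, Polynomial.eval_X]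
      ring
  let s : Finset K := (Finset.univ : Finset X).image fun b => ((h b : ℚ) : K)
  let p : Polynomial K := Lagrange.interpolate s id fun y => if y = ((h a : ℚ) : K) then 1 else 0
  have hp : ∀ b, p.eval ((h b : ℚ) : K) = if ((h b : ℚ) : K) = ((h a : ℚ) : K) then 1 else 0 := by
    intro b
    exact Lagrange.eval_interpolate_at_node (s := s) (v := id)
      (fun y => if y = ((h a : ℚ) : K) then (1 : K) else 0) (Set.injOn_id _)
      (i := ((h b : ℚ) : K)) (Finset.mem_image.mpr ⟨b, Finset.mem_univ _, rfl⟩)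
  have := hpoly p
  convert this using 1
  ext b
  rw [hp]
  by_cases hb : b = a
  · subst hb; simp
  · rw [Pi.single_eq_of_ne hb, if_neg, zero_mul]
    intro h'
    exact hb (hinj (by exact_mod_cast h'))

lemma eq_of_coord {W W' : Submodule K (X → K)} (hW : ∀ x ∈ G.L0, ∀ v ∈ W, x *ᵥ v ∈ W)
    (hW' : ∀ x ∈ G.L0, ∀ v ∈ W', x *ᵥ v ∈ W')
    (h : {a | (Pi.single a (1 : K) : X → K) ∈ W} = {a | (Pi.single a (1 : K) : X → K) ∈ W'}) :
    W = W' := by
  have key : ∀ {W W' : Submodule K (X → K)}, (∀ x ∈ G.L0, ∀ v ∈ W, x *ᵥ v ∈ W) →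
      {a | (Pi.single a (1 : K) : X → K) ∈ W} = {a | (Pi.single a (1 : K) : X → K) ∈ W'} →
      W ≤ W' := by
    intro W W' hW h v hv
    have e : v = ∑ a, Pi.single a (v a) := by
      ext b
      rw [Finset.sum_apply, Finset.sum_eq_single b]
      · simp
      · intro a _ hab; rw [Pi.single_eq_of_ne hab.symm]
      · intro h; exact absurd (Finset.mem_univ _) h
    rw [e]
    refine W'.sum_mem fun a _ => ?_
    by_cases h0 : v a = 0
    · rw [h0]; simp
    · have h1 := G.coord hW hv a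
      have h2 : (Pi.single a (1 : K) : X → K) ∈ W := by
        have := W.smul_mem (v a)⁻¹ h1
        rwa [← Pi.single_smul', smul_eq_mul, inv_mul_cancel₀ h0] at this
      have h3 : a ∈ {a | (Pi.single a (1 : K) : X → K) ∈ W'} := by rw [← h]; exact h2
      have h4 := W'.smul_mem (v a) h3
      rwa [← Pi.single_smul', smul_eq_mul, mul_one] at h4
  exact le_antisymm (key hW h) (key hW' h.symm)

/-- The Lie algebra attached to the group. -/
noncomputable def toSy : Sy K X where
  ng := G.ng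
  ng_ng := G.ng_ng
  ng_ne := G.ng_ne
  j := G.j
  j_ne := G.j_ne
  j_ng := G.j_ng
  L := G.L0
  br := fun x hx y hy => ⟨G.sp_bracket hx.1 hy.1, 0, by simpa using G.L0_bracket hx hy⟩
  sy := fun x hx => hx.1
  irr := by
    intro W hW
    by_contra hcon
    push Not at hcon
    refine G.irr W hcon.1 hcon.2 ?_
    apply Set.Finite.of_finite_image (f := fun U : Submodule K (X → K) =>
      {a | (Pi.single a (1 : K) : X → K) ∈ U}) (Set.toFinite _)
    have hst : ∀ s ∈ G.S, ∀ x ∈ G.L0, ∀ v ∈ W.map (toLin' s), x *ᵥ v ∈ W.map (toLin' s) := by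
      intro s hs x hx v hv
      obtain ⟨w, hw, rfl⟩ := Submodule.mem_map.mp hv
      obtain ⟨t, ht, hst⟩ := G.inv s hs
      have hts : t * s = 1 := mul_eq_one_comm.mp hst
      refine Submodule.mem_map.mpr ⟨(t * x * s) *ᵥ w, hW _ ?_ w hw, ?_⟩
      · exact G.L0_conj hx hs ht hst
      · rw [toLin'_apply, toLin'_apply, mulVec_mulVec, mulVec_mulVec]
        congr 1
        rw [← Matrix.mul_assoc, ← Matrix.mul_assoc, hst, Matrix.one_mul]
    rintro U ⟨s, hs, rfl⟩ U' ⟨s', hs', rfl⟩ h
    exact G.eq_of_coord (hst s hs) (hst s' hs') h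
  sep := by
    intro a b hab
    obtain ⟨h, hh, hne⟩ := G.sepE a b hab
    exact ⟨_, G.diag_mem_L0 hh, fun h' => hne (by exact_mod_cast h')⟩

/-- If `L₀` is everything then the Zariski closure contains the symplectic group. -/
theorem mem_zcl (hfull : ∀ Y ∈ G.sp, Y ∈ G.L0) {x : Matrix X X K}
    (hx : xᵀ * Jm G.ng G.j * x = Jm G.ng G.j) : x ∈ zcl G.S := by
  let ω : LinearMap.BilinForm K (X → K) := Matrix.toBilin' (Jm G.ng G.j)
  have hω : ∀ v w, ω v w = v ⬝ᵥ (Jm G.ng G.j *ᵥ w) := fun v w => Matrix.toBilin'_apply' _ _ _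
  obtain ⟨J', hJ'⟩ := G.Jm_inv
  have hdet : (Jm G.ng G.j).det ≠ 0 := by
    intro h0
    have := congrArg det hJ'
    rw [det_mul, h0, zero_mul, det_one] at this
    exact zero_ne_one this
  have hnd : ω.Nondegenerate :=
    LinearMap.BilinForm.nondegenerate_toBilin'_of_det_ne_zero' _ hdet
  have hskew : ∀ v w, ω v w = - ω w v := by
    intro v w
    rw [hω, hω, dotProduct_mulVec, ← transpose_transpose (Jm G.ng G.j), vecMul_transpose,
      G.Jm_transpose, transpose_neg, G.Jm_transpose, neg_mulVec, neg_dotProduct,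
      dotProduct_comm, neg_neg]
  have halt : ω.IsAlt := by
    intro v
    have := hskew v v
    exact self_eq_neg.mp this
  have hsp : ∀ z : Module.End K (X → K), (∀ v w, ω v (z w) = ω w (z v)) →
      LinearMap.toMatrix' z ∈ G.sp := by
    intro z hz
    have hent : ∀ a b, (Jm G.ng G.j * LinearMap.toMatrix' z) a b =
        ω (Pi.single a 1) (z (Pi.single b 1)) := by
      intro a b
      rw [hω]
      have h1 : z (Pi.single b 1) = LinearMap.toMatrix' z *ᵥ Pi.single b 1 := by
        rw [← toLin'_apply, toLin'_toMatrix']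
      rw [h1, mulVec_mulVec, mulVec_single_one, single_one_dotProduct, col_apply]
    rw [mem_sp]
    ext a b
    rw [transpose_apply, hent, hent, hz]
  have hTTsp : ∀ u, LinearMap.toMatrix' (MTP.TT ω u) ∈ G.sp := by
    intro u
    apply hsp
    intro v w
    rw [MTP.TT_apply, MTP.TT_apply, map_smul, map_smul, smul_eq_mul, smul_eq_mul, hskew v u,
      hskew w u]
    ring
  have hBBsp : ∀ u v, LinearMap.toMatrix' (MTP.BB ω u v) ∈ G.sp := by
    intro u v
    apply hsp
    intro x w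
    simp only [MTP.BB_apply, map_add, map_smul, smul_eq_mul]
    rw [hskew x u, hskew x v, hskew w u, hskew w v]
    ring
  have hTTLL : ∀ u, LinearMap.toMatrix' (MTP.TT ω u) ∈ LL G.S := by
    intro u
    by_cases hu : u = 0
    · have : MTP.TT ω u = 0 := by
        apply LinearMap.ext
        intro z
        rw [MTP.TT_apply, hu]; simp
      rw [this, map_zero]
      exact (LL G.S).zero_mem
    · obtain ⟨v, hv⟩ : ∃ v, ω u v ≠ 0 := by
        by_contra hcon
        push Not at hcon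
        exact hu (hnd.1 u hcon)
      have h1 := G.L0_bracket (hfull _ (hBBsp u v)) (hfull _ (hTTsp u))
      rw [← LinearMap.toMatrix'_mul, ← LinearMap.toMatrix'_mul, ← map_sub] at h1
      have h2 : MTP.BB ω u v * MTP.TT ω u - MTP.TT ω u * MTP.BB ω u v =
          (-2 * ω u v) • MTP.TT ω u := by
        apply LinearMap.ext
        intro z
        simp only [LinearMap.sub_apply, Module.End.mul_apply, LinearMap.smul_apply, MTP.BB_apply,
          MTP.TT_apply, map_add, map_smul, smul_eq_mul]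
        rw [halt.self_eq_zero u, hskew v u]
        module
      rw [h2, map_smul] at h1
      have h3 := (LL G.S).smul_mem (-2 * ω u v)⁻¹ h1
      rwa [smul_smul, inv_mul_cancel₀ (mul_ne_zero (by norm_num) hv), one_smul] at h3
  let M : Submonoid (Module.End K (X → K)) :=
    { carrier := {g | LinearMap.toMatrix' g ∈ zcl G.S}
      one_mem' := by
        show LinearMap.toMatrix' (1 : Module.End K (X → K)) ∈ zcl G.S
        rw [LinearMap.toMatrix'_one]
        exact subset_zcl _ G.one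
      mul_mem' := by
        intro a b ha hb
        show LinearMap.toMatrix' (a * b) ∈ zcl G.S
        rw [LinearMap.toMatrix'_mul]
        exact zcl_mul G.mul ha hb }
  have hM : ∀ (c : K) (u : X → K), 1 + c • MTP.TT ω u ∈ M := by
    intro c u
    show LinearMap.toMatrix' (1 + c • MTP.TT ω u) ∈ zcl G.S
    rw [map_add, map_smul, LinearMap.toMatrix'_one]
    refine one_add_mem_zcl G.one (hTTLL u) ?_ c
    rw [← LinearMap.toMatrix'_mul, MTP.TT_sq halt, map_zero]
  have := MTP.sp_mem_of_transvections hnd halt M hM (g := toLin' x) (by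
    intro v w
    rw [hω, hω, toLin'_apply, toLin'_apply, mulVec_mulVec, ← vecMul_transpose,
      ← dotProduct_mulVec, mulVec_mulVec, ← Matrix.mul_assoc, hx])
  have h3 : LinearMap.toMatrix' (toLin' x) ∈ zcl G.S := this
  rwa [LinearMap.toMatrix'_toLin'] at h3

end GD

end H77MT
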