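import Pool.Agent.Helper77.MT.Odd

/-!
The mod 4 criterion: an integral diagonal element with `2 f` odd eigenvalues, `f` odd,
`4 f ≠ dim V`.
-/

open Matrix

namespace H77MT

namespace Sy

variable {K : Type*} [Field K] {X : Type*} [Fintype X] [DecidableEq X] {C : Sy K X}

lemma rr_par {a b u v : X} (h : C.Par a b u v) : rr C a b = rr C u v := by
  classical
  unfold rr
  refine Finset.sum_congr rfl fun x _ => Finset.sum_congr rfl fun y _ => ?_
  have : C.Par a b x y ↔ C.Par u v x y := ⟨fun h' => h.symm.trans h', fun h' => h.trans h'⟩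
  simp only [this]

open Classical in
lemma rr_count (u v : X) :
    (∑ a, ∑ b, if C.Par a b u v then (1 : ℤ) else 0) = rr C u v := by
  unfold rr
  refine Finset.sum_congr rfl fun x _ => Finset.sum_congr rfl fun y _ => ?_
  have : C.Par x y u v ↔ C.Par u v x y := ⟨fun h' => h'.symm, fun h' => h'.symm⟩
  simp only [this]

variable [CharZero K] [IsAlgClosed K]

open Classical in
/-- The Laplacian of a diagonal element of `L` belongs to `L`. -/
lemma lap_mem (hm : C.NoMid) {t : X → K} (ht : diagonal t ∈ C.L) :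
    diagonal (fun u => ∑ v ∈ nb C u, (t u - t v)) ∈ C.L := by
  -- weights
  let w : X → X → K := fun a b =>
    if C.Edge a b then ((rr C a b : ℤ) : K)⁻¹ * (t a - t b) else 0
  have hsum : ∀ u v, (∑ a, ∑ b, if C.Par a b u v then w a b else 0) =
      if C.Edge u v then t u - t v else 0 := by
    intro u v
    by_cases hE : C.Edge u v
    · rw [if_pos hE]
      have h1 : ∀ a b, (if C.Par a b u v then w a b else 0) =
          (((rr C u v : ℤ) : K)⁻¹ * (t u - t v)) *
            ((if C.Par a b u v then (1 : ℤ) else 0 : ℤ) : K) := by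
        intro a b
        by_cases hp : C.Par a b u v
        · rw [if_pos hp, if_pos hp]
          have hE' : C.Edge a b := hE.of_par hm hp.symm
          simp only [w]
          rw [if_pos hE', rr_par hp, hp t ht]
          push_cast; ring
        · rw [if_neg hp, if_neg hp]; push_cast; ring
      simp_rw [h1]
      simp_rw [← Finset.mul_sum]
      have h2 := rr_count (C := C) u v
      have h3 : (∑ a, ∑ b, ((if C.Par a b u v then (1 : ℤ) else 0 : ℤ) : K)) =
          ((rr C u v : ℤ) : K) := by
        rw [← h2]; push_cast; rfl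
      rw [h3]
      have h4 : ((rr C u v : ℤ) : K) ≠ 0 := by exact_mod_cast (rr_pos (C := C) u v).ne'
      field_simp
    · rw [if_neg hE]
      refine Finset.sum_eq_zero fun a _ => Finset.sum_eq_zero fun b _ => ?_
      by_cases hp : C.Par a b u v
      · rw [if_pos hp]
        simp only [w]
        rw [if_neg]
        exact fun hE' => hE (hE'.of_par hm hp)
      · rw [if_neg hp]
  have hmem : (2 : K)⁻¹ • ∑ a, ∑ b, (w a b) • diagonal (fun u => ((co C a b u : ℤ) : K)) ∈ C.L := by
    refine C.L.smul_mem _ (C.L.sum_mem fun a _ => C.L.sum_mem fun b _ => ?_)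
    by_cases hE : C.Edge a b
    · exact C.L.smul_mem _ (co_mem hm hE)
    · have : w a b = 0 := by simp [w, hE]
      rw [this, zero_smul]
      exact C.L.zero_mem
  convert hmem using 1
  have e1 : ∀ (f : X → X → K) (g : X → X → X → K),
      (∑ a, ∑ b, f a b • diagonal (g a b)) = diagonal (fun u => ∑ a, ∑ b, f a b * g a b u) := by
    intro f g
    ext p r
    rw [Matrix.sum_apply]
    simp_rw [Matrix.sum_apply, Matrix.smul_apply]
    by_cases hpr : p = r
    · subst hpr
      simp only [diagonal_apply_eq, smul_eq_mul]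
    · simp only [diagonal_apply_ne _ hpr, smul_zero, Finset.sum_const_zero]
  rw [e1, ← diagonal_smul]
  congr 1
  ext u
  rw [Pi.smul_apply, smul_eq_mul]
  have e2 : (∑ a, ∑ b, w a b * ((co C a b u : ℤ) : K)) =
      (∑ v, ∑ a, ∑ b, if C.Par a b u v then w a b else 0) -
      ∑ v, ∑ a, ∑ b, if C.Par a b v u then w a b else 0 := by
    have e3 : ∀ a b, w a b * ((co C a b u : ℤ) : K) =
        (∑ v, if C.Par a b u v then w a b else 0) - ∑ v, if C.Par a b v u then w a b else 0 := by
      intro a b
      rw [co_cast, mul_sub, Finset.mul_sum, Finset.mul_sum]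
      simp only [mul_ite, mul_one, mul_zero]
    simp_rw [e3]
    simp_rw [Finset.sum_sub_distrib]
    have e4 : ∀ F' : X → X → X → K, (∑ a, ∑ b, ∑ v, F' a b v) = ∑ v, ∑ a, ∑ b, F' a b v := by
      intro F'
      rw [Finset.sum_congr rfl fun a _ => Finset.sum_comm, Finset.sum_comm]
    rw [e4 (fun a b v => if C.Par a b u v then w a b else 0),
      e4 (fun a b v => if C.Par a b v u then w a b else 0)]
  rw [e2]
  simp_rw [hsum]
  have e5 : (∑ v, if C.Edge u v then t u - t v else 0) = ∑ v ∈ nb C u, (t u - t v) := by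
    unfold nb
    rw [Finset.sum_filter]
    refine Finset.sum_congr rfl fun v _ => ?_
    have : C.Edge u v ↔ C.Edge v u := ⟨fun h => h.symm hm, fun h => h.symm hm⟩
    simp only [this]
  have e6 : (∑ v, if C.Edge v u then t v - t u else 0) = - ∑ v ∈ nb C u, (t u - t v) := by
    unfold nb
    rw [Finset.sum_filter, ← Finset.sum_neg_distrib]
    refine Finset.sum_congr rfl fun v _ => ?_
    split_ifs <;> ring
  rw [e5, e6, sub_neg_eq_add, ← two_mul, ← mul_assoc, inv_mul_cancel₀ two_ne_zero, one_mul]

/-- The eigenvalue of the Laplacian on the coroot of `(a, b)`. -/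
noncomputable def kap (C : Sy K X) (a b : X) : ℤ := ∑ v ∈ nb C a, (1 - co C a b v)

/-- Coroots are eigenvectors of the Laplacian. -/
lemma lap_co (hm : C.NoMid) {a b : X} (hE : C.Edge a b) (u : X) :
    ∑ v ∈ nb C u, (co C a b u - co C a b v) = kap C a b * co C a b u := by
  classical
  set T : X → K := fun u => ∑ v ∈ nb C u, (((co C a b u : ℤ) : K) - ((co C a b v : ℤ) : K)) with hT
  have hTmem : diagonal T ∈ C.L := lap_mem hm (co_mem hm hE)
  -- antisymmetry under the reflection
  have hanti : ∀ u w, Rf C a b u w → T w = - T u := by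
    intro u w huw
    have hex : ∀ x, ∃ y, Rf C a b x y := exists_rf hm hE.1
    choose f hf using hex
    have hfu : f u = w := (hf u).unique huw
    have hff : ∀ x, f (f x) = x := fun x => (hf (f x)).unique ((hf x).symm hm hE)
    have hco : ∀ x, co C a b (f x) = - co C a b x := fun x => (hf x).co_eq hm hE
    have himg : nb C w = (nb C u).image f := by
      ext y
      rw [Finset.mem_image, mem_nb]
      constructor
      · intro hy
        refine ⟨f y, ?_, hff y⟩
        rw [mem_nb]
        have := hE.refl hm hy (hf y) (hf w)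
        rwa [← hfu, hff] at this
      · rintro ⟨x, hx, rfl⟩
        rw [mem_nb] at hx
        have := hE.refl hm hx (hf x) (hf u)
        rwa [hfu] at this
    rw [hT]
    simp only
    rw [himg, Finset.sum_image, ← Finset.sum_neg_distrib]
    · refine Finset.sum_congr rfl fun x _ => ?_
      rw [hco, ← hfu, hco]; push_cast; ring
    · intro x _ y _ hxy
      have := congrArg f hxy
      rwa [hff, hff] at this
  have hform : ∀ u, T u = ((co C a b u : ℤ) : K) * ((T a - T b) / 2) := by
    intro u
    obtain ⟨w, hw⟩ := exists_rf hm hE.1 u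
    have h1 := hw T hTmem
    rw [hanti u w hw] at h1
    linear_combination (-1 / 2 : K) * h1
  have hTa : T a = (T a - T b) / 2 := by
    have := hform a
    rwa [co_top hm hE.1 (C.par_refl a b), Int.cast_one, one_mul] at this
  have hkap : ((kap C a b : ℤ) : K) = T a := by
    rw [hT]
    unfold kap
    push_cast
    rw [co_top hm hE.1 (C.par_refl a b)]
    push_cast
    rfl
  have h2 : ((∑ v ∈ nb C u, (co C a b u - co C a b v) : ℤ) : K) =
      ((kap C a b * co C a b u : ℤ) : K) := by
    push_cast
    rw [hkap, hTa, mul_comm]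
    exact hform u
  exact_mod_cast h2

/-- Non-orthogonal coroots have the same eigenvalue. -/
lemma kap_orth (hm : C.NoMid) {a b c d : X} (hE : C.Edge a b) (hE' : C.Edge c d)
    (hne : kap C a b ≠ kap C c d) : co C a b c - co C a b d = 0 := by
  classical
  have hs : ∀ f g : X → ℤ, ∑ u, f u * ∑ v ∈ nb C u, (g u - g v) =
      (∑ u, f u * g u * (nb C u).card) - ∑ u, ∑ v ∈ nb C u, f u * g v := by
    intro f g
    rw [← Finset.sum_sub_distrib]
    refine Finset.sum_congr rfl fun u _ => ?_
    rw [Finset.sum_sub_distrib, Finset.sum_const, nsmul_eq_mul, mul_sub, Finset.mul_sum]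
    ring
  have hsym : ∀ f g : X → ℤ, (∑ u, ∑ v ∈ nb C u, f u * g v) = ∑ u, ∑ v ∈ nb C u, g u * f v := by
    intro f g
    rw [Finset.sum_comm' (t' := Finset.univ) (s' := fun v => nb C v)]
    · exact Finset.sum_congr rfl fun u _ => Finset.sum_congr rfl fun v _ => mul_comm _ _
    · intro x y
      simp only [Finset.mem_univ, true_and, and_true, mem_nb]
      exact ⟨fun h => h.symm hm, fun h => h.symm hm⟩
  have h1 : ∑ u, co C c d u * (kap C a b * co C a b u) =
      ∑ u, co C a b u * (kap C c d * co C c d u) := by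
    have e1 : ∀ u, co C c d u * (kap C a b * co C a b u) =
        co C c d u * ∑ v ∈ nb C u, (co C a b u - co C a b v) := fun u => by rw [lap_co hm hE]
    have e2 : ∀ u, co C a b u * (kap C c d * co C c d u) =
        co C a b u * ∑ v ∈ nb C u, (co C c d u - co C c d v) := fun u => by rw [lap_co hm hE']
    simp_rw [e1, e2]
    rw [hs, hs, hsym (co C c d) (co C a b)]
    congr 1
    exact Finset.sum_congr rfl fun u _ => by ring
  have h2 : (kap C a b - kap C c d) * ∑ u, co C a b u * co C c d u = 0 := by
    rw [sub_mul, Finset.mul_sum, Finset.mul_sum, ← Finset.sum_sub_distrib]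
    rw [← sub_eq_zero, ← Finset.sum_sub_distrib] at h1
    rw [← h1]
    exact Finset.sum_congr rfl fun u _ => by ring
  have h3 : ∑ u, co C a b u * co C c d u = 0 := by
    rcases mul_eq_zero.mp h2 with h | h
    · exact absurd (sub_eq_zero.mp h) hne
    · exact h
  have h4 := sum_co C c d (co_mem hm hE)
  have h5 : ((∑ u, co C a b u * co C c d u : ℤ) : K) =
      ((rr C c d * (co C a b c - co C a b d) : ℤ) : K) := by
    push_cast
    exact h4
  rw [h3] at h5
  have h6 : (0 : ℤ) = rr C c d * (co C a b c - co C a b d) := by exact_mod_cast h5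
  rcases mul_eq_zero.mp h6.symm with h | h
  · exact absurd h (rr_pos (C := C) c d).ne'
  · exact h

/-- The coroots separate the weights. -/
lemma co_sep (hm : C.NoMid) {u v : X} (h : ∀ a b, C.Edge a b → co C a b v = co C a b u) :
    v = u := by
  obtain ⟨I, hI⟩ := exists_chain hm u
  obtain ⟨θ, hθ⟩ := exists_theta hm hI
  refine hm v u (θ v) fun t ht => ?_
  rw [hθ.val v t ht]
  have h1 : ∑ c ∈ I, ((co C c.1 c.2 v : ℤ) : K) * (t c.1 - t c.2) = 2 * t u := by
    have h2 := hI.sum t ht
    have h3 : ∑ c ∈ I, ((co C c.1 c.2 v : ℤ) : K) * (t c.1 - t c.2) =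
        - ∑ c ∈ I, (t c.1 - t c.2) := by
      rw [← Finset.sum_neg_distrib]
      refine Finset.sum_congr rfl fun c hc => ?_
      rw [h _ _ (hI.edge c hc), hθ.co0 c hc]; push_cast; ring
    rw [h3, h2]; ring
  rw [h1]; ring

/-- The sum of the differences over the neighbours of the starting point of a chain. -/
lemma chain_lap (hm : C.NoMid) {v0 : X} {I : Finset (X × X)} (hI : Chain C hm v0 I) {θ : X → X}
    (hθ : Theta C v0 I θ) {t : X → K} (ht : diagonal t ∈ C.L) :
    2 * ∑ v ∈ nb C v0, (t v - t v0) =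
      ∑ c ∈ I, ((kap C c.1 c.2 : ℤ) : K) * (t c.1 - t c.2) := by
  classical
  have hk : ∀ c ∈ I, kap C c.1 c.2 = ∑ v ∈ nb C v0, (co C c.1 c.2 v + 1) := by
    intro c hc
    have h1 := lap_co hm (hI.edge c hc) v0
    rw [hθ.co0 c hc] at h1
    have h2 : ∑ v ∈ nb C v0, (co C c.1 c.2 v + 1) =
        - ∑ v ∈ nb C v0, (-1 - co C c.1 c.2 v) := by
      rw [← Finset.sum_neg_distrib]
      exact Finset.sum_congr rfl fun v _ => by ring
    rw [h2, h1]; ring
  have hbij : ∑ v ∈ nb C v0, t (θ v) = ∑ v ∈ nb C v0, t v := by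
    refine Finset.sum_nbij' θ θ hθ.nb hθ.nb (fun v _ => hθ.inv v) (fun v _ => hθ.inv v) ?_
    intro v _; rfl
  have h1 : 2 * ∑ v ∈ nb C v0, t v = ∑ c ∈ I, ∑ v ∈ nb C v0,
      ((co C c.1 c.2 v : ℤ) : K) * (t c.1 - t c.2) := by
    rw [Finset.sum_comm, two_mul]
    nth_rewrite 1 [← hbij]
    rw [← Finset.sum_add_distrib]
    refine Finset.sum_congr rfl fun v _ => ?_
    rw [hθ.val v t ht]; ring
  have h2 := hI.sum t ht
  rw [Finset.sum_sub_distrib, mul_sub, h1, Finset.sum_const, nsmul_eq_mul]
  have h3 : ∑ c ∈ I, ((kap C c.1 c.2 : ℤ) : K) * (t c.1 - t c.2) =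
      (∑ c ∈ I, ∑ v ∈ nb C v0, ((co C c.1 c.2 v : ℤ) : K) * (t c.1 - t c.2)) +
        ((nb C v0).card : K) * ∑ c ∈ I, (t c.1 - t c.2) := by
    rw [Finset.mul_sum, ← Finset.sum_add_distrib]
    refine Finset.sum_congr rfl fun c hc => ?_
    rw [hk c hc]
    push_cast
    rw [Finset.sum_add_distrib, Finset.sum_const, nsmul_eq_mul, mul_one, add_mul, Finset.sum_mul]
  rw [h3, h2]; ring

/-- The eigenvalues attached to the elements of a chain are even. -/
lemma kap_even (hm : C.NoMid) {v0 : X} {I : Finset (X × X)} (hI : Chain C hm v0 I) {θ : X → X}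
    (hθ : Theta C v0 I θ) {c : X × X} (hc : c ∈ I) : Even (kap C c.1 c.2) := by
  classical
  have hk : kap C c.1 c.2 = ∑ v ∈ nb C v0, (co C c.1 c.2 v + 1) := by
    have h1 := lap_co hm (hI.edge c hc) v0
    rw [hθ.co0 c hc] at h1
    have h2 : ∑ v ∈ nb C v0, (co C c.1 c.2 v + 1) =
        - ∑ v ∈ nb C v0, (-1 - co C c.1 c.2 v) := by
      rw [← Finset.sum_neg_distrib]
      exact Finset.sum_congr rfl fun v _ => by ring
    rw [h2, h1]; ring
  have h1 : ((kap C c.1 c.2 : ℤ) : ZMod 2) = 0 := by
    rw [hk]
    push_cast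
    apply Finset.sum_involution (fun v _ => θ v)
    · intro v _
      rw [hθ.coθ v c hc]
      exact CharTwo.add_self_eq_zero _
    · intro v hv hne hfix
      apply hne
      obtain ⟨d, hd, hp⟩ := hθ.fix v hv hfix
      have := (hθ.step d hd v hp).2.2 c hc
      rw [this]
      split_ifs
      · norm_num; decide
      · norm_num
    · intro v hv; exact hθ.nb v hv
    · intro v _; exact hθ.inv v
  exact (ZMod.intCast_zmod_eq_zero_iff_dvd _ 2).mp h1 |> even_iff_two_dvd.mpr

/-- The factor attached to an edge. -/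
noncomputable def sg (C : Sy K X) (a b : X) : ℤ := if kap C a b % 4 = 2 then -1 else 1

/-- `w` is obtained from `u` by negating the part where `kap` is `2` modulo `4`. -/
def Mu (C : Sy K X) (u w : X) : Prop := ∀ a b, C.Edge a b → co C a b w = sg C a b * co C a b u

lemma Mu.unique (hm : C.NoMid) {u w w' : X} (h : Mu C u w) (h' : Mu C u w') : w = w' :=
  co_sep hm fun a b hE => by rw [h a b hE, h' a b hE]

lemma Mu.symm (hm : C.NoMid) {u w : X} (h : Mu C u w) : Mu C w u := by
  intro a b hE
  rw [h a b hE, ← mul_assoc]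
  have : sg C a b * sg C a b = 1 := by unfold sg; split_ifs <;> norm_num
  rw [this, one_mul]

lemma exists_mu (hm : C.NoMid) (u : X) : ∃ w, Mu C u w ∧ ∀ y : X → ℤ,
    diagonal (fun a => ((y a : ℤ) : K)) ∈ C.L →
      (2 : ℤ) ∣ (∑ v ∈ nb C u, (y v - y u)) - (y w - y u) := by
  classical
  obtain ⟨I, hI⟩ := exists_chain hm u
  obtain ⟨θ, hθ⟩ := exists_theta hm hI
  set I2 := I.filter fun c => kap C c.1 c.2 % 4 = 2 with hI2
  have hsub : I2 ⊆ I := Finset.filter_subset _ _
  obtain ⟨h1, _⟩ := sr_exists hm I2 (fun c hc => hI.edge c (hsub hc))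
    (fun c hc d hd h => hI.orth c (hsub hc) d (hsub hd) h)
  obtain ⟨w, hw⟩ := h1 u
  have hw' : ∀ t : X → K, diagonal t ∈ C.L → t w = t u + ∑ c ∈ I2, (t c.1 - t c.2) := by
    intro t ht
    rw [hw t ht, sub_eq_add_neg, ← Finset.sum_neg_distrib]
    congr 1
    refine Finset.sum_congr rfl fun c hc => ?_
    rw [hθ.co0 c (hsub hc)]; push_cast; ring
  have hint : ∀ y : X → ℤ, diagonal (fun a => ((y a : ℤ) : K)) ∈ C.L →
      y w = y u + ∑ c ∈ I2, (y c.1 - y c.2) := by
    intro y hy
    have := hw' _ hy
    exact_mod_cast this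
  have hsumI : ∀ y : X → ℤ, diagonal (fun a => ((y a : ℤ) : K)) ∈ C.L →
      ∑ c ∈ I, (y c.1 - y c.2) = -2 * y u := by
    intro y hy
    have := hI.sum _ hy
    exact_mod_cast this
  refine ⟨w, ?_, ?_⟩
  · intro a b hE
    have h2 := hint _ (co_mem hm hE)
    have h3 := hsumI _ (co_mem hm hE)
    unfold sg
    split_ifs with hk
    · have h4 : ∑ c ∈ I2, (co C a b c.1 - co C a b c.2) =
          ∑ c ∈ I, (co C a b c.1 - co C a b c.2) := by
        refine Finset.sum_subset hsub fun c hc hc2 => ?_
        refine kap_orth hm hE (hI.edge c hc) fun h => hc2 ?_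
        rw [hI2, Finset.mem_filter]
        exact ⟨hc, by rw [← h]; exact hk⟩
      rw [h2, h4, h3]; ring
    · have h4 : ∑ c ∈ I2, (co C a b c.1 - co C a b c.2) = 0 := by
        refine Finset.sum_eq_zero fun c hc => ?_
        rw [hI2, Finset.mem_filter] at hc
        refine kap_orth hm hE (hI.edge c hc.1) fun h => hk ?_
        rw [h]; exact hc.2
      rw [h2, h4]; ring
  · intro y hy
    have h2 := chain_lap hm hI hθ hy
    have h3 : 2 * ∑ v ∈ nb C u, (y v - y u) = ∑ c ∈ I, kap C c.1 c.2 * (y c.1 - y c.2) := by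
      exact_mod_cast h2
    have h4 : (4 : ℤ) ∣ (∑ c ∈ I, kap C c.1 c.2 * (y c.1 - y c.2)) -
        2 * ∑ c ∈ I2, (y c.1 - y c.2) := by
      have h5 : (∑ c ∈ I, kap C c.1 c.2 * (y c.1 - y c.2)) -
          2 * ∑ c ∈ I2, (y c.1 - y c.2) =
          ∑ c ∈ I, (kap C c.1 c.2 - if kap C c.1 c.2 % 4 = 2 then 2 else 0) *
            (y c.1 - y c.2) := by
        rw [hI2, Finset.sum_filter, Finset.mul_sum, ← Finset.sum_sub_distrib]
        refine Finset.sum_congr rfl fun c _ => ?_
        split_ifs <;> ring
      rw [h5]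
      refine Finset.dvd_sum fun c hc => Dvd.dvd.mul_right ?_ _
      obtain ⟨k, hk⟩ := kap_even hm hI hθ hc
      split_ifs with h <;> omega
    rw [hint y hy]
    obtain ⟨k, hk⟩ := h4
    refine ⟨k, ?_⟩
    omega

/-- The parity of `y u - y (μ u)` is constant along edges. -/
lemma mu_parity (hm : C.NoMid) {y : X → ℤ} (hy : diagonal (fun a => ((y a : ℤ) : K)) ∈ C.L)
    {u v u' v' : X} (hE : C.Edge u v) (hu : Mu C u u') (hv : Mu C v v') :
    Even (y u - y u') ↔ Even (y v - y v') := by
  obtain ⟨w, hw⟩ := exists_rf hm hE.1 u'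
  have hcu := hu u v hE
  rw [co_top hm hE.1 (C.par_refl u v), mul_one] at hcu
  have hyw : y w = y u' - co C u v u' * (y u - y v) := by
    have := hw _ hy
    exact_mod_cast this
  have hMu : Mu C v w := by
    intro a b hab
    have h1 := hw.co_other hm hab
    rw [h1, hu a b hab, hcu]
    by_cases hk : kap C a b = kap C u v
    · have : sg C a b = sg C u v := by unfold sg; rw [hk]
      rw [this]
      unfold sg
      split_ifs <;> ring
    · have h2 := kap_orth hm hab hE hk
      rw [h2, mul_zero, sub_zero]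
      have : co C a b u = co C a b v := by linarith
      rw [this]
  have hwv : w = v' := hMu.unique hm hv
  rw [← hwv, hyw, hcu]
  unfold sg
  split_ifs
  · have : y v - (y u' - -1 * (y u - y v)) = (y u - y u') + 2 * (y v - y u) := by ring
    rw [this, Int.even_add]
    simp
  · have : y v - (y u' - 1 * (y u - y v)) = y u - y u' := by ring
    rw [this]

/-- **The mod 4 criterion.** -/
theorem exists_self_edge_mod4 (hm : C.NoMid) {y : X → ℤ}
    (hy : diagonal (fun a => ((y a : ℤ) : K)) ∈ C.L) {f : ℕ} (hf : Odd f)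
    (hO : (Finset.univ.filter fun a => Odd (y a)).card = 2 * f)
    (hX : Fintype.card X ≠ 4 * f) : ∃ u, C.Edge (C.ng u) u := by
  classical
  by_contra hcon
  push Not at hcon
  have hyng : ∀ a, y (C.ng a) = - y a := by
    intro a
    have := C.diag_ng hy a
    exact_mod_cast this
  set O := Finset.univ.filter fun a => Odd (y a) with hOdef
  have hmemO : ∀ a, a ∈ O ↔ Odd (y a) := fun a => by simp [hOdef]
  clear_value O
  have hOng : ∀ a, a ∈ O → C.ng a ∈ O := by
    intro a ha
    rw [hmemO] at ha ⊢
    rw [hyng]; exact ha.neg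
  have hne : O.Nonempty := by
    rw [← Finset.card_pos, hO]
    have := hf.pos
    omega
  obtain ⟨u0, hu0⟩ := hne
  have hmu := exists_mu (C := C) hm
  choose μ hμ1 hμ2 using hmu
  have hμμ : ∀ u, μ (μ u) = u := fun u => (hμ1 (μ u)).unique hm ((hμ1 u).symm hm)
  by_cases hz : Even (y u0 - y (μ u0))
  · -- all cross degrees are even
    have hzall : ∀ u, Even (y u - y (μ u)) := by
      have hA : ∀ a b, C.Edge a b → b ∈ {u | Even (y u - y (μ u))} →
          a ∈ {u | Even (y u - y (μ u))} := fun a b hab hb =>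
        (mu_parity hm hy hab (hμ1 a) (hμ1 b)).mpr hb
      exact fun u => C.closed_univ hA (c := u0) hz u
    have hcross : ∀ u ∈ O, Even ((nb C u).filter fun v => v ∉ O).card := by
      intro u hu
      have h1 := hμ2 u y hy
      have h2 : Even (∑ v ∈ nb C u, (y v - y u)) := by
        have h3 := hzall u
        rw [even_iff_two_dvd] at h3 ⊢
        have h4 := dvd_add h1 (dvd_neg.mpr h3)
        have h5 : (∑ v ∈ nb C u, (y v - y u)) - (y (μ u) - y u) + -(y u - y (μ u)) =
          ∑ v ∈ nb C u, (y v - y u) := by ring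
        rwa [h5] at h4
      have h3 : (((∑ v ∈ nb C u, (y v - y u)) : ℤ) : ZMod 2) =
          (((nb C u).filter fun v => v ∉ O).card : ZMod 2) := by
        have e0 : ∀ z : ℤ, Odd z → ((z : ℤ) : ZMod 2) = 1 := by
          intro z hz
          obtain ⟨k, hk⟩ := hz
          rw [hk]; push_cast
          have : (2 : ZMod 2) = 0 := rfl
          rw [this, zero_mul, zero_add]
        rw [hmemO] at hu
        rw [Finset.card_filter, Int.cast_sum, Nat.cast_sum]
        refine Finset.sum_congr rfl fun v _ => ?_
        by_cases hvO : v ∈ O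
        · rw [if_neg (not_not.mpr hvO)]
          rw [hmemO] at hvO
          rw [Int.cast_sub, e0 _ hvO, e0 _ hu]; rfl
        · rw [if_pos hvO]
          rw [hmemO, Int.not_odd_iff_even] at hvO
          have e1 : ((y v : ℤ) : ZMod 2) = 0 := (ZMod.intCast_zmod_eq_zero_iff_dvd _ 2).mpr
            (even_iff_two_dvd.mp hvO)
          rw [Int.cast_sub, e1, e0 _ hu]; rfl
      have h4 : (((∑ v ∈ nb C u, (y v - y u)) : ℤ) : ZMod 2) = 0 :=
        (ZMod.intCast_zmod_eq_zero_iff_dvd _ 2).mpr (even_iff_two_dvd.mp h2)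
      rw [h4] at h3
      exact (ZMod.natCast_eq_zero_iff_even).mp h3.symm
    -- representatives
    let e := Fintype.equivFin X
    set R := O.filter fun a => e a < e (C.ng a) with hR
    have hRmem : ∀ a, a ∈ O → (a ∈ R ↔ ¬ C.ng a ∈ R) := by
      intro a ha
      rw [hR, Finset.mem_filter, Finset.mem_filter, C.ng_ng]
      have h0 : e a ≠ e (C.ng a) := fun h => C.ng_ne a (e.injective h).symm
      constructor
      · rintro ⟨_, h⟩ ⟨_, h'⟩; exact lt_asymm h h'
      · intro h
        refine ⟨ha, ?_⟩
        rcases lt_or_gt_of_ne h0 with h1 | h1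
        · exact h1
        · exact absurd ⟨hOng a ha, h1⟩ h
    have hRO : R ⊆ O := Finset.filter_subset _ _
    have hRcard : R.card = f := by
      have h1 : O = R ∪ R.image C.ng := by
        ext a
        rw [Finset.mem_union, Finset.mem_image]
        constructor
        · intro ha
          by_cases h : a ∈ R
          · exact Or.inl h
          · right
            refine ⟨C.ng a, ?_, C.ng_ng a⟩
            by_contra h'
            exact h ((hRmem a ha).mpr h')
        · rintro (h | ⟨c, hc, rfl⟩)
          · exact hRO h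
          · exact hOng c (hRO hc)
      have h2 : Disjoint R (R.image C.ng) := by
        rw [Finset.disjoint_left]
        intro a ha ha'
        obtain ⟨c, hc, rfl⟩ := Finset.mem_image.mp ha'
        exact ((hRmem c (hRO hc)).mp hc) ha
      have h3 : (R.image C.ng).card = R.card := by
        apply Finset.card_image_of_injective
        intro a b h
        have := congrArg C.ng h
        rwa [C.ng_ng, C.ng_ng] at this
      have h4 := Finset.card_union_of_disjoint h2
      rw [← h1, hO, h3] at h4
      omega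
    -- pairs in `R × O`
    set Pr := (R ×ˢ O).filter fun p => C.Edge p.2 p.1 with hPr
    have hPreven : Even Pr.card := by
      let τ : X × X → X × X := fun p => if p.2 ∈ R then (p.2, p.1) else (C.ng p.2, C.ng p.1)
      rw [card_fixed_parity Pr τ]
      · have : Pr.filter (fun p => τ p = p) = ∅ := by
          rw [Finset.filter_eq_empty_iff]
          rintro ⟨a, b⟩ hp
          rw [hPr, Finset.mem_filter] at hp
          simp only [τ]
          split_ifs with h
          · intro h'
            have := (Prod.mk.injEq _ _ _ _).mp h'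
            exact hp.2.1 this.1
          · intro h'
            have h2 := (Prod.mk.injEq _ _ _ _).mp h'
            have h3 : C.Edge b a := hp.2
            rw [← h2.2] at h3
            exact hcon a h3
        rw [this]; simp
      · rintro ⟨a, b⟩ hp
        rw [hPr, Finset.mem_filter, Finset.mem_product] at hp ⊢
        obtain ⟨⟨ha, hb⟩, hE⟩ := hp
        simp only at ha hb hE
        simp only [τ]
        split_ifs with h
        · exact ⟨⟨h, hRO ha⟩, hE.symm hm⟩
        · refine ⟨⟨?_, hOng a (hRO ha)⟩, (hE.ng hm).symm hm⟩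
          by_contra h'
          exact h ((hRmem b hb).mpr h')
      · rintro ⟨a, b⟩ hp
        rw [hPr, Finset.mem_filter, Finset.mem_product] at hp
        obtain ⟨⟨ha, hb⟩, hE⟩ := hp
        simp only at ha hb hE
        simp only [τ]
        by_cases h : b ∈ R
        · rw [if_pos h, if_pos ha]
        · rw [if_neg h, if_neg]
          · rw [C.ng_ng, C.ng_ng]
          · exact (hRmem a (hRO ha)).mp ha
    have hPcard : Pr.card = ∑ u ∈ R, ((nb C u).filter fun v => v ∈ O).card := by
      rw [hPr, Finset.card_filter, Finset.sum_product]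
      refine Finset.sum_congr rfl fun u _ => ?_
      rw [← Finset.card_filter]
      congr 1
      ext v
      rw [Finset.mem_filter, Finset.mem_filter, mem_nb]
      exact and_comm
    have hdeg : ∑ u ∈ R, (nb C u).card = f * (nb C u0).card := by
      rw [Finset.sum_congr rfl fun u _ => card_nb_eq hm u u0, Finset.sum_const, hRcard,
        smul_eq_mul]
    have hsplit : ∑ u ∈ R, (nb C u).card = Pr.card +
        ∑ u ∈ R, ((nb C u).filter fun v => v ∉ O).card := by
      rw [hPcard, ← Finset.sum_add_distrib]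
      refine Finset.sum_congr rfl fun u _ => ?_
      exact (Finset.card_filter_add_card_filter_not _).symm
    have heven : Even (f * (nb C u0).card) := by
      rw [← hdeg, hsplit]
      exact hPreven.add (Finset.even_sum _ fun u hu => hcross u (hRO hu))
    have hd := card_nb_odd hm u0
    rcases Nat.even_mul.mp heven with h | h
    · exact (Nat.not_even_iff_odd.mpr hf) h
    · exact (Nat.not_even_iff_odd.mpr hd) h
  · -- the parity flips under `μ`
    have hzall : ∀ u, ¬ Even (y u - y (μ u)) := by
      have hA : ∀ a b, C.Edge a b → b ∈ {u | ¬ Even (y u - y (μ u))} →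
          a ∈ {u | ¬ Even (y u - y (μ u))} := fun a b hab hb h =>
        hb ((mu_parity hm hy hab (hμ1 a) (hμ1 b)).mp h)
      exact fun u => C.closed_univ hA (c := u0) hz u
    have hflip : ∀ u, u ∈ O ↔ μ u ∈ Oᶜ := by
      intro u
      have h1 := hzall u
      rw [Int.not_even_iff_odd, Int.odd_sub] at h1
      rw [Finset.mem_compl, hmemO, hmemO, Int.not_odd_iff_even]
      exact h1
    have hcard : O.card = (Oᶜ).card := by
      refine Finset.card_bij' (fun u _ => μ u) (fun u _ => μ u) (fun u hu => (hflip u).mp hu)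
        (fun u hu => ?_) (fun u _ => hμμ u) (fun u _ => hμμ u)
      rw [hflip, hμμ]
      exact hu
    apply hX
    have h1 := Finset.card_add_card_compl O
    rw [← hcard, hO] at h1
    omega

theorem full_of_mod4 (hm : C.NoMid) {y : X → ℤ}
    (hy : diagonal (fun a => ((y a : ℤ) : K)) ∈ C.L) {f : ℕ} (hf : Odd f)
    (hO : (Finset.univ.filter fun a => Odd (y a)).card = 2 * f)
    (hX : Fintype.card X ≠ 4 * f)
    {Y : Matrix X X K} (hY : ∀ a b, C.j a * Y (C.ng a) b = C.j b * Y (C.ng b) a) : Y ∈ C.L := by
  obtain ⟨u0, hu0⟩ := exists_self_edge_mod4 hm hy hf hO hX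
  exact full_of_self_edge hm hu0 hY

end Sy

end H77MT
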