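import Pool.Agent.Helper77.MT.Frob
import Pool.Agent.Helper77.MT.Mod4
import Pool.Agent.Helper98.MT.Classes

/-!
The main theorem: symplectic monodromy from one Frobenius element.
-/

open Matrix

namespace H77MT

/-- Equal length of the weights excludes midpoints. -/
lemma noMid_rat {X : Type*} [Fintype X] [DecidableEq X] (ng : X → X)
    (E : Submodule ℚ (X → ℚ)) (hanti : ∀ h ∈ E, ∀ a, h (ng a) = - h a)
    (htr : ∀ a b, ∃ s : Equiv.Perm X, (∀ h ∈ E, (fun x => h (s x)) ∈ E) ∧ (s a = b ∨ s a = ng b))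
    {a b c : X} (hmid : ∀ h ∈ E, h a + h c = 2 * h b) : ∀ h ∈ E, h a = h b := by
  obtain ⟨p, H⟩ := MTP.exists_repr E
  have hpn : ∀ a, p (ng a) = -p a := by
    intro a
    have h1 : ∀ h ∈ E, (p (ng a) + p a) ⬝ᵥ h = 0 := by
      intro h hh
      rw [add_dotProduct, H.rep _ h hh, H.rep _ h hh, hanti h hh, neg_add_cancel]
    have h2 := h1 _ (E.add_mem (H.mem (ng a)) (H.mem a))
    rw [dotProduct_self_eq_zero] at h2
    exact eq_neg_of_add_eq_zero_left h2
  have hnorm : ∀ a b, p a a = p b b := by
    intro a b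
    obtain ⟨s, hs, hab⟩ := htr a b
    have h1 := H.equiv s 1 (by simpa using hs) a a
    simp only [Pi.one_apply, Units.val_one, Int.cast_one, one_mul] at h1
    rcases hab with h | h
    · rw [← h1, h]
    · rw [← h1, h, hpn, Pi.neg_apply, hanti _ (H.mem b), neg_neg]
  have e1 := hmid _ (H.mem a)
  have e2 := hmid _ (H.mem b)
  have e3 := hmid _ (H.mem c)
  have s1 := H.symm a b
  have s2 := H.symm a c
  have s3 := H.symm b c
  have n1 := hnorm a b
  have n2 := hnorm c b
  have h1 : (p a - p b) ⬝ᵥ (p a - p b) = 0 := by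
    rw [sub_dotProduct, dotProduct_sub, dotProduct_sub, H.dot, H.dot, H.dot, H.dot]
    linarith
  rw [dotProduct_self_eq_zero, sub_eq_zero] at h1
  intro h hh
  rw [← H.rep a h hh, ← H.rep b h hh, h1]

open Polynomial

variable {F : Type*} [Field F]

/-- The Galois group of `P` is transitive on the pairs `{a, q / a}` of roots. -/
def PairTransitive (P : F[X]) (q : F) : Prop :=
  ∀ a ∈ P.rootSet P.SplittingField, ∀ b ∈ P.rootSet P.SplittingField,
    ∃ σ : P.SplittingField ≃ₐ[F] P.SplittingField,
      σ a = b ∨ σ a * b = algebraMap F P.SplittingField q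

/-- The Galois group of `P` is doubly transitive on the pairs `{a, q / a}` of roots. -/
def PairTwoTransitive (P : F[X]) (q : F) : Prop :=
  ∀ a ∈ P.rootSet P.SplittingField, ∀ b ∈ P.rootSet P.SplittingField,
  ∀ c ∈ P.rootSet P.SplittingField, ∀ d ∈ P.rootSet P.SplittingField,
    b ≠ a → a * b ≠ algebraMap F P.SplittingField q →
    d ≠ c → c * d ≠ algebraMap F P.SplittingField q →
    ∃ σ : P.SplittingField ≃ₐ[F] P.SplittingField,
      (σ a = c ∨ σ a * c = algebraMap F P.SplittingField q) ∧
      (σ b = d ∨ σ b * d = algebraMap F P.SplittingField q)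

/-- No root of `P` is, up to roots of unity, the geometric mean of another root and some root. -/
def NoGeometricMean (P : F[X]) : Prop :=
  ∀ a ∈ P.rootSet P.SplittingField, ∀ b ∈ P.rootSet P.SplittingField,
  ∀ c ∈ P.rootSet P.SplittingField, ∀ m : ℕ, 0 < m → (a * c) ^ m = b ^ (2 * m) → a = b

/-- The Frobenius space contains an integral vector with exactly `2 f` odd coordinates. -/
def HasOddVector (P : F[X]) (q : F) (f : ℕ) : Prop :=
  ∃ y : P.rootSet P.SplittingField → ℤ, (fun a => ((y a : ℤ) : ℚ)) ∈ frobSpace P q ∧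
    {a | Odd (y a)}.ncard = 2 * f

/-- The permutation of the roots attached to a Galois automorphism. -/
noncomputable def rootPerm (P : F[X]) (σ : P.SplittingField ≃ₐ[F] P.SplittingField) :
    Equiv.Perm (P.rootSet P.SplittingField) where
  toFun a := ⟨σ a, by
    have h := mem_rootSet.mp a.2
    refine mem_rootSet.mpr ⟨h.1, ?_⟩
    have : aeval (σ (a : P.SplittingField)) P = σ (aeval (a : P.SplittingField) P) :=
      aeval_algHom_apply (σ : P.SplittingField →ₐ[F] P.SplittingField) _ _
    rw [this, h.2, map_zero]⟩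
  invFun a := ⟨σ.symm a, by
    have h := mem_rootSet.mp a.2
    refine mem_rootSet.mpr ⟨h.1, ?_⟩
    have : aeval (σ.symm (a : P.SplittingField)) P = σ.symm (aeval (a : P.SplittingField) P) :=
      aeval_algHom_apply (σ.symm : P.SplittingField →ₐ[F] P.SplittingField) _ _
    rw [this, h.2, map_zero]⟩
  left_inv a := Subtype.ext (σ.symm_apply_apply _)
  right_inv a := Subtype.ext (σ.apply_symm_apply _)

lemma rootPerm_coe (P : F[X]) (σ : P.SplittingField ≃ₐ[F] P.SplittingField)
    (a : P.rootSet P.SplittingField) :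
    ((rootPerm P σ a : P.rootSet P.SplittingField) : P.SplittingField) = σ a := rfl

lemma frobSpace_perm (P : F[X]) (q : F) (σ : P.SplittingField ≃ₐ[F] P.SplittingField)
    {h : P.rootSet P.SplittingField → ℚ} (hh : h ∈ frobSpace P q) :
    (fun a => h (rootPerm P σ a)) ∈ frobSpace P q := by
  obtain ⟨χ, h1, h2⟩ := hh
  refine ⟨fun x => χ (σ x), ?_, fun a => ?_⟩
  · intro x y hx hy
    simp only
    rw [map_mul]
    exact h1 _ _ ((map_ne_zero σ).mpr hx) ((map_ne_zero σ).mpr hy)
  · simp only
    rw [h2, rootPerm_coe, map_div₀, map_pow, AlgEquiv.commutes]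

theorem main {K : Type*} [Field K] [CharZero K] [IsAlgClosed K] [Algebra F K]
    {N : Type*} [Fintype N] [DecidableEq N] [Nonempty N] (S0 : Set (Matrix N N K)) (h1 : 1 ∈ S0)
    (hmul : ∀ s ∈ S0, ∀ t ∈ S0, s * t ∈ S0) (hinv : ∀ s ∈ S0, ∃ t ∈ S0, s * t = 1)
    (J : Matrix N N K) (hJ : Jᵀ = -J) (hJd : IsUnit J.det)
    (hsim : ∀ s ∈ S0, ∃ c : K, sᵀ * J * s = c • J)
    (hirr : ∀ W : Submodule K (N → K), W ≠ ⊥ → W ≠ ⊤ →
      {U : Submodule K (N → K) | ∃ s ∈ S0, U = W.map (toLin' s)}.Infinite)
    (g0 : Matrix N N K) (hg0 : g0 ∈ S0) (P : F[X]) (hP : g0.charpoly = P.map (algebraMap F K))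
    (hsep : P.Separable) (q : F) (hq : g0ᵀ * J * g0 = algebraMap F K q • J)
    (htor : ∀ a ∈ P.rootSet P.SplittingField, ∀ b ∈ P.rootSet P.SplittingField,
      ∀ m : ℕ, 0 < m → a ^ m = b ^ m → a = b)
    {g : ℕ} (hN : Fintype.card N = 2 * g)
    (hcase : ((NoGeometricMean P ∨ PairTransitive P q) ∧
        (Odd g ∨ ∃ f, Odd f ∧ g ≠ 2 * f ∧ HasOddVector P q f)) ∨
      (PairTwoTransitive P q ∧ (2 * g, Module.finrank ℚ (frobSpace P q)) ∉
        ({(8, 3), (20, 5), (32, 6), (56, 7)} : Set (ℕ × ℕ))))
    (x : Matrix N N K) (hx : xᵀ * J * x = J) : x ∈ zcl S0 := by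
  classical
  obtain ⟨G, hE, hng, ha0, hcard, hcl⟩ := exists_GD S0 h1 hmul hinv J hJ hJd hsim hirr g0 hg0 P hP
    hsep q hq htor
  refine hcl (fun Y hY => ?_) x hx
  have hpn : ∀ (σ : P.SplittingField ≃ₐ[F] P.SplittingField) (a : P.rootSet P.SplittingField),
      rootPerm P σ (G.ng a) = G.ng (rootPerm P σ a) := by
    intro σ a
    apply Subtype.ext
    apply mul_left_cancel₀ (ha0 (rootPerm P σ a))
    rw [hng, rootPerm_coe, rootPerm_coe, ← map_mul, hng, AlgEquiv.commutes]
  have hpair : ∀ a b : P.rootSet P.SplittingField,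
      (a : P.SplittingField) * b = algebraMap F P.SplittingField q → a = G.ng b := by
    intro a b h
    apply Subtype.ext
    apply mul_left_cancel₀ (ha0 b)
    rw [hng, ← h, mul_comm]
  rcases hcase with ⟨hmid, hnum⟩ | ⟨htr, hex⟩
  · -- the case of weights of equal length
    have hm : G.toSy.NoMid := by
      intro a b c hmid'
      apply G.toSy.eq_of_forall
      by_contra hcon
      have hab : a ≠ b := by
        rintro rfl; exact hcon fun _ _ => rfl
      have hmidQ : ∀ h ∈ G.E, h a + h c = 2 * h b := by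
        intro h hh
        have := hmid' _ (G.diag_mem_L0 hh)
        exact_mod_cast this
      rcases hmid with hgm | htr
      · -- no geometric means
        have ha := ha0 a
        have hb := ha0 b
        have hc := ha0 c
        have hq0 : algebraMap F P.SplittingField q ≠ 0 := by
          rw [← hng a]; exact mul_ne_zero (ha0 a) (ha0 _)
        obtain ⟨χ, hχ, hne⟩ := exists_isChar
          (x := ((a : P.SplittingField) * c) / (b : P.SplittingField) ^ 2)
          (div_ne_zero (mul_ne_zero ha hc) (pow_ne_zero 2 hb)) (by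
            intro m hm' h
            rw [div_pow, div_eq_one_iff_eq (pow_ne_zero m (pow_ne_zero 2 hb)), ← pow_mul] at h
            exact hab (Subtype.ext (hgm a a.2 b b.2 c c.2 m hm' h)))
        have hmem : (fun a : P.rootSet P.SplittingField =>
            χ ((a : P.SplittingField) ^ 2 / algebraMap F P.SplittingField q)) ∈ G.E := by
          rw [hE]; exact ⟨χ, hχ, fun _ => rfl⟩
        have h2 := hmidQ _ hmem
        rw [hχ.div (pow_ne_zero 2 ha) hq0, hχ.div (pow_ne_zero 2 hb) hq0,
          hχ.div (pow_ne_zero 2 hc) hq0, hχ.sq ha, hχ.sq hb, hχ.sq hc] at h2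
        apply hne
        rw [hχ.div (mul_ne_zero ha hc) (pow_ne_zero 2 hb), hχ _ _ ha hc, hχ.sq hb]
        linarith
      · -- transitivity on pairs
        obtain ⟨h, hh, hne⟩ := G.sepE a b hab
        refine hne (noMid_rat G.ng G.E G.anti ?_ (a := a) (b := b) (c := c) hmidQ h hh)
        intro a b
        obtain ⟨σ, hσ⟩ := htr a a.2 b b.2
        refine ⟨rootPerm P σ, fun h hh => ?_, ?_⟩
        · rw [hE] at hh ⊢
          exact frobSpace_perm P q σ hh
        · rcases hσ with h | h
          · exact Or.inl (Subtype.ext h)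
          · exact Or.inr (hpair _ _ h)
    rcases hnum with hodd | ⟨f, hf, hgf, y, hy, hcardy⟩
    · exact Sy.full_of_odd hm hodd (by rw [hcard, hN]) hY
    · rw [← hE] at hy
      have hy' := G.diag_mem_L0 hy
      simp only [Rat.cast_intCast] at hy'
      refine Sy.full_of_mod4 hm (y := y) hy' hf ?_ ?_ hY
      · rw [← hcardy, Set.ncard_eq_toFinset_card', Set.toFinset_setOf]
      · rw [hcard, hN]; omega
  · -- the doubly transitive case
    have hcls := MTP.twoTrans_classes G.ng G.ng_ng G.ng_ne G.E G.anti G.sepE (by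
      intro a b c d hba hbn hdc hdn
      obtain ⟨σ, hσ1, hσ2⟩ := htr a a.2 b b.2 c c.2 d d.2 (fun h => hba (Subtype.ext h))
        (fun h => hbn (hpair b a (by rw [mul_comm]; exact h))) (fun h => hdc (Subtype.ext h))
        (fun h => hdn (hpair d c (by rw [mul_comm]; exact h)))
      refine ⟨rootPerm P σ, hpn σ, fun h hh => ?_, ?_, ?_⟩
      · rw [hE] at hh ⊢
        exact frobSpace_perm P q σ hh
      · rcases hσ1 with h | h
        · exact Or.inl (Subtype.ext h)
        · exact Or.inr (hpair _ _ h)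
      · rcases hσ2 with h | h
        · exact Or.inl (Subtype.ext h)
        · exact Or.inr (hpair _ _ h)) (by rw [hE, hcard, hN]; exact hex)
    refine G.toSy.full_of_small ?_ hY
    intro a b hab u v hp
    refine hcls a b u v hab fun h hh => ?_
    have := hp _ (G.diag_mem_L0 hh)
    exact_mod_cast this

end H77MT
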