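import Pool.Agent.Helper77.MT.Theta

/-!
If no weight is the midpoint of two others and half the number of weights is odd, then the Lie
algebra is the full symplectic one.
-/

open Matrix

namespace H77MT

namespace Sy

variable {K : Type*} [Field K] {X : Type*} [Fintype X] [DecidableEq X] {C : Sy K X}
variable [CharZero K] [IsAlgClosed K]

/-- The number of neighbours is odd. -/
theorem card_nb_odd (hm : C.NoMid) (v0 : X) : Odd (nb C v0).card := by
  classical
  obtain ⟨I, hI⟩ := exists_chain hm v0
  obtain ⟨θ, hθ⟩ := exists_theta hm hI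
  have hpar := card_fixed_parity (nb C v0) θ hθ.nb (fun v _ => hθ.inv v)
  rw [← Nat.not_even_iff_odd, hpar, Nat.not_even_iff_odd]
  have hmap : ∀ c : I, ∃ v, C.Par c.1.1 c.1.2 v v0 := fun c => hI.bot c.1 c.2
  choose φ hφ using hmap
  have hφinj : Function.Injective φ := by
    intro c d hcd
    by_contra hne
    have hne' : c.1 ≠ d.1 := fun h => hne (Subtype.ext h)
    have h1 := (hθ.step c.1 c.2 _ (hφ c)).2.2 d.1 d.2
    have h2 := (hθ.step d.1 d.2 _ (hφ d)).2.2 d.1 d.2
    rw [if_neg hne'] at h1
    rw [if_pos rfl] at h2
    rw [hcd, h2] at h1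
    norm_num at h1
  have hcard : ((nb C v0).filter fun v => θ v = v).card = I.card := by
    have h1 : (nb C v0).filter (fun v => θ v = v) = Finset.univ.image φ := by
      ext v
      rw [Finset.mem_image, Finset.mem_filter]
      constructor
      · rintro ⟨hv, hfix⟩
        obtain ⟨c, hc, hp⟩ := hθ.fix v hv hfix
        exact ⟨⟨c, hc⟩, Finset.mem_univ _, (hφ ⟨c, hc⟩).left_unique hp⟩
      · rintro ⟨c, _, rfl⟩
        have := hθ.step c.1 c.2 _ (hφ c)
        exact ⟨this.1, this.2.1⟩
    rw [h1, Finset.card_image_of_injective _ hφinj, Finset.card_univ, Fintype.card_coe]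
  rw [hcard]
  exact hI.odd

/-- All weights have the same number of neighbours. -/
lemma card_nb_eq (hm : C.NoMid) (u v : X) : (nb C u).card = (nb C v).card := by
  classical
  have key : ∀ a b, C.Edge a b → (nb C b).card ≤ (nb C a).card := by
    intro a b hab
    have h1 : ∀ w, ∃ w', Rf C a b w w' := exists_rf hm hab.1
    choose f hf using h1
    have hfb : f b = a := by
      refine (hf b).unique fun t ht => ?_
      rw [co_bot hm hab.1 (C.par_refl a b)]; push_cast; ring
    refine Finset.card_le_card_of_injOn f ?_ ?_
    · intro w hw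
      have hw' : C.Edge w b := mem_nb.mp hw
      have := hab.refl hm hw' (hf w) (hf b)
      rw [hfb] at this
      exact mem_nb.mpr this
    · intro w _ w' _ he
      have h2 := (hf w).symm hm hab
      have h3 := (hf w').symm hm hab
      rw [he] at h2
      exact h2.unique h3
  have hle : ∀ u v, (nb C u).card ≤ (nb C v).card := by
    intro u v
    have hA : ∀ a b, C.Edge a b → b ∈ {w | (nb C u).card ≤ (nb C w).card} →
        a ∈ {w | (nb C u).card ≤ (nb C w).card} := fun a b hab hb => le_trans hb (key a b hab)
    exact C.closed_univ hA (c := u) (show (nb C u).card ≤ (nb C u).card from le_refl _) v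
  exact le_antisymm (hle u v) (hle v u)

/-- If half the number of weights is odd, some root vector maps a weight vector to the vector of
the opposite weight. -/
theorem exists_self_edge (hm : C.NoMid) {g : ℕ} (hg : Odd g) (hX : Fintype.card X = 2 * g) :
    ∃ u, C.Edge (C.ng u) u := by
  classical
  by_contra hcon
  push Not at hcon
  have hpos : 0 < g := hg.pos
  have hne : Nonempty X := Fintype.card_pos_iff.mp (by omega)
  obtain ⟨v0⟩ := hne
  have hd := card_nb_odd hm v0
  have hdeg : ∀ v, (gr C hm).degree v = (nb C v0).card := by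
    intro v
    rw [← card_nb_eq hm v v0, ← SimpleGraph.card_neighborFinset_eq_degree]
    congr 1
    ext w
    rw [SimpleGraph.mem_neighborFinset, mem_nb]
    exact ⟨fun h => Edge.symm hm h, fun h => Edge.symm hm h⟩
  have hsum := (gr C hm).sum_degrees_eq_twice_card_edges
  rw [Finset.sum_congr rfl fun v _ => hdeg v, Finset.sum_const, Finset.card_univ, hX,
    smul_eq_mul, mul_assoc] at hsum
  have hsum' : g * (nb C v0).card = (gr C hm).edgeFinset.card := by omega
  have heven : Even (gr C hm).edgeFinset.card := by
    rw [card_fixed_parity (gr C hm).edgeFinset (Sym2.map C.ng)]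
    · have : (gr C hm).edgeFinset.filter (fun e => Sym2.map C.ng e = e) = ∅ := by
        rw [Finset.filter_eq_empty_iff]
        intro e he
        induction e using Sym2.ind with
        | _ a b =>
          rw [SimpleGraph.mem_edgeFinset, SimpleGraph.mem_edgeSet] at he
          rw [Sym2.map_mk, Sym2.eq_iff]
          rintro (⟨h1, _⟩ | ⟨h1, _⟩)
          · exact C.ng_ne a h1
          · have he' : C.Edge a b := he
            rw [← h1] at he'
            exact hcon a (he'.symm hm)
      rw [this]; simp
    · intro e he
      induction e using Sym2.ind with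
      | _ a b =>
        rw [SimpleGraph.mem_edgeFinset, SimpleGraph.mem_edgeSet] at he
        rw [Sym2.map_mk, SimpleGraph.mem_edgeFinset, SimpleGraph.mem_edgeSet]
        exact Edge.ng hm he
    · intro e _
      induction e using Sym2.ind with
      | _ a b => rw [Sym2.map_mk, Sym2.map_mk, C.ng_ng, C.ng_ng]
  rw [← hsum'] at heven
  rcases Nat.even_mul.mp heven with h | h
  · exact (Nat.not_even_iff_odd.mpr hg) h
  · exact (Nat.not_even_iff_odd.mpr hd) h

/-- If some root vector maps a weight vector to the vector of the opposite weight then `L` is the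
full symplectic Lie algebra. -/
theorem full_of_self_edge (hm : C.NoMid) {u0 : X} (hu0 : C.Edge (C.ng u0) u0)
    {Y : Matrix X X K} (hY : ∀ a b, C.j a * Y (C.ng a) b = C.j b * Y (C.ng b) a) : Y ∈ C.L := by
  classical
  have hself : ∀ u, C.Edge (C.ng u) u := by
    have hA : ∀ a b, C.Edge a b → b ∈ {u | C.Edge (C.ng u) u} → a ∈ {u | C.Edge (C.ng u) u} := by
      intro a b hab hb
      have hr : Rf C a b b a := fun t ht => by
        rw [co_bot hm hab.1 (C.par_refl a b)]; push_cast; ring
      exact hab.refl hm hb (hr.ng hm hab) hr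
    exact fun u => C.closed_univ hA (c := u0) hu0 u
  -- the class of a self paired edge has one element
  have hcls : ∀ u p q, C.Par (C.ng u) u p q → p = C.ng u ∧ q = u := by
    intro u p q h
    have hq : q = u := hm q u (C.ng p) fun t ht => by
      have h1 := h t ht
      rw [C.diag_ng ht] at h1 ⊢
      linear_combination h1
    subst hq
    exact ⟨h.left_unique (C.par_refl _ _), rfl⟩
  have hcoval : ∀ u w, co C (C.ng u) u w = if w = C.ng u then 1 else if w = u then -1 else 0 := by
    intro u w
    rcases co_cases hm (C.ng_ne u) w with ⟨h1, v, hv⟩ | ⟨h1, v, hv⟩ | ⟨h1, h2, h3⟩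
    · rw [if_pos (hcls u w v hv).1, h1]
    · have h4 := (hcls u v w hv).2
      subst h4
      rw [if_neg (C.ng_ne w).symm, if_pos rfl, h1]
    · rw [if_neg, if_neg, h1]
      · rintro rfl; exact h3 _ (C.par_refl _ _)
      · rintro rfl; exact h2 _ (C.par_refl _ _)
  refine C.full_of_small ?_ hY
  intro a b hab p q hp
  have h1 := co_par hm (hself a) hp
  rw [hcoval, hcoval, hcoval, hcoval, if_neg (C.ng_ne a).symm, if_pos rfl] at h1
  have hkey : p = a ∨ q = C.ng a := by
    by_contra hcon
    push Not at hcon
    rw [if_neg hcon.2] at h1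
    by_cases hb : b = C.ng a
    · rw [if_pos hb] at h1
      split_ifs at h1 <;> simp_all
    · rw [if_neg hb, if_neg hab.symm] at h1
      split_ifs at h1 <;> simp_all
  rcases hkey with h | h
  · left
    subst h
    exact ⟨rfl, hp.right_unique (C.par_refl _ _)⟩
  · right
    refine ⟨?_, h⟩
    have h2 := hp.ng
    rw [h, C.ng_ng] at h2
    have h3 := h2.right_unique (C.par_refl a b)
    rw [← h3, C.ng_ng]

/-- **The odd case.** -/
theorem full_of_odd (hm : C.NoMid) {g : ℕ} (hg : Odd g) (hX : Fintype.card X = 2 * g)
    {Y : Matrix X X K} (hY : ∀ a b, C.j a * Y (C.ng a) b = C.j b * Y (C.ng b) a) : Y ∈ C.L := by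
  obtain ⟨u0, hu0⟩ := exists_self_edge hm hg hX
  exact full_of_self_edge hm hu0 hY

end Sy

end H77MT
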