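import Pool.Agent.Helper77.MT.Root

/-!
Reflections of the set of weights and invariance of the edges.
-/

open Matrix

namespace H77MT

namespace Sy

variable {K : Type*} [Field K] {X : Type*} [Fintype X] [DecidableEq X] {C : Sy K X}

/-- `w` is the image of `u` under the reflection attached to `(a, b)`. -/
def Rf (C : Sy K X) (a b u w : X) : Prop :=
  ∀ h : X → K, diagonal h ∈ C.L → h w = h u - ((co C a b u : ℤ) : K) * (h a - h b)

lemma Rf.unique {a b u w w' : X} (h : Rf C a b u w) (h' : Rf C a b u w') : w = w' :=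
  C.eq_of_forall fun t ht => (h t ht).trans (h' t ht).symm

lemma Rf.left_unique {a b u u' w : X} (hc : co C a b u = co C a b u')
    (h : Rf C a b u w) (h' : Rf C a b u' w) : u = u' :=
  C.eq_of_forall fun t ht => by
    have h1 := h t ht
    have h2 := h' t ht
    rw [hc] at h1
    linear_combination h2 - h1

lemma exists_rf (hm : C.NoMid) {a b : X} (hab : a ≠ b) (u : X) : ∃ w, Rf C a b u w := by
  rcases co_cases hm hab u with ⟨h1, v, hv⟩ | ⟨h1, v, hv⟩ | ⟨h1, _⟩
  · refine ⟨v, fun h hh => ?_⟩
    rw [h1, hv h hh]; push_cast; ring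
  · refine ⟨v, fun h hh => ?_⟩
    rw [h1, hv h hh]; push_cast; ring
  · refine ⟨u, fun h hh => ?_⟩
    rw [h1]; push_cast; ring

variable [CharZero K] [IsAlgClosed K]

lemma Rf.co_other (hm : C.NoMid) {a b c d u w : X} (hE : C.Edge c d) (h : Rf C a b u w) :
    co C c d w = co C c d u - co C a b u * (co C c d a - co C c d b) := by
  have := h _ (co_mem hm hE)
  exact_mod_cast this

lemma Rf.co_eq (hm : C.NoMid) {a b u w : X} (hE : C.Edge a b) (h : Rf C a b u w) :
    co C a b w = - co C a b u := by
  rw [h.co_other hm hE, co_self hm hE.1]; ring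

lemma Rf.symm (hm : C.NoMid) {a b u w : X} (hE : C.Edge a b) (h : Rf C a b u w) :
    Rf C a b w u := fun t ht => by
  rw [h.co_eq hm hE]
  have := h t ht
  push_cast
  linear_combination -this

lemma Rf.ng (hm : C.NoMid) {a b u w : X} (hE : C.Edge a b) (h : Rf C a b u w) :
    Rf C a b (C.ng u) (C.ng w) := fun t ht => by
  rw [co_ng hm hE, C.diag_ng ht, C.diag_ng ht]
  have := h t ht
  push_cast
  linear_combination -this

omit [CharZero K] [IsAlgClosed K] in
lemma Root.swap {a b : X} {e f : Matrix X X K} (hr : Root C a b e f) : Root C b a f e where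
  emem := hr.fmem
  fmem := hr.emem
  e0 := fun u v h => hr.f0 v u fun h' => h h'.swap
  f0 := fun u v h => hr.e0 v u fun h' => h h'.swap
  ef := fun u v h => by rw [mul_comm]; exact hr.ef v u h.swap

omit [CharZero K] [IsAlgClosed K] in
lemma Root.neg {a b : X} {e f : Matrix X X K} (hr : Root C a b e f) : Root C a b (-e) (-f) where
  emem := C.L.neg_mem hr.emem
  fmem := C.L.neg_mem hr.fmem
  e0 := fun u v h => by rw [Matrix.neg_apply, hr.e0 u v h, neg_zero]
  f0 := fun u v h => by rw [Matrix.neg_apply, hr.f0 u v h, neg_zero]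
  ef := fun u v h => by rw [Matrix.neg_apply, Matrix.neg_apply, neg_mul_neg, hr.ef u v h]

omit [CharZero K] [IsAlgClosed K] in
lemma Root.e_par {a b : X} {e f : Matrix X X K} (hr : Root C a b e f) {u v : X} (h : e u v ≠ 0) :
    C.Par a b u v := by
  by_contra hc; exact h (hr.e0 u v hc)

omit [CharZero K] [IsAlgClosed K] in
lemma Root.f_par {a b : X} {e f : Matrix X X K} (hr : Root C a b e f) {u v : X} (h : f v u ≠ 0) :
    C.Par a b u v := by
  by_contra hc; exact h (hr.f0 u v hc)

omit [CharZero K] [IsAlgClosed K] in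
lemma Root.e_ne {a b : X} {e f : Matrix X X K} (hr : Root C a b e f) {u v : X}
    (h : C.Par a b u v) : e u v ≠ 0 :=
  left_ne_zero_of_mul (by rw [hr.ef u v h]; exact one_ne_zero)

omit [CharZero K] [IsAlgClosed K] in
lemma Root.ee (hm : C.NoMid) {a b : X} (hab : a ≠ b) {e f : Matrix X X K}
    (hr : Root C a b e f) : e * e = 0 := by
  ext u v
  rw [mul_apply, Matrix.zero_apply]
  refine Finset.sum_eq_zero fun k _ => ?_
  by_contra hne
  exact hm.not_par hab (hr.e_par (left_ne_zero_of_mul hne)) (hr.e_par (right_ne_zero_of_mul hne))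

open Classical in
omit [CharZero K] [IsAlgClosed K] in
lemma Root.ef_eq {a b : X} {e f : Matrix X X K} (hr : Root C a b e f) :
    e * f = diagonal (fun u => if ∃ v, C.Par a b u v then (1 : K) else 0) := by
  ext u v
  rw [mul_apply]
  by_cases huv : u = v
  · subst huv
    rw [diagonal_apply_eq]
    by_cases h : ∃ v, C.Par a b u v
    · obtain ⟨v, hv⟩ := h
      rw [if_pos ⟨v, hv⟩, Finset.sum_eq_single v, hr.ef u v hv]
      · intro k _ hk
        by_contra hne
        exact hk ((hr.e_par (left_ne_zero_of_mul hne)).right_unique hv)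
      · intro hh; exact absurd (Finset.mem_univ _) hh
    · rw [if_neg h]
      refine Finset.sum_eq_zero fun k _ => ?_
      by_contra hne
      exact h ⟨k, hr.e_par (left_ne_zero_of_mul hne)⟩
  · rw [diagonal_apply_ne _ huv]
    refine Finset.sum_eq_zero fun k _ => ?_
    by_contra hne
    exact huv ((hr.e_par (left_ne_zero_of_mul hne)).left_unique
      (hr.f_par (right_ne_zero_of_mul hne)))

omit [CharZero K] [IsAlgClosed K] in
lemma Root.efe {a b : X} {e f : Matrix X X K} (hr : Root C a b e f) : e * f * e = e := by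
  rw [hr.ef_eq]
  ext u v
  rw [diagonal_mul]
  by_cases h : e u v = 0
  · rw [h, mul_zero]
  · rw [if_pos ⟨v, hr.e_par h⟩, one_mul]

/-- The element of the group which induces the reflection. -/
noncomputable def NN (e f : Matrix X X K) : Matrix X X K := (1 + e) * (1 - f) * (1 + e)

omit [CharZero K] [IsAlgClosed K] in
lemma Root.NN_eq (hm : C.NoMid) {a b : X} (hab : a ≠ b) {e f : Matrix X X K}
    (hr : Root C a b e f) : NN e f = 1 + e - f - e * f - f * e := by
  have h1 := hr.ee hm hab
  have h2 := hr.efe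
  have : NN e f = 1 + (e + e) - f - e * f - f * e + e * e - e * f * e := by
    unfold NN; noncomm_ring
  rw [this, h1, h2]
  noncomm_ring

omit [CharZero K] [IsAlgClosed K] in
lemma Root.NN_col (hm : C.NoMid) {a b : X} (hab : a ≠ b) {e f : Matrix X X K}
    (hr : Root C a b e f) {u w : X} (h : Rf C a b u w) :
    NN e f w u ≠ 0 ∧ ∀ w', w' ≠ w → NN e f w' u = 0 := by
  classical
  have hfe : f * e = diagonal (fun u => if ∃ v, C.Par a b v u then (1 : K) else 0) := by
    rw [hr.swap.ef_eq]
    congr 1
    ext u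
    have : (∃ v, C.Par b a u v) ↔ ∃ v, C.Par a b v u :=
      ⟨fun ⟨v, hv⟩ => ⟨v, hv.swap⟩, fun ⟨v, hv⟩ => ⟨v, hv.swap⟩⟩
    simp only [this]
  have hent : ∀ w', NN e f w' u = (1 : Matrix X X K) w' u + e w' u - f w' u -
      (diagonal (fun u => if ∃ v, C.Par a b u v then (1 : K) else 0) : Matrix X X K) w' u -
      (diagonal (fun u => if ∃ v, C.Par a b v u then (1 : K) else 0) : Matrix X X K) w' u := by
    intro w'
    rw [hr.NN_eq hm hab, hr.ef_eq, hfe]
    simp only [Matrix.sub_apply, Matrix.add_apply]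
  rcases co_cases hm hab u with ⟨h1, v, hv⟩ | ⟨h1, v, hv⟩ | ⟨h1, h2, h3⟩
  · -- `u` is a top
    have hwv : w = v := by
      refine h.unique fun t ht => ?_
      rw [h1, hv t ht]; push_cast; ring
    subst hwv
    have huw : w ≠ u := fun he => hab (by subst he; exact hv.eq_of_eq)
    have e0 : ∀ w', e w' u = 0 := fun w' => by
      by_contra hne
      exact hm.not_par hab (hr.e_par hne) hv
    have hnb : ¬ ∃ v, C.Par a b v u := fun ⟨v, hv'⟩ => hm.not_par hab hv' hv
    have hval : ∀ w', NN e f w' u = - f w' u := by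
      intro w'
      rw [hent, e0]
      by_cases hw : w' = u
      · subst hw
        rw [diagonal_apply_eq, diagonal_apply_eq, one_apply_eq, if_pos ⟨w, hv⟩, if_neg hnb]
        ring
      · rw [diagonal_apply_ne _ hw, diagonal_apply_ne _ hw, one_apply_ne hw]
        ring
    refine ⟨?_, fun w' hw' => ?_⟩
    · rw [hval]
      exact neg_ne_zero.mpr (hr.swap.e_ne hv.swap)
    · rw [hval, neg_eq_zero]
      by_contra hne
      exact hw' ((hr.f_par hne).right_unique hv)
  · -- `u` is a bottom
    have hwv : w = v := by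
      refine h.unique fun t ht => ?_
      rw [h1, hv t ht]; push_cast; ring
    subst hwv
    have f0 : ∀ w', f w' u = 0 := fun w' => by
      by_contra hne
      exact hm.not_par hab hv (hr.f_par hne)
    have hnt : ¬ ∃ v, C.Par a b u v := fun ⟨v, hv'⟩ => hm.not_par hab hv hv'
    have hval : ∀ w', NN e f w' u = e w' u := by
      intro w'
      rw [hent, f0]
      by_cases hw : w' = u
      · subst hw
        rw [diagonal_apply_eq, diagonal_apply_eq, one_apply_eq, if_neg hnt, if_pos ⟨w, hv⟩]
        ring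
      · rw [diagonal_apply_ne _ hw, diagonal_apply_ne _ hw, one_apply_ne hw]
        ring
    refine ⟨?_, fun w' hw' => ?_⟩
    · rw [hval]
      exact hr.e_ne hv
    · rw [hval]
      by_contra hne
      exact hw' ((hr.e_par hne).left_unique hv)
  · -- `u` is fixed
    have hwv : w = u := by
      refine h.unique fun t ht => ?_
      rw [h1]; push_cast; ring
    subst hwv
    have e0 : ∀ w', e w' w = 0 := fun w' => by
      by_contra hne
      exact h3 _ (hr.e_par hne)
    have f0 : ∀ w', f w' w = 0 := fun w' => by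
      by_contra hne
      exact h2 _ (hr.f_par hne)
    have hnt : ¬ ∃ v, C.Par a b w v := fun ⟨v, hv'⟩ => h2 v hv'
    have hnb : ¬ ∃ v, C.Par a b v w := fun ⟨v, hv'⟩ => h3 v hv'
    refine ⟨?_, fun w' hw' => ?_⟩
    · rw [hent, e0, f0, diagonal_apply_eq, diagonal_apply_eq, one_apply_eq, if_neg hnt,
        if_neg hnb]
      simp
    · rw [hent, e0, f0, diagonal_apply_ne _ hw', diagonal_apply_ne _ hw', one_apply_ne hw']
      simp

omit [IsAlgClosed K] in
lemma conj_mem {e z : Matrix X X K} (he : e ∈ C.L) (hee : e * e = 0) (hz : z ∈ C.L) :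
    (1 + e) * z * (1 - e) ∈ C.L := by
  have h1 := C.br e he z hz
  have h2 := C.br e he _ h1
  have h3 : e * (e * z - z * e) - (e * z - z * e) * e = (-2 : K) • (e * z * e) := by
    have : e * (e * z - z * e) - (e * z - z * e) * e =
        e * e * z - (e * z * e + e * z * e) + z * (e * e) := by noncomm_ring
    rw [this, hee, ← two_smul K (e * z * e)]
    simp
  rw [h3] at h2
  have h4 := C.L.smul_mem (-2 : K)⁻¹ h2
  rw [smul_smul, inv_mul_cancel₀ (by norm_num), one_smul] at h4
  have h5 : (1 + e) * z * (1 - e) = z + (e * z - z * e) - e * z * e := by noncomm_ring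
  rw [h5]
  exact C.L.sub_mem (C.L.add_mem hz h1) h4

omit [IsAlgClosed K] in
lemma Root.conj_mem (hm : C.NoMid) {a b : X} (hab : a ≠ b) {e f z : Matrix X X K}
    (hr : Root C a b e f) (hz : z ∈ C.L) : NN e f * z * NN (-e) (-f) ∈ C.L := by
  have hee := hr.ee hm hab
  have hff := hr.swap.ee hm hab.symm
  have h1 := Sy.conj_mem hr.emem hee hz
  have h2 := Sy.conj_mem (C.L.neg_mem hr.fmem) (by rw [neg_mul_neg, hff]) h1
  have h3 := Sy.conj_mem hr.emem hee h2
  convert h3 using 1
  unfold NN
  noncomm_ring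

/-- Edges are invariant under the reflections. -/
lemma Edge.refl (hm : C.NoMid) {a b u v w w' : X} (hab : C.Edge a b) (huv : C.Edge u v)
    (hw : Rf C a b u w) (hw' : Rf C a b v w') : C.Edge w w' := by
  obtain ⟨e, f, hr⟩ := hab.exists_root hm
  obtain ⟨hne, z, hz, hzne⟩ := huv
  refine ⟨?_, NN e f * z * NN (-e) (-f), hr.conj_mem hm hab.1 hz, ?_⟩
  · rintro rfl
    exact hne ((hw.symm hm hab).unique (hw'.symm hm hab))
  · have h1 : ∀ k, k ≠ u → NN e f w k = 0 := by
      intro k hk
      obtain ⟨k', hk'⟩ := exists_rf hm hab.1 k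
      refine (hr.NN_col hm hab.1 hk').2 w ?_
      rintro rfl
      exact hk ((hk'.symm hm hab).unique (hw.symm hm hab))
    have h2 := (hr.NN_col hm hab.1 hw).1
    have h3 := hr.neg.NN_col hm hab.1 (hw'.symm hm hab)
    rw [mul_apply, Finset.sum_eq_single v]
    · rw [mul_apply, Finset.sum_eq_single u]
      · exact mul_ne_zero (mul_ne_zero h2 hzne) h3.1
      · intro k _ hk
        rw [h1 k hk, zero_mul]
      · intro hh; exact absurd (Finset.mem_univ _) hh
    · intro k _ hk
      rw [h3.2 k hk, mul_zero]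
    · intro hh; exact absurd (Finset.mem_univ _) hh

end Sy

end H77MT
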