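import Pool.Agent.Helper77.MT.Lie
import Pool.Agent.Helper21.MT.Trace

/-!
Root vectors and reflections for the Lie algebras of `Lie.lean`, in the case where no weight is
the midpoint of two others.
-/

open Matrix

namespace H77MT

namespace Sy

attribute [local instance 100] LieRing.ofAssociativeRing

variable {K : Type*} [Field K] {X : Type*} [Fintype X] [DecidableEq X] (C : Sy K X)

section Trace

variable [CharZero K]

lemma trace_zero {x : Matrix X X K} (hx : x ∈ C.L) : x.trace = 0 := by
  have h1 : ∀ a, x (C.ng a) (C.ng a) = - x a a := by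
    intro a
    have := C.sy x hx a (C.ng a)
    rw [C.ng_ng, C.j_ng] at this
    apply mul_left_cancel₀ (C.j_ne a)
    linear_combination this
  have h2 : x.trace = - x.trace := by
    let e : X ≃ X := ⟨C.ng, C.ng, C.ng_ng, C.ng_ng⟩
    have h3 : ∑ a, x (e a) (e a) = ∑ a, x a a := Equiv.sum_comp e (fun a => x a a)
    have h4 : ∑ a, x (e a) (e a) = - ∑ a, x a a := by
      rw [← Finset.sum_neg_distrib]
      exact Finset.sum_congr rfl fun a _ => h1 a
    unfold trace
    simp only [diag_apply]
    rw [← h4, h3]
  exact self_eq_neg.mp h2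

/-- The trace form is nondegenerate on `L`. -/
lemma exists_trace_ne [IsAlgClosed K] {x : Matrix X X K} (hx : x ∈ C.L) (hx0 : x ≠ 0) :
    ∃ y ∈ C.L, (x * y).trace ≠ 0 := by
  let L' : LieSubalgebra K (Module.End K (X → K)) :=
    { carrier := {z | LinearMap.toMatrix' z ∈ C.L}
      add_mem' := by
        intro a b ha hb
        simp only [Set.mem_setOf_eq] at *
        rw [map_add]
        exact C.L.add_mem ha hb
      zero_mem' := by
        simp only [Set.mem_setOf_eq, map_zero]
        exact C.L.zero_mem
      smul_mem' := by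
        intro c a ha
        simp only [Set.mem_setOf_eq] at *
        rw [map_smul]
        exact C.L.smul_mem c ha
      lie_mem' := by
        intro a b ha hb
        have h1 : LinearMap.toMatrix' ⁅a, b⁆ = LinearMap.toMatrix' a * LinearMap.toMatrix' b -
            LinearMap.toMatrix' b * LinearMap.toMatrix' a := by
          rw [LieRing.of_associative_ring_bracket, map_sub, LinearMap.toMatrix'_mul,
            LinearMap.toMatrix'_mul]
        show LinearMap.toMatrix' ⁅a, b⁆ ∈ C.L
        rw [h1]
        exact C.br _ ha _ hb }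
  have hL' : ∀ z : Module.End K (X → K), z ∈ L' ↔ LinearMap.toMatrix' z ∈ C.L := fun z => Iff.rfl
  have htr : ∀ z w : Module.End K (X → K), LinearMap.trace K (X → K) (z * w) =
      (LinearMap.toMatrix' z * LinearMap.toMatrix' w).trace := by
    intro z w
    rw [LinearMap.trace_eq_matrix_trace K (Pi.basisFun K X), ← LinearMap.toMatrix'_mul]
    rfl
  by_contra hcon
  push Not at hcon
  let R : LieIdeal K L' :=
    { carrier := {z | ∀ w : L', LinearMap.trace K (X → K) ((z : Module.End K (X → K)) *
        (w : Module.End K (X → K))) = 0}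
      add_mem' := by
        intro a b ha hb w
        show LinearMap.trace K (X → K) (((a : Module.End K (X → K)) + b) * w) = 0
        rw [add_mul, map_add, ha w, hb w, add_zero]
      zero_mem' := by intro w; simp
      smul_mem' := by
        intro c a ha w
        show LinearMap.trace K (X → K) ((c • (a : Module.End K (X → K))) * w) = 0
        rw [smul_mul_assoc, map_smul, ha w, smul_zero]
      lie_mem := by
        intro y z hz w
        have h1 := hz ⁅w, y⁆
        have h2 : ∀ p q : Module.End K (X → K), LinearMap.trace K (X → K) (p * q) =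
            LinearMap.trace K (X → K) (q * p) := fun p q => LinearMap.trace_mul_comm K p q
        simp only [LieSubalgebra.coe_bracket, LieRing.of_associative_ring_bracket, sub_mul,
          mul_sub, map_sub] at h1 ⊢
        rw [h2 ((y : Module.End K (X → K)) * z) w, ← mul_assoc,
          h2 ((w : Module.End K (X → K)) * y) z]
        have h3 : LinearMap.trace K (X → K) ((z : Module.End K (X → K)) * y * w) =
            LinearMap.trace K (X → K) ((z : Module.End K (X → K)) * (y * w)) := by
          rw [mul_assoc]
        rw [h3]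
        exact h1 }
  have hR := MTP.ideal_eq_bot L' (by
      intro W hW
      apply C.irr W
      intro y hy v hv
      have h1 := hW (Matrix.toLin' y) ((hL' _).mpr (by rwa [LinearMap.toMatrix'_toLin'])) v hv
      rwa [Matrix.toLin'_apply] at h1) (by
      intro z hz
      have h1 := C.trace_zero ((hL' z).mp hz)
      rw [LinearMap.trace_eq_matrix_trace K (Pi.basisFun K X)]
      exact h1) R (by
      intro y hy y' _
      exact hy y')
  have hxR : (⟨Matrix.toLin' x, (hL' _).mpr (by rwa [LinearMap.toMatrix'_toLin'])⟩ : L') ∈ R := by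
    intro w
    rw [htr]
    have h1 := hcon (LinearMap.toMatrix' (w : Module.End K (X → K))) ((hL' _).mp w.2)
    simpa using h1
  rw [hR] at hxR
  have h2 : Matrix.toLin' x = 0 := by
    have := (LieSubmodule.mem_bot _).mp hxR
    exact congrArg Subtype.val this
  exact hx0 ((LinearEquiv.map_eq_zero_iff _).mp h2)

end Trace

/-- No weight is the midpoint of two others. -/
def NoMid : Prop := ∀ a b c, (∀ h : X → K, diagonal h ∈ C.L → h a + h c = 2 * h b) → a = b

variable {C}

lemma NoMid.not_par (hm : C.NoMid) {a b u v w : X} (hab : a ≠ b) (h1 : C.Par a b u v)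
    (h2 : C.Par a b v w) : False := by
  have h3 : u = v := hm u v w fun h hh => by linear_combination h2 h hh - h1 h hh
  subst h3
  exact hab h1.eq_of_eq

/-- A pair of root vectors attached to an edge. -/
structure Root (C : Sy K X) (a b : X) (e f : Matrix X X K) : Prop where
  emem : e ∈ C.L
  fmem : f ∈ C.L
  e0 : ∀ u v, ¬ C.Par a b u v → e u v = 0
  f0 : ∀ u v, ¬ C.Par a b u v → f v u = 0
  ef : ∀ u v, C.Par a b u v → e u v * f v u = 1

lemma Edge.exists_root [CharZero K] [IsAlgClosed K] (hm : C.NoMid) {a b : X} (hE : C.Edge a b) :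
    ∃ e f, Root C a b e f := by
  classical
  have hab := hE.1
  obtain ⟨x, hx, hxne, hxp⟩ := hE.exists_hom
  obtain ⟨y0, hy0, htr0⟩ := C.exists_trace_ne hx (fun h => hxne (by rw [h]; rfl))
  set y := C.cmp y0 b a with hy
  have hyL : y ∈ C.L := C.cmp_mem hy0 b a
  have hyp : ∀ u v, y v u ≠ 0 → C.Par a b u v := fun u v h => (C.par_of_cmp h).swap
  have htr : (x * y).trace ≠ 0 := by
    convert htr0 using 1
    unfold trace
    simp only [diag_apply, mul_apply]
    refine Finset.sum_congr rfl fun u _ => Finset.sum_congr rfl fun v _ => ?_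
    by_cases h : x u v = 0
    · rw [h, zero_mul, zero_mul]
    · rw [hy, C.cmp_apply_of (hxp u v h).swap]
  -- the bracket is diagonal
  have hz := C.br x hx y hyL
  set d : X → K := fun u => (x * y - y * x) u u with hd
  have hzd : x * y - y * x = diagonal d := by
    ext u v
    by_cases huv : u = v
    · subst huv; rw [diagonal_apply_eq]
    · rw [diagonal_apply_ne _ huv, Matrix.sub_apply, mul_apply, mul_apply, Finset.sum_eq_zero,
        Finset.sum_eq_zero, sub_zero]
      · intro k _
        by_contra hne
        have h1 := hyp k u (left_ne_zero_of_mul hne)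
        have h2 := hxp k v (right_ne_zero_of_mul hne)
        exact huv (h1.right_unique h2)
      · intro k _
        by_contra hne
        have h1 := hxp u k (left_ne_zero_of_mul hne)
        have h2 := hyp v k (right_ne_zero_of_mul hne)
        exact huv (h1.left_unique h2)
  rw [hzd] at hz
  have htop : ∀ u v, C.Par a b u v → d u = x u v * y v u := by
    intro u v huv
    rw [hd]
    simp only [Matrix.sub_apply, mul_apply]
    rw [Finset.sum_eq_single v, Finset.sum_eq_zero, sub_zero]
    · intro k _
      by_contra hne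
      exact hm.not_par hab (hxp k u (right_ne_zero_of_mul hne)) huv
    · intro k _ hk
      by_contra hne
      exact hk ((hxp u k (left_ne_zero_of_mul hne)).right_unique huv)
    · intro h; exact absurd (Finset.mem_univ _) h
  have hbot : ∀ u v, C.Par a b u v → d v = - (x u v * y v u) := by
    intro u v huv
    rw [hd]
    simp only [Matrix.sub_apply, mul_apply]
    rw [Finset.sum_eq_zero, Finset.sum_eq_single u, zero_sub, mul_comm]
    · intro k _ hk
      by_contra hne
      exact hk ((hxp k v (right_ne_zero_of_mul hne)).left_unique huv)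
    · intro h; exact absurd (Finset.mem_univ _) h
    · intro k _
      by_contra hne
      exact hm.not_par hab huv (hxp v k (left_ne_zero_of_mul hne))
  have hconst : ∀ u v, C.Par a b u v → x u v * y v u = x a b * y b a := by
    intro u v huv
    have h1 := huv d hz
    rw [htop u v huv, hbot u v huv, htop a b (C.par_refl a b), hbot a b (C.par_refl a b)] at h1
    have h2 : (2 : K) * (x u v * y v u) = 2 * (x a b * y b a) := by linear_combination -h1
    exact mul_left_cancel₀ two_ne_zero h2
  have hc : x a b * y b a ≠ 0 := by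
    intro h0
    apply htr
    unfold trace
    simp only [diag_apply, mul_apply]
    refine Finset.sum_eq_zero fun u _ => Finset.sum_eq_zero fun v _ => ?_
    by_cases h : C.Par a b u v
    · rw [hconst u v h, h0]
    · by_contra hne
      exact h (hxp u v (left_ne_zero_of_mul hne))
  refine ⟨x, (x a b * y b a)⁻¹ • y, hx, C.L.smul_mem _ hyL, ?_, ?_, ?_⟩
  · intro u v h
    by_contra hne
    exact h (hxp u v hne)
  · intro u v h
    rw [Matrix.smul_apply]
    by_contra hne
    refine h (hyp u v fun h0 => hne ?_)
    rw [h0, smul_zero]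
  · intro u v h
    rw [Matrix.smul_apply, smul_eq_mul, mul_left_comm, hconst u v h, inv_mul_cancel₀ hc]

lemma Edge.symm [CharZero K] [IsAlgClosed K] (hm : C.NoMid) {a b : X} (hE : C.Edge a b) :
    C.Edge b a := by
  obtain ⟨e, f, hr⟩ := hE.exists_root hm
  refine ⟨hE.1.symm, f, hr.fmem, ?_⟩
  have := hr.ef a b (C.par_refl a b)
  exact right_ne_zero_of_mul (by rw [this]; exact one_ne_zero)

lemma Edge.of_par [CharZero K] [IsAlgClosed K] (hm : C.NoMid) {a b u v : X} (hE : C.Edge a b)
    (hp : C.Par a b u v) : C.Edge u v := by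
  obtain ⟨e, f, hr⟩ := hE.exists_root hm
  refine ⟨fun h => hE.1 ?_, e, hr.emem, ?_⟩
  · subst h; exact hp.eq_of_eq
  · have := hr.ef u v hp
    exact left_ne_zero_of_mul (by rw [this]; exact one_ne_zero)

open Classical in
/-- The coroot attached to the pair `(a, b)`. -/
noncomputable def co (C : Sy K X) (a b u : X) : ℤ :=
  (∑ v, if C.Par a b u v then 1 else 0) - ∑ v, if C.Par a b v u then 1 else 0

open Classical in
/-- The number of pairs parallel to `(a, b)`. -/
noncomputable def rr (C : Sy K X) (a b : X) : ℤ := ∑ u, ∑ v, if C.Par a b u v then 1 else 0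

lemma rr_pos (a b : X) : 0 < rr C a b := by
  classical
  unfold rr
  have h1 : (0 : ℤ) < ∑ v, if C.Par a b a v then 1 else 0 :=
    Finset.sum_pos' (fun _ _ => by split_ifs <;> norm_num)
      ⟨b, Finset.mem_univ _, by rw [if_pos (C.par_refl a b)]; norm_num⟩
  exact Finset.sum_pos' (fun _ _ => Finset.sum_nonneg fun _ _ => by split_ifs <;> norm_num)
    ⟨a, Finset.mem_univ _, h1⟩

lemma sum_top_one {a b u v : X} (h : C.Par a b u v) [∀ w, Decidable (C.Par a b u w)] :
    (∑ w, if C.Par a b u w then (1 : ℤ) else 0) = 1 := by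
  rw [Finset.sum_eq_single v, if_pos h]
  · intro w _ hw
    rw [if_neg]
    exact fun h' => hw (h'.right_unique h)
  · intro hh; exact absurd (Finset.mem_univ _) hh

lemma sum_bot_one {a b u v : X} (h : C.Par a b u v) [∀ w, Decidable (C.Par a b w v)] :
    (∑ w, if C.Par a b w v then (1 : ℤ) else 0) = 1 := by
  rw [Finset.sum_eq_single u, if_pos h]
  · intro w _ hw
    rw [if_neg]
    exact fun h' => hw (h'.left_unique h)
  · intro hh; exact absurd (Finset.mem_univ _) hh

lemma co_top (hm : C.NoMid) {a b u v : X} (hab : a ≠ b) (h : C.Par a b u v) : co C a b u = 1 := by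
  classical
  unfold co
  rw [sum_top_one h, Finset.sum_eq_zero, sub_zero]
  intro w _
  rw [if_neg]
  exact fun h' => hm.not_par hab h' h

lemma co_bot (hm : C.NoMid) {a b u v : X} (hab : a ≠ b) (h : C.Par a b u v) :
    co C a b v = -1 := by
  classical
  unfold co
  rw [sum_bot_one h, Finset.sum_eq_zero, zero_sub]
  intro w _
  rw [if_neg]
  exact fun h' => hm.not_par hab h h'

lemma co_cases (hm : C.NoMid) {a b : X} (hab : a ≠ b) (u : X) :
    (co C a b u = 1 ∧ ∃ v, C.Par a b u v) ∨ (co C a b u = -1 ∧ ∃ v, C.Par a b v u) ∨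
      (co C a b u = 0 ∧ (∀ v, ¬ C.Par a b u v) ∧ ∀ v, ¬ C.Par a b v u) := by
  classical
  by_cases h1 : ∃ v, C.Par a b u v
  · obtain ⟨v, hv⟩ := h1
    exact Or.inl ⟨co_top hm hab hv, v, hv⟩
  by_cases h2 : ∃ v, C.Par a b v u
  · obtain ⟨v, hv⟩ := h2
    exact Or.inr (Or.inl ⟨co_bot hm hab hv, v, hv⟩)
  push Not at h1 h2
  refine Or.inr (Or.inr ⟨?_, h1, h2⟩)
  unfold co
  rw [Finset.sum_eq_zero, Finset.sum_eq_zero, sub_zero]
  · intro v _; rw [if_neg (h2 v)]
  · intro v _; rw [if_neg (h1 v)]

lemma co_cast (C : Sy K X) (a b u : X) [∀ v, Decidable (C.Par a b u v)]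
    [∀ v, Decidable (C.Par a b v u)] : ((co C a b u : ℤ) : K) =
    (∑ v, if C.Par a b u v then (1 : K) else 0) - ∑ v, if C.Par a b v u then 1 else 0 := by
  unfold co
  push_cast
  rfl

/-- The coroot belongs to `L`. -/
lemma co_mem [CharZero K] [IsAlgClosed K] (hm : C.NoMid) {a b : X} (hE : C.Edge a b) :
    diagonal (fun u => ((co C a b u : ℤ) : K)) ∈ C.L := by
  classical
  obtain ⟨e, f, hr⟩ := hE.exists_root hm
  have h1 := C.br e hr.emem f hr.fmem
  convert h1 using 1
  ext u v
  by_cases huv : u = v
  · subst huv
    rw [diagonal_apply_eq, co_cast, Matrix.sub_apply, mul_apply, mul_apply]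
    congr 1
    · refine Finset.sum_congr rfl fun k _ => ?_
      by_cases h : C.Par a b u k
      · rw [if_pos h, hr.ef u k h]
      · rw [if_neg h, hr.e0 u k h, zero_mul]
    · refine Finset.sum_congr rfl fun k _ => ?_
      by_cases h : C.Par a b k u
      · rw [if_pos h, mul_comm, hr.ef k u h]
      · rw [if_neg h, hr.e0 k u h, mul_zero]
  · rw [diagonal_apply_ne _ huv, Matrix.sub_apply, mul_apply, mul_apply, Finset.sum_eq_zero,
      Finset.sum_eq_zero, sub_zero]
    · intro k _
      by_contra hne
      have h1 : C.Par a b k u := by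
        by_contra hc; exact hne (by rw [hr.f0 k u hc, zero_mul])
      have h2 : C.Par a b k v := by
        by_contra hc; exact hne (by rw [hr.e0 k v hc, mul_zero])
      exact huv (h1.right_unique h2)
    · intro k _
      by_contra hne
      have h1 : C.Par a b u k := by
        by_contra hc; exact hne (by rw [hr.e0 u k hc, zero_mul])
      have h2 : C.Par a b v k := by
        by_contra hc; exact hne (by rw [hr.f0 v k hc, mul_zero])
      exact huv (h1.left_unique h2)

lemma co_ng [CharZero K] [IsAlgClosed K] (hm : C.NoMid) {a b : X} (hE : C.Edge a b) (u : X) :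
    co C a b (C.ng u) = - co C a b u := by
  have := C.diag_ng (co_mem hm hE) u
  exact_mod_cast this

lemma co_par [CharZero K] [IsAlgClosed K] (hm : C.NoMid) {a b c d u v : X} (hE : C.Edge c d)
    (hp : C.Par a b u v) : co C c d a - co C c d b = co C c d u - co C c d v := by
  have := hp _ (co_mem hm hE)
  exact_mod_cast this

lemma co_self (hm : C.NoMid) {a b : X} (hab : a ≠ b) : co C a b a - co C a b b = 2 := by
  rw [co_top hm hab (C.par_refl a b), co_bot hm hab (C.par_refl a b)]; norm_num

/-- The trace form of a diagonal element with a coroot. -/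
lemma sum_co (C : Sy K X) (a b : X) {h : X → K} (hh : diagonal h ∈ C.L) :
    ∑ u, h u * ((co C a b u : ℤ) : K) = ((rr C a b : ℤ) : K) * (h a - h b) := by
  classical
  have e1 : ∀ u, h u * ((co C a b u : ℤ) : K) =
      (∑ v, if C.Par a b u v then h u else 0) - ∑ v, if C.Par a b v u then h u else 0 := by
    intro u
    rw [co_cast, mul_sub, Finset.mul_sum, Finset.mul_sum]
    simp only [mul_ite, mul_one, mul_zero]
  simp_rw [e1]
  rw [Finset.sum_sub_distrib, Finset.sum_comm (f := fun u v => if C.Par a b v u then h u else 0),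
    ← Finset.sum_sub_distrib]
  simp_rw [← Finset.sum_sub_distrib]
  unfold rr
  push_cast
  rw [Finset.sum_mul]
  refine Finset.sum_congr rfl fun u _ => ?_
  rw [Finset.sum_mul]
  refine Finset.sum_congr rfl fun v _ => ?_
  by_cases hp : C.Par a b u v
  · simp only [if_pos hp]
    rw [hp h hh]; push_cast; ring
  · simp only [if_neg hp]; push_cast; ring

/-- Symmetry of the pairing of coroots. -/
lemma rr_co_symm [CharZero K] [IsAlgClosed K] (hm : C.NoMid) {a b c d : X} (hE : C.Edge a b)
    (hE' : C.Edge c d) :
    rr C a b * (co C c d a - co C c d b) = rr C c d * (co C a b c - co C a b d) := by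
  have h1 := sum_co C a b (co_mem hm hE')
  have h2 := sum_co C c d (co_mem hm hE)
  have h3 : ∑ u, ((co C c d u : ℤ) : K) * ((co C a b u : ℤ) : K) =
      ∑ u, ((co C a b u : ℤ) : K) * ((co C c d u : ℤ) : K) :=
    Finset.sum_congr rfl fun u _ => mul_comm _ _
  have h4 : ((rr C a b * (co C c d a - co C c d b) : ℤ) : K) =
      ((rr C c d * (co C a b c - co C a b d) : ℤ) : K) := by
    push_cast
    rw [← h1, ← h2, h3]
  exact_mod_cast h4

end Sy

end H77MT
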