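import Pool.Agent.Helper77.MT.Chain

/-!
The involution of the neighbours of a weight attached to a shortest chain.
-/

open Matrix

namespace H77MT

/-- The parity of the number of fixed points of an involution. -/
lemma card_fixed_parity {α : Type*} [DecidableEq α] (N : Finset α) (θ : α → α)
    (hN : ∀ v ∈ N, θ v ∈ N) (hθ : ∀ v ∈ N, θ (θ v) = v) :
    Even N.card ↔ Even (N.filter fun v => θ v = v).card := by
  have h1 : ∑ _v ∈ N.filter (fun v => ¬ θ v = v), (1 : ZMod 2) = 0 := by
    apply Finset.sum_involution (fun v _ => θ v)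
    · intro v _; decide
    · intro v hv _
      exact (Finset.mem_filter.mp hv).2
    · intro v hv
      rw [Finset.mem_filter] at hv ⊢
      refine ⟨hN v hv.1, fun h => hv.2 ?_⟩
      rw [hθ v hv.1] at h
      exact h.symm
    · intro v hv
      exact hθ v (Finset.mem_filter.mp hv).1
  rw [Finset.sum_const, nsmul_eq_mul, mul_one, ZMod.natCast_eq_zero_iff_even] at h1
  have h2 := Finset.card_filter_add_card_filter_not (s := N) (fun v => θ v = v)
  rw [← h2, Nat.even_add]
  simp [h1]

namespace Sy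

variable {K : Type*} [Field K] {X : Type*} [Fintype X] [DecidableEq X] {C : Sy K X}

/-- The product of the reflections attached to the elements of `I`. -/
def Sr (C : Sy K X) (I : Finset (X × X)) (u w : X) : Prop :=
  ∀ t : X → K, diagonal t ∈ C.L →
    t w = t u - ∑ c ∈ I, ((co C c.1 c.2 u : ℤ) : K) * (t c.1 - t c.2)

variable [CharZero K] [IsAlgClosed K]

lemma Sr.co_other (hm : C.NoMid) {I : Finset (X × X)} {a b u w : X} (hE : C.Edge a b)
    (h : Sr C I u w) : co C a b w = co C a b u -
      ∑ c ∈ I, co C c.1 c.2 u * (co C a b c.1 - co C a b c.2) := by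
  have := h _ (co_mem hm hE)
  exact_mod_cast this

lemma sr_exists (hm : C.NoMid) (I : Finset (X × X)) (hE : ∀ c ∈ I, C.Edge c.1 c.2)
    (ho : ∀ c ∈ I, ∀ d ∈ I, c ≠ d → co C d.1 d.2 c.1 - co C d.1 d.2 c.2 = 0) :
    (∀ u, ∃ w, Sr C I u w) ∧
    (∀ u v w w', C.Edge u v → Sr C I u w → Sr C I v w' → C.Edge w w') := by
  induction I using Finset.induction_on with
  | empty =>
    refine ⟨fun u => ⟨u, fun t _ => by simp⟩, fun u v w w' h h1 h2 => ?_⟩
    have e1 : w = u := C.eq_of_forall fun t ht => by simpa using h1 t ht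
    have e2 : w' = v := C.eq_of_forall fun t ht => by simpa using h2 t ht
    rw [e1, e2]; exact h
  | insert c I hc ih =>
    obtain ⟨ih1, ih2⟩ := ih (fun d hd => hE d (Finset.mem_insert_of_mem hd))
      (fun d hd d' hd' h => ho d (Finset.mem_insert_of_mem hd) d' (Finset.mem_insert_of_mem hd') h)
    have hEc := hE c (Finset.mem_insert_self c I)
    have key : ∀ u w0 w, Sr C I u w0 → (Sr C (insert c I) u w ↔ Rf C c.1 c.2 w0 w) := by
      intro u w0 w h0
      have h1 : co C c.1 c.2 w0 = co C c.1 c.2 u := by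
        rw [h0.co_other hm hEc, Finset.sum_eq_zero, sub_zero]
        intro d hd
        rw [ho d (Finset.mem_insert_of_mem hd) c (Finset.mem_insert_self c I)
          (fun h => hc (h ▸ hd)), mul_zero]
      constructor
      · intro h t ht
        rw [h t ht, Finset.sum_insert hc, h0 t ht, h1]; ring
      · intro h t ht
        rw [h t ht, Finset.sum_insert hc, h0 t ht, h1]; ring
    refine ⟨fun u => ?_, fun u v w w' h h1 h2 => ?_⟩
    · obtain ⟨w0, hw0⟩ := ih1 u
      obtain ⟨w, hw⟩ := exists_rf hm hEc.1 w0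
      exact ⟨w, (key u w0 w hw0).mpr hw⟩
    · obtain ⟨w0, hw0⟩ := ih1 u
      obtain ⟨w0', hw0'⟩ := ih1 v
      exact (hEc).refl hm (ih2 u v w0 w0' h hw0 hw0') ((key u w0 w hw0).mp h1)
        ((key v w0' w' hw0').mp h2)

open Classical in
/-- The neighbours of a weight. -/
noncomputable def nb (C : Sy K X) (v : X) : Finset X := Finset.univ.filter fun u => C.Edge u v

omit [CharZero K] [IsAlgClosed K] in
lemma mem_nb {u v : X} : u ∈ nb C v ↔ C.Edge u v := by simp [nb]

lemma Edge.ng (hm : C.NoMid) {a b : X} (h : C.Edge a b) : C.Edge (C.ng a) (C.ng b) :=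
  h.ng'.symm hm


/-- The properties of the involution `θ` attached to a chain. -/
structure Theta (C : Sy K X) (v0 : X) (I : Finset (X × X)) (θ : X → X) : Prop where
  val : ∀ (u : X) (t : X → K), diagonal t ∈ C.L →
    t (θ u) = - t u + ∑ c ∈ I, ((co C c.1 c.2 u : ℤ) : K) * (t c.1 - t c.2)
  cc : ∀ c ∈ I, ∀ d ∈ I, co C c.1 c.2 d.1 - co C c.1 c.2 d.2 = if d = c then 2 else 0
  co0 : ∀ c ∈ I, co C c.1 c.2 v0 = -1
  coθ : ∀ u, ∀ c ∈ I, co C c.1 c.2 (θ u) = co C c.1 c.2 u
  inv : ∀ u, θ (θ u) = u
  nb : ∀ v ∈ nb C v0, θ v ∈ Sy.nb C v0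
  fix : ∀ v ∈ Sy.nb C v0, θ v = v → ∃ c ∈ I, C.Par c.1 c.2 v v0
  step : ∀ c ∈ I, ∀ v, C.Par c.1 c.2 v v0 → v ∈ Sy.nb C v0 ∧ θ v = v ∧
    ∀ d ∈ I, co C d.1 d.2 v = -1 + if c = d then 2 else 0

theorem exists_theta (hm : C.NoMid) {v0 : X} {I : Finset (X × X)} (hI : Chain C hm v0 I) :
    ∃ θ, Theta C v0 I θ := by
  classical
  have hne : Nonempty X := ⟨v0⟩
  obtain ⟨hS1, hS2⟩ := sr_exists hm I hI.edge hI.orth
  choose S hS using hS1
  -- the involution
  set θ : X → X := fun u => C.ng (S u) with hθ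
  have hval : ∀ (u : X) (t : X → K), diagonal t ∈ C.L →
      t (θ u) = - t u + ∑ c ∈ I, ((co C c.1 c.2 u : ℤ) : K) * (t c.1 - t c.2) := by
    intro u t ht
    rw [hθ]
    simp only
    rw [C.diag_ng ht, hS u t ht]; ring
  -- values of coroots of the chain
  have hcc : ∀ c ∈ I, ∀ d ∈ I, co C c.1 c.2 d.1 - co C c.1 c.2 d.2 = if d = c then 2 else 0 := by
    intro c hc d hd
    split_ifs with h
    · subst h; exact co_self hm (hI.edge d hd).1
    · exact hI.orth d hd c hc h
  have hco0 : ∀ c ∈ I, co C c.1 c.2 v0 = -1 := by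
    intro c hc
    obtain ⟨v, hv⟩ := hI.bot c hc
    exact co_bot hm (hI.edge c hc).1 hv
  have hcoθ : ∀ u, ∀ c ∈ I, co C c.1 c.2 (θ u) = co C c.1 c.2 u := by
    intro u c hc
    have h1 := (hS u).co_other hm (hI.edge c hc)
    rw [hθ]
    simp only
    rw [co_ng hm (hI.edge c hc), h1]
    have h2 : ∑ d ∈ I, co C d.1 d.2 u * (co C c.1 c.2 d.1 - co C c.1 c.2 d.2) =
        2 * co C c.1 c.2 u := by
      rw [Finset.sum_eq_single c]
      · rw [hcc c hc c hc, if_pos rfl]; ring
      · intro d hd hdc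
        rw [hcc c hc d hd, if_neg hdc, mul_zero]
      · intro h; exact absurd hc h
    rw [h2]; ring
  have hθθ : ∀ u, θ (θ u) = u := by
    intro u
    apply C.eq_of_forall
    intro t ht
    rw [hval (θ u) t ht, Finset.sum_congr rfl fun c hc => by rw [hcoθ u c hc], hval u t ht]
    ring
  have hθv0 : θ v0 = v0 := by
    apply C.eq_of_forall
    intro t ht
    rw [hval v0 t ht]
    have h1 : ∑ c ∈ I, ((co C c.1 c.2 v0 : ℤ) : K) * (t c.1 - t c.2) =
        - ∑ c ∈ I, (t c.1 - t c.2) := by
      rw [← Finset.sum_neg_distrib]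
      refine Finset.sum_congr rfl fun c hc => ?_
      rw [hco0 c hc]; push_cast; ring
    rw [h1, hI.sum t ht]; ring
  have hθE : ∀ u v, C.Edge u v → C.Edge (θ u) (θ v) := by
    intro u v h
    exact (hS2 u v _ _ h (hS u) (hS v)).ng hm
  have hN : ∀ v ∈ nb C v0, θ v ∈ nb C v0 := by
    intro v hv
    rw [mem_nb] at hv ⊢
    have := hθE v v0 hv
    rwa [hθv0] at this
  refine ⟨θ, hval, hcc, hco0, hcoθ, hθθ, hN, ?_, ?_⟩
  · intro v hv hfix
    have hEv := mem_nb.mp hv
    -- `m c = co_c v + 1`, `n c = γ_c (H_α)`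
    set m : X × X → ℤ := fun c => co C c.1 c.2 v + 1 with hmdef
    set n : X × X → ℤ := fun c => co C v v0 c.1 - co C v v0 c.2 with hndef
    have hsym : ∀ c ∈ I, rr C v v0 * m c = rr C c.1 c.2 * n c := by
      intro c hc
      have := rr_co_symm hm hEv (hI.edge c hc)
      rw [hco0 c hc, sub_neg_eq_add] at this
      exact this
    have hm_range : ∀ c ∈ I, m c = 0 ∨ m c = 1 ∨ m c = 2 := by
      intro c hc
      rcases co_cases hm (hI.edge c hc).1 v with h | h | h
      · right; right; rw [hmdef]; simp only; rw [h.1]; norm_num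
      · left; rw [hmdef]; simp only; rw [h.1]; norm_num
      · right; left; rw [hmdef]; simp only; rw [h.1]; norm_num
    have hn_nonneg : ∀ c ∈ I, 0 ≤ n c := by
      intro c hc
      have h1 := hsym c hc
      have h2 := rr_pos (C := C) v v0
      have h3 := rr_pos (C := C) c.1 c.2
      have h4 : 0 ≤ m c := by rcases hm_range c hc with h | h | h <;> rw [h] <;> norm_num
      by_contra hcon
      push Not at hcon
      have h5 : rr C c.1 c.2 * n c < 0 := mul_neg_of_pos_of_neg h3 hcon
      have h6 : 0 ≤ rr C v v0 * m c := mul_nonneg h2.le h4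
      linarith
    have hB : ∑ c ∈ I, n c = 2 := by
      have h1 := hI.sum _ (co_mem hm hEv)
      have h2 : co C v v0 v0 = -1 := co_bot hm hEv.1 (C.par_refl v v0)
      rw [h2] at h1
      have h3 : ((∑ c ∈ I, n c : ℤ) : K) = ((2 : ℤ) : K) := by
        push_cast
        rw [hndef]
        simp only
        push_cast
        rw [h1]; push_cast; norm_num
      exact_mod_cast h3
    have hA : ∑ c ∈ I, m c * n c = 4 := by
      have h1 := hval v _ (co_mem hm hEv)
      rw [hfix] at h1
      have h2 : co C v v0 v = 1 := co_top hm hEv.1 (C.par_refl v v0)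
      rw [h2] at h1
      have h3 : ((∑ c ∈ I, co C c.1 c.2 v * n c : ℤ) : K) = ((2 : ℤ) : K) := by
        push_cast
        rw [hndef]
        simp only
        push_cast at h1 ⊢
        linear_combination -h1
      have h4 : ∑ c ∈ I, co C c.1 c.2 v * n c = 2 := by exact_mod_cast h3
      have h5 : ∑ c ∈ I, m c * n c = ∑ c ∈ I, co C c.1 c.2 v * n c + ∑ c ∈ I, n c := by
        rw [← Finset.sum_add_distrib]
        exact Finset.sum_congr rfl fun c _ => by rw [hmdef]; ring
      rw [h5, h4, hB]; norm_num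
    have hzero : ∀ c ∈ I, (2 - m c) * n c = 0 := by
      have h1 : ∑ c ∈ I, (2 - m c) * n c = 0 := by
        have : ∑ c ∈ I, (2 - m c) * n c = 2 * ∑ c ∈ I, n c - ∑ c ∈ I, m c * n c := by
          rw [Finset.mul_sum, ← Finset.sum_sub_distrib]
          exact Finset.sum_congr rfl fun c _ => by ring
        rw [this, hA, hB]; norm_num
      refine (Finset.sum_eq_zero_iff_of_nonneg fun c hc => ?_).mp h1
      refine mul_nonneg ?_ (hn_nonneg c hc)
      rcases hm_range c hc with h | h | h <;> rw [h] <;> norm_num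
    -- the set where `n` does not vanish
    set J := I.filter fun c => n c ≠ 0 with hJ
    have hJm : ∀ c ∈ J, m c = 2 := by
      intro c hc
      rw [hJ, Finset.mem_filter] at hc
      rcases mul_eq_zero.mp (hzero c hc.1) with h | h
      · linarith
      · exact absurd h hc.2
    have hJm0 : ∀ c ∈ I, c ∉ J → m c = 0 := by
      intro c hc hcJ
      have h0 : n c = 0 := by
        by_contra h
        exact hcJ (Finset.mem_filter.mpr ⟨hc, h⟩)
      have h1 := hsym c hc
      rw [h0, mul_zero] at h1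
      rcases mul_eq_zero.mp h1 with h | h
      · exact absurd h (rr_pos (C := C) v v0).ne'
      · exact h
    have hJI : J ⊆ I := Finset.filter_subset _ _
    have hJsum : ∑ c ∈ J, n c = 2 := by
      rw [← hB]
      refine Finset.sum_subset hJI fun c hc hcJ => ?_
      by_contra h
      exact hcJ (Finset.mem_filter.mpr ⟨hc, h⟩)
    have hJpos : ∀ c ∈ J, 1 ≤ n c := by
      intro c hc
      have h1 := hn_nonneg c (hJI hc)
      have h2 : n c ≠ 0 := (Finset.mem_filter.mp hc).2
      omega
    have hJcard : (J.card : ℤ) ≤ 2 := by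
      rw [← hJsum]
      calc (J.card : ℤ) = ∑ c ∈ J, (1 : ℤ) := by simp
        _ ≤ ∑ c ∈ J, n c := Finset.sum_le_sum hJpos
    have hJne : J.Nonempty := by
      rw [Finset.nonempty_iff_ne_empty]
      intro h
      rw [h, Finset.sum_empty] at hJsum
      norm_num at hJsum
    -- position of `v`
    have hpos : ∀ t : X → K, diagonal t ∈ C.L → t v = t v0 + ∑ c ∈ J, (t c.1 - t c.2) := by
      intro t ht
      have h1 := hval v t ht
      rw [hfix] at h1
      have h2 := hI.sum t ht
      have h3 : ∑ c ∈ I, ((m c : ℤ) : K) * (t c.1 - t c.2) = 2 * ∑ c ∈ J, (t c.1 - t c.2) := by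
        rw [Finset.mul_sum]
        symm
        rw [← Finset.sum_subset hJI]
        · refine Finset.sum_congr rfl fun c hc => ?_
          rw [hJm c hc]; push_cast; ring
        · intro c hc hcJ
          rw [hJm0 c hc hcJ]; push_cast; ring
      have h4 : ∑ c ∈ I, ((m c : ℤ) : K) * (t c.1 - t c.2) =
          ∑ c ∈ I, ((co C c.1 c.2 v : ℤ) : K) * (t c.1 - t c.2) + ∑ c ∈ I, (t c.1 - t c.2) := by
        rw [← Finset.sum_add_distrib]
        refine Finset.sum_congr rfl fun c _ => ?_
        rw [hmdef]; push_cast; ring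
      have h5 : (2 : K) * t v = 2 * (t v0 + ∑ c ∈ J, (t c.1 - t c.2)) := by
        linear_combination h1 + h3 - h4 - h2
      exact mul_left_cancel₀ two_ne_zero h5
    have hJ12 : J.card = 1 ∨ J.card = 2 := by
      have h1 := hJne.card_pos
      have h2 : J.card ≤ 2 := by exact_mod_cast hJcard
      omega
    rcases hJ12 with h1 | h2
    · obtain ⟨c, hc⟩ := Finset.card_eq_one.mp h1
      have hcI : c ∈ I := hJI (by rw [hc]; exact Finset.mem_singleton_self c)
      refine ⟨c, hcI, fun t ht => ?_⟩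
      have h3 := hpos t ht
      rw [hc, Finset.sum_singleton] at h3
      linear_combination -h3
    · exfalso
      obtain ⟨c, d, hcd, hJcd⟩ := Finset.card_eq_two.mp h2
      have hcI : c ∈ I := hJI (by rw [hJcd]; simp)
      have hdI : d ∈ I := hJI (by rw [hJcd]; simp)
      obtain ⟨w, hw, hdist⟩ := hI.two c hcI d hdI hcd
      have hwv : w = v := by
        apply C.eq_of_forall
        intro t ht
        rw [hw t ht, hpos t ht, hJcd, Finset.sum_pair hcd]; ring
      rw [hwv] at hdist
      have h3 : (gr C hm).dist v v0 = 1 := SimpleGraph.dist_eq_one_iff_adj.mpr hEv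
      have h4 := (gr_connected hm).dist_triangle (u := C.ng v0) (v := v) (w := v0)
      unfold ds at hdist
      omega
  · intro c hc v hv
    have hEc := hI.edge c hc
    have h1 : ∀ d ∈ I, co C d.1 d.2 v = -1 + if c = d then 2 else 0 := by
      intro d hd
      have h2 := co_par hm (hI.edge d hd) hv
      rw [hcc d hd c hc, hco0 d hd] at h2
      linarith
    refine ⟨mem_nb.mpr (hEc.of_par hm hv), ?_, h1⟩
    apply C.eq_of_forall
    intro t ht
    rw [hval _ t ht]
    have h3 : ∑ d ∈ I, ((co C d.1 d.2 v : ℤ) : K) * (t d.1 - t d.2) =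
        - ∑ d ∈ I, (t d.1 - t d.2) + 2 * (t c.1 - t c.2) := by
      have h4 : ∀ d ∈ I, ((co C d.1 d.2 v : ℤ) : K) * (t d.1 - t d.2) =
          - (t d.1 - t d.2) + if c = d then 2 * (t d.1 - t d.2) else 0 := by
        intro d hd
        rw [h1 d hd]
        split_ifs <;> push_cast <;> ring
      rw [Finset.sum_congr rfl h4, Finset.sum_add_distrib, Finset.sum_neg_distrib,
        Finset.sum_ite_eq, if_pos hc]
    rw [h3, hI.sum t ht]
    have h5 := hv t ht
    linear_combination 2 * h5

end Sy

end H77MT
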