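import Mathlib

/-!
Zariski closure of a set of square matrices (in terms of polynomials in the entries), and the
space of matrices `A` such that the left invariant derivation attached to `A` preserves the
vanishing ideal.
-/

open MvPolynomial

namespace H77MT

variable {K : Type*} [Field K] {n : Type*} [Fintype n] [DecidableEq n]

/-- The value of a polynomial in the entries at a matrix. -/
noncomputable def ev (x : Matrix n n K) : MvPolynomial (n × n) K →ₐ[K] K :=
  aeval (fun p => x p.1 p.2)

@[simp] lemma ev_X (x : Matrix n n K) (p : n × n) : ev x (X p) = x p.1 p.2 := by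
  simp [ev]

@[simp] lemma ev_C (x : Matrix n n K) (c : K) : ev x (C c) = c := by
  simp [ev]

/-- The set of matrices at which all polynomials vanishing on `S` vanish. -/
def zcl (S : Set (Matrix n n K)) : Set (Matrix n n K) :=
  {x | ∀ f : MvPolynomial (n × n) K, (∀ s ∈ S, ev s f = 0) → ev x f = 0}

lemma subset_zcl (S : Set (Matrix n n K)) : S ⊆ zcl S := fun _ hs _ hf => hf _ hs

/-- The derivation `f ↦ (d/dt) f (x (1 + t A))`. -/
noncomputable def DD (A : Matrix n n K) :
    Derivation K (MvPolynomial (n × n) K) (MvPolynomial (n × n) K) :=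
  mkDerivation K (fun p => ∑ k, C (A k p.2) * X (p.1, k))

@[simp] lemma DD_X (A : Matrix n n K) (p : n × n) :
    DD A (X p) = ∑ k, C (A k p.2) * X (p.1, k) := by
  simp [DD]

@[simp] lemma DD_C (A : Matrix n n K) (c : K) : DD A (C c) = 0 := by
  simp [DD]

lemma DD_add (A B : Matrix n n K) : DD (A + B) = DD A + DD B := by
  apply MvPolynomial.derivation_ext
  intro p
  simp only [DD_X, Derivation.add_apply, Matrix.add_apply, C_add, add_mul]
  rw [Finset.sum_add_distrib]

lemma DD_smul (c : K) (A : Matrix n n K) : DD (c • A) = c • DD A := by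
  apply MvPolynomial.derivation_ext
  intro p
  simp only [DD_X, Derivation.smul_apply, Matrix.smul_apply, smul_eq_mul, Finset.smul_sum,
    C_mul, MvPolynomial.smul_eq_C_mul, mul_assoc]

lemma DD_zero : DD (0 : Matrix n n K) = 0 := by
  apply MvPolynomial.derivation_ext
  intro p
  simp

lemma DD_mul_X (A B : Matrix n n K) (p : n × n) :
    DD A (DD B (X p)) = DD (A * B) (X p) := by
  have e : ∀ k, DD A (C (B k p.2) * X (p.1, k) : MvPolynomial (n × n) K) =
      ∑ l, C (A l k * B k p.2) * X (p.1, l) := by
    intro k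
    rw [Derivation.leibniz, DD_C, smul_zero, add_zero, DD_X, smul_eq_mul, Finset.mul_sum]
    refine Finset.sum_congr rfl fun l _ => ?_
    simp only [C_mul]; ring
  rw [DD_X, map_sum, DD_X]
  simp_rw [e]
  rw [Finset.sum_comm]
  refine Finset.sum_congr rfl fun l _ => ?_
  rw [← Finset.sum_mul, ← map_sum, ← Matrix.mul_apply]

lemma DD_bracket (A B : Matrix n n K) (f : MvPolynomial (n × n) K) :
    DD (A * B - B * A) f = DD A (DD B f) - DD B (DD A f) := by
  have h : DD (A * B - B * A) = ⁅DD A, DD B⁆ := by
    apply MvPolynomial.derivation_ext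
    intro p
    rw [Derivation.commutator_apply, DD_mul_X, DD_mul_X, sub_eq_add_neg, DD_add,
      ← neg_one_smul K (B * A), DD_smul]
    simp [sub_eq_add_neg]
  rw [h, Derivation.commutator_apply]

/-- The matrices `A` such that `D_A` preserves the vanishing ideal of `S`. -/
noncomputable def LL (S : Set (Matrix n n K)) : Submodule K (Matrix n n K) where
  carrier := {A | ∀ f : MvPolynomial (n × n) K, (∀ s ∈ S, ev s f = 0) →
    ∀ s ∈ S, ev s (DD A f) = 0}
  add_mem' := by
    intro A B hA hB f hf s hs
    rw [DD_add, Derivation.add_apply, map_add, hA f hf s hs, hB f hf s hs, add_zero]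
  zero_mem' := by
    intro f _ s _
    rw [DD_zero]; simp
  smul_mem' := by
    intro c A hA f hf s hs
    rw [DD_smul, Derivation.smul_apply, map_smul, hA f hf s hs, smul_zero]

lemma mem_LL {S : Set (Matrix n n K)} {A : Matrix n n K} : A ∈ LL S ↔
    ∀ f : MvPolynomial (n × n) K, (∀ s ∈ S, ev s f = 0) → ∀ s ∈ S, ev s (DD A f) = 0 := Iff.rfl

lemma LL_bracket {S : Set (Matrix n n K)} {A B : Matrix n n K} (hA : A ∈ LL S) (hB : B ∈ LL S) :
    A * B - B * A ∈ LL S := by
  intro f hf s hs
  rw [DD_bracket, map_sub, hA _ (hB f hf) s hs, hB _ (hA f hf) s hs, sub_zero]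

/-- Right translation. -/
noncomputable def rt (g : Matrix n n K) : MvPolynomial (n × n) K →ₐ[K] MvPolynomial (n × n) K :=
  aeval (fun p => ∑ k, C (g k p.2) * X (p.1, k))

lemma rt_X (g : Matrix n n K) (p : n × n) : rt g (X p) = ∑ k, C (g k p.2) * X (p.1, k) := by
  simp [rt]

lemma rt_C (g : Matrix n n K) (c : K) : rt g (C c) = C c := by
  simp [rt, MvPolynomial.algebraMap_eq]

lemma ev_rt (x g : Matrix n n K) (f : MvPolynomial (n × n) K) :
    ev x (rt g f) = ev (x * g) f := by
  have h : (ev x).comp (rt g) = ev (x * g) := by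
    apply MvPolynomial.algHom_ext
    intro p
    rw [AlgHom.comp_apply, rt_X, map_sum, ev_X, Matrix.mul_apply]
    refine Finset.sum_congr rfl fun k _ => ?_
    rw [map_mul, ev_C, ev_X, mul_comm]
  rw [← h]; rfl

/-- Left translation. -/
noncomputable def lt (g : Matrix n n K) : MvPolynomial (n × n) K →ₐ[K] MvPolynomial (n × n) K :=
  aeval (fun p => ∑ k, C (g p.1 k) * X (k, p.2))

lemma ev_lt (x g : Matrix n n K) (f : MvPolynomial (n × n) K) :
    ev x (lt g f) = ev (g * x) f := by
  have h : (ev x).comp (lt g) = ev (g * x) := by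
    apply MvPolynomial.algHom_ext
    intro p
    simp [lt, Matrix.mul_apply]
  rw [← h]; rfl

lemma DD_rt (A g g' : Matrix n n K) (hg : g * g' = 1) (f : MvPolynomial (n × n) K) :
    DD A (rt g f) = rt g (DD (g' * A * g) f) := by
  induction f using MvPolynomial.induction_on with
  | C c => simp [rt_C]
  | add p q hp hq => simp only [map_add, hp, hq]
  | mul_X p i hp =>
    have hX : DD A (rt g (X i)) = rt g (DD (g' * A * g) (X i)) := by
      have h1 : g * (g' * A * g) = A * g := by
        rw [← Matrix.mul_assoc, ← Matrix.mul_assoc, hg, Matrix.one_mul]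
      rw [rt_X, DD_X, map_sum, map_sum]
      have e1 : ∀ k, DD A (C (g k i.2) * X (i.1, k) : MvPolynomial (n × n) K) =
          ∑ l, C (A l k * g k i.2) * X (i.1, l) := by
        intro k
        rw [Derivation.leibniz, DD_C, smul_zero, add_zero, DD_X, smul_eq_mul, Finset.mul_sum]
        refine Finset.sum_congr rfl fun l _ => ?_
        simp only [C_mul]; ring
      have e2 : ∀ k, rt g (C ((g' * A * g) k i.2) * X (i.1, k)) =
          ∑ l, C (g l k * (g' * A * g) k i.2) * X (i.1, l) := by
        intro k
        rw [map_mul, rt_C, rt_X, Finset.mul_sum]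
        refine Finset.sum_congr rfl fun l _ => ?_
        simp only [C_mul]; ring
      simp_rw [e1, e2]
      rw [Finset.sum_comm]
      conv_rhs => rw [Finset.sum_comm]
      refine Finset.sum_congr rfl fun l _ => ?_
      rw [← Finset.sum_mul, ← Finset.sum_mul, ← map_sum, ← map_sum, ← Matrix.mul_apply,
        ← Matrix.mul_apply, h1]
    simp only [map_mul, Derivation.leibniz, hp, hX, map_add, smul_eq_mul]

lemma LL_conj {S : Set (Matrix n n K)} (hmul : ∀ s ∈ S, ∀ t ∈ S, s * t ∈ S)
    {A g g' : Matrix n n K} (hA : A ∈ LL S) (hg : g ∈ S) (hg' : g' ∈ S) (h1 : g * g' = 1) :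
    g' * A * g ∈ LL S := by
  intro f hf s hs
  have h2 : g' * g = 1 := mul_eq_one_comm.mp h1
  have h := hA (rt g f) (fun t ht => by rw [ev_rt]; exact hf _ (hmul t ht g hg)) (s * g')
    (hmul s hs g' hg')
  rw [DD_rt A g g' h1, ev_rt, Matrix.mul_assoc, h2, Matrix.mul_one] at h
  exact h

lemma zcl_mul {S : Set (Matrix n n K)} (hmul : ∀ s ∈ S, ∀ t ∈ S, s * t ∈ S)
    {x y : Matrix n n K} (hx : x ∈ zcl S) (hy : y ∈ zcl S) : x * y ∈ zcl S := by
  intro f hf
  have h1 : ∀ s ∈ S, ev s (rt y f) = 0 := by
    intro s hs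
    rw [ev_rt, ← ev_lt]
    exact hy _ fun t ht => by rw [ev_lt]; exact hf _ (hmul s hs t ht)
  have := hx _ h1
  rwa [ev_rt] at this

/-- A square zero element of `LL S` exponentiates into the Zariski closure. -/
lemma one_add_mem_zcl [CharZero K] {S : Set (Matrix n n K)} (h1 : (1 : Matrix n n K) ∈ S)
    {A : Matrix n n K} (hA : A ∈ LL S) (hAA : A * A = 0) (c : K) : 1 + c • A ∈ zcl S := by
  intro f hf
  let Φ : MvPolynomial (n × n) K →ₐ[K] Polynomial K :=
    aeval (fun p => Polynomial.C ((1 : Matrix n n K) p.1 p.2) +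
      Polynomial.C (A p.1 p.2) * Polynomial.X)
  have hΦX : ∀ p : n × n, Φ (X p) = Polynomial.C ((1 : Matrix n n K) p.1 p.2) +
      Polynomial.C (A p.1 p.2) * Polynomial.X := fun p => by simp [Φ]
  have hΦC : ∀ a : K, Φ (C a) = Polynomial.C a := fun a => by
    simp [Φ, Polynomial.algebraMap_eq]
  have hev : ∀ (z : K) (q : MvPolynomial (n × n) K), (Φ q).eval z = ev (1 + z • A) q := by
    intro z q
    induction q using MvPolynomial.induction_on with
    | C a => simp [hΦC]
    | add p q hp hq => simp only [map_add, Polynomial.eval_add, hp, hq]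
    | mul_X p i hp =>
      rw [map_mul, Polynomial.eval_mul, hp, hΦX, map_mul, ev_X, Polynomial.eval_add,
        Polynomial.eval_mul, Polynomial.eval_C, Polynomial.eval_C, Polynomial.eval_X,
        Matrix.add_apply, Matrix.smul_apply, smul_eq_mul, mul_comm z]
  have hder : ∀ q : MvPolynomial (n × n) K, Polynomial.derivative (Φ q) = Φ (DD A q) := by
    intro q
    induction q using MvPolynomial.induction_on with
    | C a => simp [hΦC]
    | add p q hp hq => simp only [map_add, hp, hq]
    | mul_X p i hp =>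
      have hX : Polynomial.derivative (Φ (X i)) = Φ (DD A (X i)) := by
        rw [hΦX, DD_X, map_sum]
        have e : ∀ k, Φ (C (A k i.2) * X (i.1, k)) =
            Polynomial.C ((1 : Matrix n n K) i.1 k * A k i.2) +
            Polynomial.C (A i.1 k * A k i.2) * Polynomial.X := by
          intro k
          rw [map_mul, hΦC, hΦX]
          simp only [Polynomial.C_mul]
          ring
        simp_rw [e]
        rw [Finset.sum_add_distrib, ← Finset.sum_mul, ← map_sum, ← map_sum, ← Matrix.mul_apply,
          ← Matrix.mul_apply, hAA, Matrix.one_mul]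
        simp
      rw [map_mul, Polynomial.derivative_mul, hp, hX, Derivation.leibniz, map_add]
      simp only [smul_eq_mul, map_mul]
      ring
  have hit : ∀ k : ℕ, ∃ q : MvPolynomial (n × n) K, (∀ s ∈ S, ev s q = 0) ∧
      Polynomial.derivative^[k] (Φ f) = Φ q := by
    intro k
    induction k with
    | zero => exact ⟨f, hf, rfl⟩
    | succ k ih =>
      obtain ⟨q, hq, he⟩ := ih
      refine ⟨DD A q, hA q hq, ?_⟩
      rw [Function.iterate_succ_apply', he, hder]
  have h0 : Φ f = 0 := by
    ext k
    obtain ⟨q, hq, he⟩ := hit k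
    have h2 : (Polynomial.derivative^[k] (Φ f)).coeff 0 = 0 := by
      rw [he, Polynomial.coeff_zero_eq_eval_zero, hev]
      simpa using hq 1 h1
    rw [Polynomial.coeff_iterate_derivative] at h2
    simp only [zero_add, Nat.descFactorial_self, nsmul_eq_mul, mul_eq_zero, Nat.cast_eq_zero] at h2
    rcases h2 with h2 | h2
    · exact absurd h2 (Nat.factorial_ne_zero k)
    · simpa using h2
  rw [← hev, h0, Polynomial.eval_zero]

/-- A finite relation that holds for all powers holds for all functions of the values. -/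
lemma sum_factor {ι : Type*} (s : Finset ι) (c v : ι → K)
    (h : ∀ m : ℕ, ∑ i ∈ s, c i * v i ^ m = 0) (g : ι → K)
    (hg : ∀ i ∈ s, ∀ j ∈ s, v i = v j → g i = g j) : ∑ i ∈ s, c i * g i = 0 := by
  classical
  have hex : ∀ y : K, ∃ z : K, ∀ i ∈ s, v i = y → z = g i := by
    intro y
    by_cases hy : ∃ i ∈ s, v i = y
    · obtain ⟨i, hi, hiy⟩ := hy
      exact ⟨g i, fun j hj hjy => hg i hi j hj (hiy.trans hjy.symm)⟩
    · exact ⟨0, fun i hi hiy => absurd ⟨i, hi, hiy⟩ hy⟩
  choose φ hφ using hex
  let p : Polynomial K := Lagrange.interpolate (s.image v) id φ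
  have hp : ∀ i ∈ s, p.eval (v i) = g i := by
    intro i hi
    have := Lagrange.eval_interpolate_at_node (s := s.image v) (v := id) φ
      (Set.injOn_id _) (Finset.mem_image_of_mem v hi)
    rw [← hφ (v i) i hi rfl]
    exact this
  calc ∑ i ∈ s, c i * g i = ∑ i ∈ s, c i * p.eval (v i) :=
        Finset.sum_congr rfl fun i hi => by rw [hp i hi]
    _ = ∑ i ∈ s, ∑ m ∈ Finset.range (p.natDegree + 1), p.coeff m * (c i * v i ^ m) := by
        refine Finset.sum_congr rfl fun i _ => ?_
        rw [Polynomial.eval_eq_sum_range, Finset.mul_sum]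
        exact Finset.sum_congr rfl fun m _ => by ring
    _ = ∑ m ∈ Finset.range (p.natDegree + 1), p.coeff m * ∑ i ∈ s, c i * v i ^ m := by
        rw [Finset.sum_comm]
        exact Finset.sum_congr rfl fun m _ => by rw [Finset.mul_sum]
    _ = 0 := Finset.sum_eq_zero fun m _ => by rw [h m, mul_zero]

/-- A rational valued additive character of the group generated by the eigenvalues of a diagonal
element lies in `LL S`. -/
lemma torus_mem_LL {F : Type*} [Field F] (ψ : F →+* K) [CharZero K] {S : Set (Matrix n n K)}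
    (a : n → Fˣ) (hS : ∀ s ∈ S, ∀ m : ℕ, s * Matrix.diagonal (fun i => ψ (a i) ^ m) ∈ S)
    (χ : Additive Fˣ →+ ℚ) :
    Matrix.diagonal (fun i => ((χ (Additive.ofMul (a i)) : ℚ) : K)) ∈ LL S := by
  intro f hf s hs
  set h : n → K := fun i => ((χ (Additive.ofMul (a i)) : ℚ) : K) with hh
  let Ψ : MvPolynomial (n × n) K →ₐ[K] MvPolynomial n K :=
    aeval (fun p : n × n => C (s p.1 p.2) * X p.2)
  have hΨX : ∀ p : n × n, Ψ (X p) = C (s p.1 p.2) * X p.2 := fun p => by simp [Ψ]
  have hΨC : ∀ c : K, Ψ (C c) = C c := fun c => by simp [Ψ, MvPolynomial.algebraMap_eq]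
  let E : Derivation K (MvPolynomial n K) (MvPolynomial n K) :=
    mkDerivation K (fun i => C (h i) * X i)
  have hEX : ∀ i, E (X i) = C (h i) * X i := fun i => by simp [E]
  have hEC : ∀ c : K, E (C c) = 0 := fun c => by simp [E]
  have hev : ∀ (z : n → K) (q : MvPolynomial (n × n) K),
      MvPolynomial.eval z (Ψ q) = ev (s * Matrix.diagonal z) q := by
    intro z q
    induction q using MvPolynomial.induction_on with
    | C a => rw [hΨC, ev_C, eval_C]
    | add p q hp hq => simp only [map_add, hp, hq]
    | mul_X p i hp =>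
      have e1 : MvPolynomial.eval z (Ψ (X i)) = ev (s * Matrix.diagonal z) (X i) := by
        rw [hΨX, map_mul, ev_X, Matrix.mul_diagonal, eval_C, eval_X]
      rw [map_mul, map_mul, map_mul, hp, e1]
  have hcomm : ∀ q : MvPolynomial (n × n) K, E (Ψ q) = Ψ (DD (Matrix.diagonal h) q) := by
    intro q
    induction q using MvPolynomial.induction_on with
    | C a => simp [hΨC, hEC]
    | add p q hp hq => simp only [map_add, hp, hq]
    | mul_X p i hp =>
      have hX : E (Ψ (X i)) = Ψ (DD (Matrix.diagonal h) (X i)) := by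
        rw [hΨX, Derivation.leibniz, hEC, hEX, DD_X, Finset.sum_eq_single i.2]
        · rw [Matrix.diagonal_apply_eq, map_mul, hΨC, hΨX, smul_zero, add_zero, smul_eq_mul]
          ring
        · intro k _ hk
          rw [Matrix.diagonal_apply_ne _ hk]; simp
        · intro hk; exact absurd (Finset.mem_univ _) hk
      rw [map_mul, Derivation.leibniz, hp, hX, Derivation.leibniz, map_add]
      simp only [smul_eq_mul, map_mul]
  have hmon : ∀ (α : n →₀ ℕ) (c : K), MvPolynomial.eval (fun _ => (1 : K)) (E (monomial α c)) =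
      c * ∑ i, (α i : K) * h i := by
    intro α c
    have e : ∀ (t : n →₀ ℕ) (c : K), MvPolynomial.eval (fun _ => (1 : K)) (monomial t c) = c := by
      intro t c
      rw [eval_monomial]; simp
    simp only [E]
    rw [mkDerivation_monomial, smul_eval, Finsupp.sum, map_sum]
    congr 1
    rw [Finset.sum_subset (Finset.subset_univ _)]
    · refine Finset.sum_congr rfl fun i _ => ?_
      rw [smul_eq_mul, map_mul, map_mul, e, eval_C, eval_X, mul_one]
    · intro i _ hi
      rw [Finsupp.notMem_support_iff.mp hi]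
      simp
  -- the value of the derivative
  have hval : ev s (DD (Matrix.diagonal h) f) =
      ∑ α ∈ (Ψ f).support, (Ψ f).coeff α * ∑ i, (α i : K) * h i := by
    have e1 : ev s (DD (Matrix.diagonal h) f) =
        MvPolynomial.eval (fun _ => (1 : K)) (E (Ψ f)) := by
      rw [hcomm, hev]
      congr 2
      ext i j
      rw [Matrix.mul_diagonal, mul_one]
    rw [e1]
    conv_lhs => rw [(Ψ f).as_sum]
    rw [map_sum, map_sum]
    exact Finset.sum_congr rfl fun α _ => hmon α _
  rw [hval]
  apply sum_factor (Ψ f).support (fun α => (Ψ f).coeff α)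
    (fun α => ψ ((∏ i, a i ^ α i : Fˣ) : F))
  · intro m
    have e1 := hev (fun i => ψ (a i) ^ m) f
    rw [hf _ (hS s hs m), eval_eq'] at e1
    rw [← e1]
    refine Finset.sum_congr rfl fun α _ => ?_
    congr 1
    rw [Units.coe_prod, map_prod, ← Finset.prod_pow]
    refine Finset.prod_congr rfl fun i _ => ?_
    rw [Units.val_pow_eq_pow_val, map_pow, ← pow_mul, ← pow_mul, mul_comm]
  · intro α _ β _ hαβ
    have h1 : (∏ i, a i ^ α i : Fˣ) = ∏ i, a i ^ β i := Units.ext (ψ.injective hαβ)
    have h2 : ∀ γ : n →₀ ℕ, (∑ i, (γ i : K) * h i) =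
        ((χ (Additive.ofMul (∏ i, a i ^ γ i : Fˣ)) : ℚ) : K) := by
      intro γ
      rw [ofMul_prod, map_sum, Rat.cast_sum]
      refine Finset.sum_congr rfl fun i _ => ?_
      rw [ofMul_pow, map_nsmul, nsmul_eq_mul, Rat.cast_mul, Rat.cast_natCast]
    rw [h2, h2, h1]

end H77MT
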